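import Pool.Agent.R116.AF.Facts
import Pool.Agent.H177R2.SD.Brc

set_option autoImplicit false
set_option linter.unusedSectionVars false
set_option linter.unusedVariables false

/-!
# The Bruck-Ryser condition for affine planes
-/

namespace Pool.Agent.R116.AF

open Finset Pool.Agent.H177R2.SD

theorem sym_of_inc {P L : Type} [Fintype P] [Fintype L] [DecidableEq P] [DecidableEq L]
    (I : P → L → Prop) [∀ p l, Decidable (I p l)] {v k r l : ℕ} (hkv : k < v)
    (hP : Fintype.card P = v) (hL : Fintype.card L = v)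
    (h1 : ∀ i : L, (univ.filter (fun p => I p i)).card = k)
    (h2 : ∀ p : P, (univ.filter (fun i => I p i)).card = r)
    (h3 : ∀ p p' : P, p ≠ p' → (univ.filter (fun i => I p i ∧ I p' i)).card = l) :
    IsSymmetricDesign v k l := by
  classical
  let eP : P ≃ Fin v := Fintype.equivFinOfCardEq hP
  let eL : L ≃ Fin v := Fintype.equivFinOfCardEq hL
  refine ⟨hkv, r, fun i => univ.filter (fun x => I (eP.symm x) (eL.symm i)), ?_, ?_, ?_⟩
  · intro i
    rw [← h1 (eL.symm i)]
    apply card_bij (fun x _ => eP.symm x)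
    · intro x hx
      rw [mem_filter] at hx ⊢
      exact ⟨mem_univ _, hx.2⟩
    · intro x _ y _ h
      exact eP.symm.injective h
    · intro y hy
      rw [mem_filter] at hy
      exact ⟨eP y, by rw [mem_filter]; simpa using hy.2, by simp⟩
  · intro x
    rw [← h2 (eP.symm x)]
    apply card_bij (fun i _ => eL.symm i)
    · intro i hi
      rw [mem_filter, mem_filter] at hi
      rw [mem_filter]
      exact ⟨mem_univ _, hi.2.2⟩
    · intro x _ y _ h
      exact eL.symm.injective h
    · intro y hy
      rw [mem_filter] at hy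
      exact ⟨eL y, by rw [mem_filter, mem_filter]; simpa using hy.2, by simp⟩
  · intro x y hxy
    rw [← h3 (eP.symm x) (eP.symm y) (fun e => hxy (eP.symm.injective e))]
    apply card_bij (fun i _ => eL.symm i)
    · intro i hi
      rw [mem_filter, mem_filter, mem_filter] at hi
      rw [mem_filter]
      exact ⟨mem_univ _, hi.2.1.2, hi.2.2.2⟩
    · intro x _ y _ h
      exact eL.symm.injective h
    · intro z hz
      rw [mem_filter] at hz
      exact ⟨eL z, by rw [mem_filter, mem_filter, mem_filter]; simpa using hz.2, by simp⟩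

theorem card_filter_sum {α β : Type} [Fintype α] [Fintype β] (p : α ⊕ β → Prop)
    [DecidablePred p] :
    (univ.filter p).card = (univ.filter (fun a => p (Sum.inl a))).card +
      (univ.filter (fun b => p (Sum.inr b))).card := by
  rw [card_filter, card_filter, card_filter, Fintype.sum_sum_type]

theorem card_filter_sub {α : Type} [Fintype α] [DecidableEq α] (S : Finset α) (p : α → Prop)
    [DecidablePred p] :
    (univ.filter (fun a : {a // a ∈ S} => p a)).card = (S.filter p).card := by
  refine card_bij (fun a _ => (a : α)) ?_ ?_ ?_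
  · intro a ha
    rw [mem_filter] at ha ⊢
    exact ⟨a.2, ha.2⟩
  · intro a _ b _ h
    exact Subtype.ext h
  · intro b hb
    rw [mem_filter] at hb
    exact ⟨⟨b, hb.1⟩, by rw [mem_filter]; exact ⟨mem_univ _, hb.2⟩, rfl⟩

section
variable {V : Type} [Fintype V] [DecidableEq V] {k : ℕ} {B : Finset (Finset V)}

theorem Aff.card_B (h : Aff k B) : B.card = k * (k + 1) := by
  have h1 : ∑ b ∈ B, b.card = ∑ x : V, (B.filter (fun b => x ∈ b)).card := by
    have e : ∀ b ∈ B, b.card = ∑ x : V, if x ∈ b then 1 else 0 := by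
      intro b _
      rw [← card_filter]
      congr 1
      ext x
      simp
    rw [sum_congr rfl e, sum_comm]
    refine sum_congr rfl fun x _ => ?_
    rw [card_filter]
  rw [sum_congr rfl h.size, sum_const, sum_congr rfl fun x _ => h.deg x, sum_const, card_univ,
    h.card, smul_eq_mul, smul_eq_mul] at h1
  have h2 := h.two
  refine Nat.eq_of_mul_eq_mul_right (by omega : 0 < k) ?_
  rw [h1]
  ring

/-- the number of lines parallel to a line -/
theorem Aff.card_par (h : Aff k B) {m : Finset V} (hm : m ∈ B) :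
    (B.filter (fun b => par m b)).card = k := by
  have h1 : (univ : Finset V).card = ∑ b ∈ B.filter (fun b => par m b), b.card := by
    rw [← card_biUnion]
    · congr 1
      ext y
      simp only [mem_univ, mem_biUnion, mem_filter, true_iff]
      obtain ⟨b, hb, hy, hp⟩ := h.par_exists hm y
      exact ⟨b, ⟨hb, par_symm hp⟩, hy⟩
    · intro b hb c hc hne
      rw [mem_coe, mem_filter] at hb hc
      rw [Function.onFun, disjoint_left]
      intro y hy hy'
      exact hne (h.par_unique hm hb.1 hc.1 (par_symm hb.2) (par_symm hc.2) hy hy')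
  have h2 : ∀ b ∈ B.filter (fun b => par m b), b.card = k := by
    intro b hb
    exact h.size b (mem_filter.1 hb).1
  rw [sum_congr rfl h2, sum_const, smul_eq_mul, card_univ, h.card, pow_two] at h1
  have h3 := h.two
  exact (Nat.eq_of_mul_eq_mul_right (by omega) h1).symm

/-- the incidence of the projective plane -/
def inc (O : V) (B : Finset (Finset V)) :
    V ⊕ {m // m ∈ B.filter (fun b => O ∈ b)} → {b // b ∈ B} ⊕ Unit → Prop
  | .inl x, .inl b => x ∈ (b : Finset V)
  | .inl _, .inr _ => False
  | .inr m, .inl b => par (m : Finset V) (b : Finset V)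
  | .inr _, .inr _ => True

instance (O : V) (B : Finset (Finset V)) (p : V ⊕ {m // m ∈ B.filter (fun b => O ∈ b)})
    (l : {b // b ∈ B} ⊕ Unit) : Decidable (inc O B p l) := by
  rcases p with x | m <;> rcases l with b | u <;> unfold inc <;> infer_instance

theorem Aff.sym (h : Aff k B) : IsSymmetricDesign (k ^ 2 + k + 1) (k + 1) 1 := by
  have h2 := h.two
  obtain ⟨O⟩ : Nonempty V := by
    rw [← Fintype.card_pos_iff, h.card]
    positivity
  refine sym_of_inc (inc O B) (r := k + 1) (by nlinarith) ?_ ?_ ?_ ?_ ?_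
  · rw [Fintype.card_sum, h.card, Fintype.card_coe, h.deg O]
    ring
  · rw [Fintype.card_sum, Fintype.card_coe, h.card_B, Fintype.card_unit]
    ring
  · rintro (⟨b, hb⟩ | u)
    · rw [card_filter_sum]
      have e1 : (univ.filter (fun x : V => inc O B (Sum.inl x) (Sum.inl ⟨b, hb⟩))).card = k := by
        rw [← h.size b hb]
        congr 1
        ext x
        rw [mem_filter]
        exact ⟨fun h => h.2, fun h => ⟨mem_univ _, h⟩⟩
      have e2 : (univ.filter (fun m : {m // m ∈ B.filter (fun b => O ∈ b)} =>
          inc O B (Sum.inr m) (Sum.inl ⟨b, hb⟩))).card = 1 := by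
        obtain ⟨c, hc, hOc, hp⟩ := h.par_exists hb O
        rw [card_eq_one]
        refine ⟨⟨c, mem_filter.2 ⟨hc, hOc⟩⟩, ?_⟩
        ext ⟨m, hm⟩
        rw [mem_filter, mem_singleton, Subtype.mk.injEq]
        rw [mem_filter] at hm
        constructor
        · rintro ⟨-, h3⟩
          exact h.par_unique hb hm.1 hc h3 hp hm.2 hOc
        · rintro rfl
          exact ⟨mem_univ _, hp⟩
      rw [e1, e2]
    · rw [card_filter_sum]
      have e1 : (univ.filter (fun x : V => inc O B (Sum.inl x) (Sum.inr u))).card = 0 := by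
        rw [card_eq_zero, filter_eq_empty_iff]
        intro x _ h3
        exact h3
      have e2 : (univ.filter (fun m : {m // m ∈ B.filter (fun b => O ∈ b)} =>
          inc O B (Sum.inr m) (Sum.inr u))).card = k + 1 := by
        rw [filter_true_of_mem (p := fun m : {m // m ∈ B.filter (fun b => O ∈ b)} =>
          inc O B (Sum.inr m) (Sum.inr u)) (fun _ _ => trivial), card_univ, Fintype.card_coe, h.deg O]
      rw [e1, e2, zero_add]
  · rintro (x | ⟨m, hm⟩)
    · rw [card_filter_sum]
      have e1 : (univ.filter (fun b : {b // b ∈ B} => inc O B (Sum.inl x) (Sum.inl b))).card =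
          k + 1 := by
        rw [← h.deg x]
        exact card_filter_sub B (fun b => x ∈ b)
      have e2 : (univ.filter (fun u : Unit => inc O B (Sum.inl x) (Sum.inr u))).card = 0 := by
        rw [card_eq_zero, filter_eq_empty_iff]
        intro u _ h3
        exact h3
      rw [e1, e2]
    · rw [card_filter_sum]
      have e1 : (univ.filter (fun b : {b // b ∈ B} => inc O B (Sum.inr ⟨m, hm⟩) (Sum.inl b))).card =
          k := by
        rw [← h.card_par (mem_filter.1 hm).1]
        exact card_filter_sub B (fun b => par m b)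
      have e2 : (univ.filter (fun u : Unit => inc O B (Sum.inr ⟨m, hm⟩) (Sum.inr u))).card = 1 := by
        rw [filter_true_of_mem (p := fun u : Unit => inc O B (Sum.inr ⟨m, hm⟩) (Sum.inr u))
          (fun _ _ => trivial), card_univ, Fintype.card_unit]
      rw [e1, e2]
  · rintro (x | ⟨m, hm⟩) (y | ⟨m', hm'⟩) hne
    · have hxy : x ≠ y := fun e => hne (by rw [e])
      rw [card_filter_sum]
      have e1 : (univ.filter (fun b : {b // b ∈ B} => inc O B (Sum.inl x) (Sum.inl b) ∧
          inc O B (Sum.inl y) (Sum.inl b))).card = 1 := by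
        obtain ⟨b, hb, hx, hy⟩ := h.line x y hxy
        rw [card_eq_one]
        refine ⟨⟨b, hb⟩, ?_⟩
        ext ⟨c, hc⟩
        rw [mem_filter, mem_singleton, Subtype.mk.injEq]
        constructor
        · rintro ⟨-, h3, h4⟩
          exact h.uniq x y hxy c hc b hb h3 h4 hx hy
        · rintro rfl
          exact ⟨mem_univ _, hx, hy⟩
      have e2 : (univ.filter (fun u : Unit => inc O B (Sum.inl x) (Sum.inr u) ∧
          inc O B (Sum.inl y) (Sum.inr u))).card = 0 := by
        rw [card_eq_zero, filter_eq_empty_iff]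
        intro u _ h3
        exact h3.1
      rw [e1, e2]
    · rw [card_filter_sum]
      rw [mem_filter] at hm'
      have e1 : (univ.filter (fun b : {b // b ∈ B} => inc O B (Sum.inl x) (Sum.inl b) ∧
          inc O B (Sum.inr ⟨m', mem_filter.2 hm'⟩) (Sum.inl b))).card = 1 := by
        obtain ⟨b, hb, hx, hp⟩ := h.par_exists hm'.1 x
        rw [card_eq_one]
        refine ⟨⟨b, hb⟩, ?_⟩
        ext ⟨c, hc⟩
        rw [mem_filter, mem_singleton, Subtype.mk.injEq]
        constructor
        · rintro ⟨-, h3, h4⟩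
          exact h.par_unique hm'.1 hc hb (par_symm h4) hp h3 hx
        · rintro rfl
          exact ⟨mem_univ _, hx, par_symm hp⟩
      have e2 : (univ.filter (fun u : Unit => inc O B (Sum.inl x) (Sum.inr u) ∧
          inc O B (Sum.inr ⟨m', mem_filter.2 hm'⟩) (Sum.inr u))).card = 0 := by
        rw [card_eq_zero, filter_eq_empty_iff]
        intro u _ h3
        exact h3.1
      rw [e1, e2]
    · rw [card_filter_sum]
      rw [mem_filter] at hm
      have e1 : (univ.filter (fun b : {b // b ∈ B} =>
          inc O B (Sum.inr ⟨m, mem_filter.2 hm⟩) (Sum.inl b) ∧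
          inc O B (Sum.inl y) (Sum.inl b))).card = 1 := by
        obtain ⟨b, hb, hx, hp⟩ := h.par_exists hm.1 y
        rw [card_eq_one]
        refine ⟨⟨b, hb⟩, ?_⟩
        ext ⟨c, hc⟩
        rw [mem_filter, mem_singleton, Subtype.mk.injEq]
        constructor
        · rintro ⟨-, h4, h3⟩
          exact h.par_unique hm.1 hc hb (par_symm h4) hp h3 hx
        · rintro rfl
          exact ⟨mem_univ _, par_symm hp, hx⟩
      have e2 : (univ.filter (fun u : Unit =>
          inc O B (Sum.inr ⟨m, mem_filter.2 hm⟩) (Sum.inr u) ∧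
          inc O B (Sum.inl y) (Sum.inr u))).card = 0 := by
        rw [card_eq_zero, filter_eq_empty_iff]
        intro u _ h3
        exact h3.2
      rw [e1, e2]
    · rw [card_filter_sum]
      rw [mem_filter] at hm hm'
      have e1 : (univ.filter (fun b : {b // b ∈ B} =>
          inc O B (Sum.inr ⟨m, mem_filter.2 hm⟩) (Sum.inl b) ∧
          inc O B (Sum.inr ⟨m', mem_filter.2 hm'⟩) (Sum.inl b))).card = 0 := by
        rw [card_eq_zero, filter_eq_empty_iff]
        rintro ⟨b, hb⟩ _ ⟨h3, h4⟩
        apply hne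
        have e3 : m = m' := h.par_unique hb hm.1 hm'.1 h3 h4 hm.2 hm'.2
        subst e3
        rfl
      have e2 : (univ.filter (fun u : Unit =>
          inc O B (Sum.inr ⟨m, mem_filter.2 hm⟩) (Sum.inr u) ∧
          inc O B (Sum.inr ⟨m', mem_filter.2 hm'⟩) (Sum.inr u))).card = 1 := by
        rw [filter_true_of_mem (fun _ _ => ⟨trivial, trivial⟩), card_univ, Fintype.card_unit]
      rw [e1, e2]

/-- the Bruck-Ryser condition -/
theorem Aff.br (h : Aff k B) (h4 : k % 4 = 1 ∨ k % 4 = 2) {p : ℕ} (hp : p.Prime)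
    (h1 : p ∣ k) (h2 : ¬ p ^ 2 ∣ k) : p % 4 ≠ 3 := by
  by_cases hp2 : p = 2
  · rw [hp2]
    norm_num
  have hd := h.sym
  have hn2 := h.two
  have h5 := brc_local hd (by omega) (by nlinarith) hp hp2 (by simpa using h1) (by simpa using h2)
    (by rw [Nat.dvd_one]; exact hp.ne_one)
  have : Fact p.Prime := ⟨hp⟩
  have h6 := h5.2
  have hodd : Odd ((k ^ 2 + k + 1 - 1) / 2) := by
    have e1 : k ^ 2 + k + 1 - 1 = k * (k + 1) := by
      have : k ^ 2 + k + 1 = k * (k + 1) + 1 := by ring
      omega
    rw [e1]
    rcases h4 with h4 | h4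
    · obtain ⟨c, hc⟩ : ∃ c, k = 4 * c + 1 := ⟨k / 4, by omega⟩
      rw [hc]
      have : (4 * c + 1) * (4 * c + 1 + 1) = 2 * (8 * c ^ 2 + 6 * c + 1) := by ring
      rw [this, Nat.mul_div_cancel_left _ (by norm_num)]
      exact ⟨4 * c ^ 2 + 3 * c, by ring⟩
    · obtain ⟨c, hc⟩ : ∃ c, k = 4 * c + 2 := ⟨k / 4, by omega⟩
      rw [hc]
      have : (4 * c + 2) * (4 * c + 2 + 1) = 2 * (8 * c ^ 2 + 10 * c + 3) := by ring
      rw [this, Nat.mul_div_cancel_left _ (by norm_num)]
      exact ⟨4 * c ^ 2 + 5 * c + 1, by ring⟩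
  rw [hodd.neg_one_pow] at h6
  have h7 : IsSquare (-1 : ZMod p) := by
    push_cast at h6
    simpa using h6
  rw [ZMod.exists_sq_eq_neg_one_iff] at h7
  exact h7

end

end Pool.Agent.R116.AF
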