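import Pool.Agent.R116.SingPow

set_option autoImplicit false

/-!
# Integers `n` such that no exact prime divisor of `n` has a power `≡ -1` modulo a prime divisor of
`n - 1`
-/

namespace Pool.Agent.R116.AF

open Finset Filter Topology
open Pool.Agent.H951R4.OD (ch PI Ex)
open Pool.Agent.W114.PQ (Dat Pass ex_split finX squeeze)
open Pool.Agent.W52.PQ
open Pool.Agent.Y346.SG
open Pool.Agent.R116.SP (mainSG)

/-- the data: the prime `q` tests `n` if `q` divides `n - 1` -/
noncomputable def datA (b : ℝ) : Dat where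
  c0 := 6 * 3
  m := 1
  e := 0
  Δ := -3
  κ := 1
  τ := 1
  β := b
  ρ := fun q => if q % 2 = 1 then 1 else 0
  T := fun q n => (n : ZMod q) = 1

theorem rhoA_ge (q : ℕ) : 0 ≤ (if q % 2 = 1 then (1 : ℝ) else 0) := by
  split_ifs <;> norm_num

theorem rhoA_le (q : ℕ) : (if q % 2 = 1 then (1 : ℝ) else 0) ≤ 1 := by
  split_ifs <;> norm_num

theorem axA (b : ℝ) (hb : b = 0 ∨ b = 1) : AxG (datA b) := by
  refine
    { c0_pos := ?_, two := ?_, m_odd := odd_one, κ1 := ?_, τ1 := ?_,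
      β01 := hb, rho_up := ?_, per := ?_, ord := ?_, cnt := ?_,
      mert := ?_, low := ?_ }
  · change 0 < 6 * 3
    norm_num
  · change 2 ∣ 6 * 3
    norm_num
  · change (1 : ℝ) ≤ 1
    exact le_rfl
  · change (1 : ℝ) ≤ 1
    exact le_rfl
  · intro q
    exact ⟨rhoA_ge q, rhoA_le q⟩
  · intro q n hq
    change ((n + q ^ 2 : ℕ) : ZMod q) = 1 ↔ (n : ZMod q) = 1
    have h : ((n + q ^ 2 : ℕ) : ZMod q) = (n : ZMod q) := by
      push_cast
      rw [ZMod.natCast_self]
      ring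
    rw [h]
  · intro q n hq hq6 hT
    change (n : ZMod q) ^ 1 = 1
    rw [pow_one]
    exact hT
  · intro q hq hq6
    have := Fact.mk hq
    classical
    have hq2 : q % 2 = 1 := by
      rcases hq.eq_two_or_odd with h | h
      · exfalso
        apply hq6
        change q ∣ 6 * 3
        rw [h]
        norm_num
      · exact h
    have h1 : ((range (q ^ 2)).filter (fun n => (datA b).T q n)).card =
        q * ((range q).filter (fun n => (datA b).T q n)).card := by
      rw [pow_two]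
      refine card_range_mul q q _ fun n => ?_
      change ((n + q : ℕ) : ZMod q) = 1 ↔ (n : ZMod q) = 1
      have h : ((n + q : ℕ) : ZMod q) = (n : ZMod q) := by
        push_cast
        rw [ZMod.natCast_self]
        ring
      rw [h]
    have h2 : ((range q).filter (fun n => (datA b).T q n)).card = 1 := by
      have h3 := card_range_zmod q (fun x : ZMod q => x = 1)
      rw [filter_eq' univ (1 : ZMod q), if_pos (mem_univ _), card_singleton] at h3
      rw [← h3]
      refine congrArg Finset.card (Finset.filter_congr fun n _ => ?_)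
      exact Iff.rfl
    have h3' : (((range (q ^ 2)).filter (fun n => (datA b).T q n)).card : ℝ) =
        q * (datA b).ρ q := by
      rw [h1, h2]
      change ((q * 1 : ℕ) : ℝ) = q * (if q % 2 = 1 then (1 : ℝ) else 0)
      rw [if_pos hq2]
      push_cast
      rfl
    have h4 : (0 : ℝ) ≤ (datA b).κ := by
      change (0 : ℝ) ≤ 1
      norm_num
    change |(((range (q ^ 2)).filter (fun n => (datA b).T q n)).card : ℝ) -
      q * (datA b).ρ q| ≤ (datA b).κ
    convert h4 using 1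
    rw [abs_eq_zero, sub_eq_zero, ← h3']
  · obtain ⟨C, hC⟩ := mert_all {2} (by simp)
    refine ⟨2 * C, fun y z hy hz => ?_⟩
    have e : ∀ q : ℕ, (if q % 2 = 1 then (1 : ℝ) else 0) =
        ∑ d ∈ ({2} : Finset ℕ), (if q % d = 1 then (d.totient : ℝ) else 0) := by
      intro q
      rw [sum_singleton, Nat.totient_two]
      simp
    have e1 : (({2} : Finset ℕ).card : ℝ) = 1 := by simp
    change |∑ q ∈ PI y z, (if q % 2 = 1 then (1 : ℝ) else 0) / q -
      1 * Real.log (Real.log z / Real.log y)| ≤ 2 * C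
    simp only [e]
    rw [← e1]
    have h1 := hC y hy
    have h2 := hC z (hy.trans hz)
    rw [sum_PI_sub _ y z hz, Real.log_div
      (Real.log_pos (by exact_mod_cast (by omega : 1 < z))).ne'
      (Real.log_pos (by exact_mod_cast (by omega : 1 < y))).ne']
    rw [abs_le] at h1 h2 ⊢
    constructor <;> nlinarith [h1.1, h1.2, h2.1, h2.2]
  · intro g hg
    obtain ⟨δ, C, hδ, hC⟩ := Pool.Agent.Y79.SG2.low 3 (by decide) le_rfl g hg
    refine ⟨δ, C, hδ, fun z hz => (hC z hz).trans ?_⟩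
    classical
    calc ∑ q ∈ (PI 2 z).filter (fun q => q % 3 = 1 ∧ ¬ q ∣ 6 * 3 ∧
          ∃ j : ℕ, (g : ZMod q) ^ j = -1), (1 : ℝ) / q
        ≤ ∑ q ∈ (PI 2 z).filter (fun q => q % 3 = 1 ∧ ¬ q ∣ 6 * 3 ∧
          ∃ j : ℕ, (g : ZMod q) ^ j = -1), (datA b).ρ q / q := by
          refine Finset.sum_le_sum fun q hq => ?_
          rw [mem_filter] at hq
          refine div_le_div_of_nonneg_right ?_ (Nat.cast_nonneg q)
          change (1 : ℝ) ≤ if q % 2 = 1 then (1 : ℝ) else 0
          have hq1 : q.Prime := by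
            have := hq.1
            unfold PI at this
            rw [mem_filter] at this
            exact this.2
          rcases hq1.eq_two_or_odd with h | h
          · exfalso
            apply hq.2.2.1
            rw [h]
            norm_num
          · rw [if_pos h]
      _ ≤ ∑ q ∈ (PI 2 z).filter (fun q => ¬ q ∣ 6 * 3 ∧ ∃ j : ℕ, (g : ZMod q) ^ j = -1),
          (datA b).ρ q / q := by
          refine Finset.sum_le_sum_of_subset_of_nonneg ?_ fun q _ _ =>
            div_nonneg (rhoA_ge q) (Nat.cast_nonneg q)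
          intro q hq
          rw [mem_filter] at hq ⊢
          exact ⟨hq.1, hq.2.2⟩
      _ = _ := by
          refine Finset.sum_congr ?_ fun _ _ => rfl
          ext q
          simp only [mem_filter]
          rfl

/-- `A n`: no exact prime divisor of `n` has a power `≡ -1` modulo an odd prime divisor of `n - 1` -/
def Adm (n : ℕ) : Prop :=
  ∀ r q j : ℕ, r.Prime → r ∣ n → ¬ r ^ 2 ∣ n → q.Prime → 2 < q → q ∣ n - 1 →
    (r : ZMod q) ^ j ≠ -1

theorem pass_adm {n : ℕ} (hn : 2 ≤ n) (h : Adm n) (b : ℝ)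
    (hb : b = 1 → ∀ p : ℕ, Ex (6 * 3) n p → p % 4 ≠ 3) : Pass (datA b) n := by
  refine ⟨?_, hb⟩
  intro r q j hE hq hqc hT hj
  have hT' : (n : ZMod q) = 1 := hT
  have h1 : q ∣ n - 1 := by
    rw [← ZMod.natCast_eq_zero_iff, Nat.cast_sub (by omega), hT']
    simp
  have h2 : q ≠ 2 := by
    rintro rfl
    apply hqc
    change 2 ∣ 6 * 3
    norm_num
  have h3 := hq.two_le
  exact h r q j hE.1 hE.2.2.1 hE.2.2.2 hq (by omega) h1 hj

theorem count_adm (P : ℕ → Prop) (hP : ∀ n, P n → 2 ≤ n ∧ Adm n) (ε : ℝ) (hε : 0 < ε) :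
    ∃ C : ℝ, 0 < C ∧ ∀ X : ℕ, 3 ≤ X →
      ({n : ℕ | n ≤ X ∧ P n}.ncard : ℝ) ≤ C * X * (Real.log X) ^ (ε - 1) := by
  have e1 : (datA 0).τ + (datA 0).β / 2 = 1 := by
    have e1 : (datA 0).τ = 1 := rfl
    have e2 : (datA 0).β = 0 := rfl
    rw [e1, e2]
    norm_num
  obtain ⟨C, hC, H⟩ := OC.oc Pool.Agent.W52.PQ.sv mn_full BK.bk (datA 0)
    (axA 0 (Or.inl rfl)) e1 ε hε
  refine ⟨C, hC, fun X hX => le_trans ?_ (H X hX)⟩
  have hsub : {n : ℕ | n ≤ X ∧ P n} ⊆ {n : ℕ | 1 ≤ n ∧ n ≤ X ∧ Pass (datA 0) n} := by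
    rintro n ⟨hnX, hn⟩
    obtain ⟨h1, h2⟩ := hP n hn
    exact ⟨by omega, hnX, pass_adm h1 h2 0 (fun h0 => by norm_num at h0)⟩
  exact_mod_cast Set.ncard_le_ncard hsub (finX _ X)

theorem sharp_adm (P : ℕ → Prop) (hP : ∀ n, P n → 2 ≤ n ∧ Adm n)
    (h4 : ∀ n, P n → ∀ p : ℕ, p.Prime → p ∣ n → ¬ p ^ 2 ∣ n → p % 4 ≠ 3) :
    Tendsto (fun X : ℕ => ({n : ℕ | n ≤ X ∧ ¬ IsPrimePow n ∧ P n}.ncard : ℝ) *
      Real.log X / X) atTop (𝓝 0) := by
  have h1 : 1 < (datA 1).τ + (datA 1).β / 2 := by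
    have e1 : (datA 1).τ = 1 := rfl
    have e2 : (datA 1).β = 1 := rfl
    rw [e1, e2]
    norm_num
  refine squeeze (fun X => ?_) (fun X => ?_) (mainSG (datA 1) (axA 1 (Or.inr rfl)) h1)
  · rintro n ⟨hnX, hnp, hn⟩
    obtain ⟨h1, h2⟩ := hP n hn
    exact ⟨by omega, hnX, pass_adm h1 h2 1
      (fun _ p hE => h4 n hn p hE.1 hE.2.2.1 hE.2.2.2), fun hp => hnp hp.isPrimePow⟩
  · exact finX _ X

end Pool.Agent.R116.AF
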