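import Pool.Agent.R116.AF.Der
import Pool.Agent.R116.AF.BR
import Pool.Agent.R116.AF.Num

set_option autoImplicit false
set_option linter.unusedSectionVars false
set_option linter.unusedVariables false

/-!
# Steiner systems with a nilpotent group which fixes some points and is regular on the others
-/

namespace Pool.Agent.R116.AF

open Finset Filter Topology
open scoped Pointwise

/-- A Steiner system `S(k ^ 2 + t, k + t, t + 2)` with a nilpotent group of automorphisms which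
fixes `t + 1` points and acts regularly on the `k ^ 2 - 1` other points. -/
def HasOff (k t : ℕ) : Prop :=
  ∃ (B : Finset (Finset (Fin (k ^ 2 + t)))) (G : Subgroup (Equiv.Perm (Fin (k ^ 2 + t))))
    (F : Finset (Fin (k ^ 2 + t))), IsSteiner (k ^ 2 + t) (k + t) (t + 2) B ∧
    Group.IsNilpotent G ∧ (∀ g ∈ G, ∀ b ∈ B, b.image g ∈ B) ∧ F.card = t + 1 ∧
    (∀ g ∈ G, ∀ x ∈ F, g x = x) ∧ ∀ x y, x ∉ F → y ∉ F → ∃! g, g ∈ G ∧ g x = y

theorem adm_off {k t : ℕ} (hk : 2 ≤ k) (h : HasOff k t) : Adm k := by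
  classical
  obtain ⟨B, G, F, hB, hnil, hinv, hF, hfix, hreg⟩ := h
  intro r q j hr hrk hrk2 hq hq2 hqk hj
  obtain ⟨O, hO⟩ : ∃ O, O ∈ F := card_pos.1 (by omega)
  have hF' : (F.erase O).card = t := by
    rw [card_erase_of_mem hO, hF]
    rfl
  have hfix' : ∀ g ∈ G, ∀ x ∈ F.erase O, g x = x := fun g hg x hx => hfix g hg x (mem_of_mem_erase hx)
  have hA : Aff k (derB B (F.erase O)) := derived hk rfl hB hF'
  letI := derAct G (F.erase O) hfix'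
  have hinv' := derAct_inv G (F.erase O) hfix' hinv
  have : Fintype G := Fintype.ofFinite G
  have hOO : O ∉ F.erase O := notMem_erase O F
  have hne : ∀ x : {x // x ∉ F.erase O}, x ≠ ⟨O, hOO⟩ → (x : Fin (k ^ 2 + t)) ∉ F := by
    intro x hx h1
    exact x.2 (mem_erase.2 ⟨fun e => hx (Subtype.ext e), h1⟩)
  obtain ⟨u, hu⟩ := hrk
  refine typeD (G := G) hA hinv' ⟨O, hOO⟩ ?_ ?_ ?_ hq hq2 hqk hr hj odd_one (u := u) ?_ ?_
  · intro g
    exact Subtype.ext (hfix g g.2 O hO)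
  · intro x y hx hy
    obtain ⟨g, ⟨hg, hgxy⟩, -⟩ := hreg x y (hne x hx) (hne y hy)
    exact ⟨⟨g, hg⟩, Subtype.ext hgxy⟩
  · intro g x hx hgx
    have h1 := (hreg x x (hne x hx) (hne x hx)).unique (y₁ := (g : Equiv.Perm _)) (y₂ := 1)
      ⟨g.2, congrArg Subtype.val hgx⟩ ⟨G.one_mem, rfl⟩
    exact Subtype.ext h1
  · intro h1
    apply hrk2
    obtain ⟨c, hc⟩ := h1
    refine ⟨c.toNat, ?_⟩
    have hr0 : (0 : ℤ) < r := by exact_mod_cast hr.pos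
    have hu0 : (0 : ℤ) ≤ u := Int.natCast_nonneg u
    have hc0 : 0 ≤ c := by
      by_contra hneg
      push Not at hneg
      nlinarith
    have h2 : (u : ℤ) = r * (c.toNat : ℤ) := by rw [Int.toNat_of_nonneg hc0]; exact hc
    have h3 : u = r * c.toNat := by exact_mod_cast h2
    rw [hu, h3]
    ring
  · rw [pow_one]
    exact_mod_cast hu

theorem br_off {k t : ℕ} (hk : 2 ≤ k) (h : HasOff k t) (h4 : k % 4 = 1 ∨ k % 4 = 2) {p : ℕ}
    (hp : p.Prime) (h1 : p ∣ k) (h2 : ¬ p ^ 2 ∣ k) : p % 4 ≠ 3 := by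
  classical
  obtain ⟨B, G, F, hB, hnil, hinv, hF, hfix, hreg⟩ := h
  obtain ⟨O, hO⟩ : ∃ O, O ∈ F := card_pos.1 (by omega)
  have hF' : (F.erase O).card = t := by
    rw [card_erase_of_mem hO, hF]
    rfl
  have hA : Aff k (derB B (F.erase O)) := derived hk rfl hB hF'
  exact hA.br h4 hp h1 h2

theorem count_off (ε : ℝ) (hε : 0 < ε) :
    ∃ C : ℝ, 0 < C ∧ ∀ X : ℕ, 3 ≤ X →
      ({k : ℕ | k ≤ X ∧ 2 ≤ k ∧ ∃ t, HasOff k t}.ncard : ℝ) ≤ C * X * (Real.log X) ^ (ε - 1) :=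
  count_adm (fun k => 2 ≤ k ∧ ∃ t, HasOff k t) (fun k ⟨hk, t, ht⟩ => ⟨hk, adm_off hk ht⟩) ε hε

theorem sharp_off :
    Tendsto (fun X : ℕ => ({k : ℕ | k ≤ X ∧ ¬ IsPrimePow k ∧ 2 ≤ k ∧
      (k % 4 = 1 ∨ k % 4 = 2) ∧ ∃ t, HasOff k t}.ncard : ℝ) * Real.log X / X) atTop (𝓝 0) :=
  sharp_adm (fun k => 2 ≤ k ∧ (k % 4 = 1 ∨ k % 4 = 2) ∧ ∃ t, HasOff k t)
    (fun k ⟨hk, _, t, ht⟩ => ⟨hk, adm_off hk ht⟩)
    (fun k ⟨hk, h4, t, ht⟩ p hp h1 h2 => br_off hk ht h4 hp h1 h2)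

end Pool.Agent.R116.AF
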