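import Pool.Agent.R116.AF.Homs

set_option autoImplicit false
set_option linter.unusedSectionVars false
set_option linter.unusedVariables false

/-!
# Affine planes with a nilpotent group which is regular outside two intersecting lines
-/

namespace Pool.Agent.R116.AF

open Finset
open scoped Pointwise

section
variable {V : Type} [Fintype V] [DecidableEq V] {k : ℕ} {B : Finset (Finset V)}
variable {G : Type} [Group G] [Fintype G] [DecidableEq G] [MulAction G V]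

/-- the situation: the group fixes two intersecting lines and is regular outside them -/
structure Cross (G : Type) [Group G] [MulAction G V] (k : ℕ) (B : Finset (Finset V))
    (O : V) (L₁ L₂ : Finset V) : Prop where
  aff : Aff k B
  inv : ∀ (g : G), ∀ b ∈ B, g • b ∈ B
  m1 : L₁ ∈ B
  m2 : L₂ ∈ B
  ne : L₁ ≠ L₂
  O1 : O ∈ L₁
  O2 : O ∈ L₂
  f1 : ∀ g : G, g • L₁ = L₁
  f2 : ∀ g : G, g • L₂ = L₂
  tr : ∀ x y : V, x ∉ L₁ → x ∉ L₂ → y ∉ L₁ → y ∉ L₂ → ∃ g : G, g • x = y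
  fr : ∀ (g : G) (x : V), x ∉ L₁ → x ∉ L₂ → g • x = x → g = 1

variable {O : V} {L₁ L₂ : Finset V}

theorem Cross.symm (h : Cross G k B O L₁ L₂) : Cross G k B O L₂ L₁ where
  aff := h.aff
  inv := h.inv
  m1 := h.m2
  m2 := h.m1
  ne := h.ne.symm
  O1 := h.O2
  O2 := h.O1
  f1 := h.f2
  f2 := h.f1
  tr := fun x y h1 h2 h3 h4 => h.tr x y h2 h1 h4 h3
  fr := fun g x h1 h2 => h.fr g x h2 h1

theorem Cross.not_par (h : Cross G k B O L₁ L₂) : ¬ par L₁ L₂ := by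
  rintro (h1 | h1)
  · exact h.ne h1
  · exact disjoint_left.1 h1 h.O1 h.O2

theorem Cross.eq_O (h : Cross G k B O L₁ L₂) {x : V} (h1 : x ∈ L₁) (h2 : x ∈ L₂) : x = O :=
  h.aff.inter h.m1 h.m2 h.ne h1 h2 h.O1 h.O2

theorem mem_of_fix {L : Finset V} (h : ∀ g : G, g • L = L) (g : G) {x : V} :
    g • x ∈ L ↔ x ∈ L := by
  constructor
  · intro h1
    rw [← h g] at h1
    exact (smul_mem_smul_finset_iff g).1 h1
  · intro h1
    rw [← h g]
    exact smul_mem_smul_finset h1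

theorem Cross.fixO (h : Cross G k B O L₁ L₂) (g : G) : g • O = O :=
  h.eq_O ((mem_of_fix h.f1 g).2 h.O1) ((mem_of_fix h.f2 g).2 h.O2)

/-- transitivity on the points of the first line -/
theorem Cross.tr1 (h : Cross G k B O L₁ L₂) {y y' : V} (hy : y ∈ L₁) (hyO : y ≠ O) (hy' : y' ∈ L₁)
    (hyO' : y' ≠ O) : ∃ g : G, g • y = y' := by
  have key : ∀ z : V, z ∈ L₁ → z ≠ O → ∃ m ∈ B, z ∈ m ∧ par m L₂ ∧ m ≠ L₁ ∧
      ∃ P ∈ m, P ∉ L₁ ∧ P ∉ L₂ := by
    intro z hz hzO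
    obtain ⟨m, hm, hzm, hp⟩ := h.aff.par_exists h.m2 z
    have hne : m ≠ L₁ := by
      rintro rfl
      exact h.not_par hp
    have hne2 : m ≠ L₂ := by
      rintro rfl
      exact hzO (h.eq_O hz hzm)
    obtain ⟨P, hP, hPz⟩ := exists_mem_ne (s := m) (by
      rw [h.aff.size m hm]
      exact h.aff.two) z
    refine ⟨m, hm, hzm, hp, hne, P, hP, ?_, ?_⟩
    · intro h1
      exact hPz (h.aff.inter hm h.m1 hne hP h1 hzm hz)
    · intro h1
      have h2 := hp.resolve_left hne2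
      exact disjoint_left.1 h2 hP h1
  obtain ⟨m, hm, hym, hp, hne, P, hP, hP1, hP2⟩ := key y hy hyO
  obtain ⟨m', hm', hym', hp', hne', P', hP', hP1', hP2'⟩ := key y' hy' hyO'
  obtain ⟨g, hg⟩ := h.tr P P' hP1 hP2 hP1' hP2'
  refine ⟨g, ?_⟩
  have h1 : par (g • m) L₂ := by
    have := par_smul g hp
    rwa [h.f2 g] at this
  have h2 : g • m = m' := h.aff.par_unique h.m2 (h.inv g m hm) hm' h1 hp'
    (x := P') (by rw [← hg]; exact smul_mem_smul_finset hP) hP'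
  have h3 : g • y ∈ m' := by
    rw [← h2]
    exact smul_mem_smul_finset hym
  exact h.aff.inter hm' h.m1 hne' h3 ((mem_of_fix h.f1 g).2 hy) hym' hy'

/-- the order of the group -/
theorem Cross.card_G (h : Cross G k B O L₁ L₂) (hk : 3 ≤ k) :
    Nat.card G = (k - 1) * (k - 1) := by
  have hcard : (univ.filter (fun x : V => x ∉ L₁ ∧ x ∉ L₂)).card = (k - 1) * (k - 1) := by
    have h1 : (univ.filter (fun x : V => x ∉ L₁ ∧ x ∉ L₂)) = univ \ (L₁ ∪ L₂) := by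
      ext x
      simp
    have h2 : (L₁ ∩ L₂).card = 1 := by
      rw [card_eq_one]
      refine ⟨O, ?_⟩
      ext x
      rw [mem_inter, mem_singleton]
      constructor
      · rintro ⟨h3, h4⟩
        exact h.eq_O h3 h4
      · rintro rfl
        exact ⟨h.O1, h.O2⟩
    have h3 := card_union_add_card_inter L₁ L₂
    rw [h2, h.aff.size _ h.m1, h.aff.size _ h.m2] at h3
    rw [h1, card_sdiff_of_subset (subset_univ _), card_univ, h.aff.card]
    obtain ⟨c, rfl⟩ : ∃ c, k = c + 1 := ⟨k - 1, by omega⟩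
    have h4 : (c + 1) ^ 2 = c * c + (c + 1 + (c + 1) - 1) := by
      have : c + 1 + (c + 1) - 1 = 2 * c + 1 := by omega
      rw [this]
      ring
    rw [h4]
    have h5 : (L₁ ∪ L₂).card = c + 1 + (c + 1) - 1 := by omega
    rw [h5]
    simp
  obtain ⟨x, hx⟩ : ∃ x : V, x ∈ univ.filter (fun x : V => x ∉ L₁ ∧ x ∉ L₂) := by
    refine card_pos.1 ?_
    rw [hcard]
    exact Nat.mul_pos (by omega) (by omega)
  rw [mem_filter] at hx
  rw [← hcard, Nat.card_eq_fintype_card, ← card_univ]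
  refine card_bij (fun g _ => g • x) ?_ ?_ ?_
  · intro g _
    rw [mem_filter]
    exact ⟨mem_univ _, fun h1 => hx.2.1 ((mem_of_fix h.f1 g).1 h1),
      fun h1 => hx.2.2 ((mem_of_fix h.f2 g).1 h1)⟩
  · intro a _ b _ e
    have h2 : (b⁻¹ * a) • x = x := by
      rw [mul_smul, e, inv_smul_smul]
    have h3 := h.fr _ x hx.2.1 hx.2.2 h2
    rw [inv_mul_eq_one] at h3
    exact h3.symm
  · intro y hy
    rw [mem_filter] at hy
    obtain ⟨g, hg⟩ := h.tr x y hx.2.1 hx.2.2 hy.2.1 hy.2.2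
    exact ⟨g, mem_univ _, hg⟩

theorem Cross.card_stab (h : Cross G k B O L₁ L₂) (hk : 3 ≤ k) {y : V} (hy : y ∈ L₁)
    (hyO : y ≠ O) : Nat.card (MulAction.stabilizer G y) = k - 1 := by
  have h1 : Nat.card (MulAction.orbit G y) = k - 1 := by
    have e : (MulAction.orbit G y : Set V) = ((L₁.erase O : Finset V) : Set V) := by
      ext z
      rw [mem_coe, mem_erase]
      constructor
      · rintro ⟨g, rfl⟩
        simp only
        refine ⟨fun e => hyO ?_, (mem_of_fix h.f1 g).2 hy⟩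
        rw [← h.fixO g] at e
        exact smul_left_cancel g e
      · rintro ⟨h2, h3⟩
        obtain ⟨g, hg⟩ := h.tr1 hy hyO h3 h2
        exact ⟨g, hg⟩
    rw [Nat.card_coe_set_eq, e, Set.ncard_coe_finset, card_erase_of_mem h.O1,
      h.aff.size _ h.m1]
  have : Fintype (MulAction.orbit G y) := Fintype.ofFinite _
  have h2 := MulAction.card_orbit_mul_card_stabilizer_eq_card_group G y
  rw [← Nat.card_eq_fintype_card, ← Nat.card_eq_fintype_card, ← Nat.card_eq_fintype_card, h1,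
    h.card_G hk] at h2
  exact Nat.eq_of_mul_eq_mul_left (by omega) h2

theorem typeG [Group.IsNilpotent G] (h : Cross G k B O L₁ L₂)
    {q : ℕ} (hq : q.Prime) (hq2 : 2 < q) (hqk : q ∣ k - 1) {r : ℕ} (hr : r.Prime) {j : ℕ}
    (hj : (r : ZMod q) ^ j = -1) {a : ℕ} (ha : Odd a) {u : ℤ} (hu : ¬ (r : ℤ) ∣ u)
    (hk : (k : ℤ) = (r : ℤ) ^ a * u) : False := by
  classical
  have hqf : Fact q.Prime := ⟨hq⟩
  have : NeZero q := ⟨hq.ne_zero⟩
  have hA := h.aff
  have hk2 := hA.two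
  have hk4 : 4 ≤ k := by
    have := Nat.le_of_dvd (by omega) hqk
    omega
  obtain ⟨y₁, hy₁, hy₁O⟩ := exists_mem_ne (s := L₁) (by rw [hA.size _ h.m1]; omega) O
  obtain ⟨y₂, hy₂, hy₂O⟩ := exists_mem_ne (s := L₂) (by rw [hA.size _ h.m2]; omega) O
  have hy12 : y₁ ≠ y₂ := by
    rintro rfl
    exact hy₁O (h.eq_O hy₁ hy₂)
  have hy₁2 : y₁ ∉ L₂ := fun h1 => hy₁O (h.eq_O hy₁ h1)
  have hy₂1 : y₂ ∉ L₁ := fun h1 => hy₂O (h.eq_O h1 hy₂)
  obtain ⟨L, hL, hyL1, hyL2⟩ := hA.line y₁ y₂ hy12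
  have hLL1 : L ≠ L₁ := by
    rintro rfl
    exact hy₂1 hyL2
  have hLL2 : L ≠ L₂ := by
    rintro rfl
    exact hy₁2 hyL1
  have m1 : ∀ z ∈ L, z ∈ L₁ → z = y₁ := fun z hz hz' => hA.inter hL h.m1 hLL1 hz hz' hyL1 hy₁
  have m2 : ∀ z ∈ L, z ∈ L₂ → z = y₂ := fun z hz hz' => hA.inter hL h.m2 hLL2 hz hz' hyL2 hy₂
  set W := (L.erase y₁).erase y₂ with hW
  have hmemW : ∀ z, z ∈ W ↔ z ∈ L ∧ z ∉ L₁ ∧ z ∉ L₂ := by
    intro z
    rw [hW, mem_erase, mem_erase]
    constructor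
    · rintro ⟨h1, h2, h3⟩
      exact ⟨h3, fun h4 => h2 (m1 z h3 h4), fun h4 => h1 (m2 z h3 h4)⟩
    · rintro ⟨h1, h2, h3⟩
      exact ⟨fun e => h3 (e ▸ hy₂), fun e => h2 (e ▸ hy₁), h1⟩
  have hcW : W.card = k - 2 := by
    rw [hW, card_erase_of_mem, card_erase_of_mem hyL1, hA.size L hL]
    · omega
    · rw [mem_erase]
      exact ⟨hy12.symm, hyL2⟩
  obtain ⟨x₁, hx₁⟩ : ∃ x, x ∈ W := card_pos.1 (by rw [hcW]; omega)
  rw [hmemW] at hx₁
  have hfree : ∀ g : G, g • x₁ = x₁ → g = 1 := fun g => h.fr g x₁ hx₁.2.1 hx₁.2.2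
  have hinvW : ∀ (g : G) (z : V), z ∉ L₁ → z ∉ L₂ → g • z ∉ L₁ ∧ g • z ∉ L₂ :=
    fun g z h1 h2 => ⟨fun h3 => h1 ((mem_of_fix h.f1 g).1 h3),
      fun h3 => h2 ((mem_of_fix h.f2 g).1 h3)⟩
  have hG := h.card_G (by omega)
  have hs1 : Nat.card (MulAction.stabilizer G y₁) = k - 1 := h.card_stab (by omega) hy₁ hy₁O
  have hs2 : Nat.card (MulAction.stabilizer G y₂) = k - 1 := h.symm.card_stab (by omega) hy₂ hy₂O
  -- the count
  have cW : ∀ y ∈ W, (univ.filter (fun g : G => g • y ∈ L)).card = k - 2 := by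
    intro y hy
    rw [← hcW]
    rw [hmemW] at hy
    refine card_bij (fun g _ => g • y) ?_ ?_ ?_
    · intro g hg
      rw [mem_filter] at hg
      rw [hmemW]
      exact ⟨hg.2, hinvW g y hy.2.1 hy.2.2⟩
    · intro a _ b _ e
      have h2 : (b⁻¹ * a) • y = y := by
        rw [mul_smul, e, inv_smul_smul]
      have h3 := h.fr _ y hy.2.1 hy.2.2 h2
      rw [inv_mul_eq_one] at h3
      exact h3.symm
    · intro z hz
      rw [hmemW] at hz
      obtain ⟨g, hg⟩ := h.tr y z hy.2.1 hy.2.2 hz.2.1 hz.2.2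
      exact ⟨g, mem_filter.2 ⟨mem_univ _, by rw [hg]; exact hz.1⟩, hg⟩
  have cS : ∀ y : V, (∀ g : G, g • y ∈ L → g • y = y) → y ∈ L →
      (univ.filter (fun g : G => g • y ∈ L)).card = Nat.card (MulAction.stabilizer G y) := by
    intro y h1 h2
    rw [Nat.card_eq_fintype_card, Fintype.card_subtype]
    congr 1
    ext g
    rw [mem_filter, mem_filter, MulAction.mem_stabilizer_iff]
    constructor
    · rintro ⟨_, h3⟩
      exact ⟨mem_univ _, h1 g h3⟩
    · rintro ⟨_, h3⟩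
      exact ⟨mem_univ _, by rw [h3]; exact h2⟩
  have c1 : (univ.filter (fun g : G => g • y₁ ∈ L)).card = k - 1 := by
    rw [cS y₁ (fun g hg => m1 _ hg ((mem_of_fix h.f1 g).2 hy₁)) hyL1, hs1]
  have c2 : (univ.filter (fun g : G => g • y₂ ∈ L)).card = k - 1 := by
    rw [cS y₂ (fun g hg => m2 _ hg ((mem_of_fix h.f2 g).2 hy₂)) hyL2, hs2]
  have hsum : (∑ y ∈ L, (univ.filter (fun g : G => g • y ∈ L)).card) =
      (k - 2) * (k - 2) + (k - 1) + (k - 1) := by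
    rw [← add_sum_erase L _ hyL1, c1, ← add_sum_erase (L.erase y₁) _
      (mem_erase.2 ⟨hy12.symm, hyL2⟩), c2, ← hW, sum_congr rfl cW, sum_const, smul_eq_mul, hcW]
    ring
  have hcount := count_NN hA h.inv hL
  rw [hsum, hG] at hcount
  obtain ⟨hS, hN⟩ := stab_trivial hA h.inv hL (by
    obtain ⟨c, rfl⟩ : ∃ c, k = c + 2 := ⟨k - 2, by omega⟩
    have e1 : c + 2 - 2 = c := by omega
    have e2 : c + 2 - 1 = c + 1 := by omega
    rw [e1, e2] at hcount
    have e3 : (c + 1) * (c + 1) = c * c + 2 * c + 1 := by ring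
    omega)
  -- the three subgroups
  have d12 : Disjoint (MulAction.stabilizer G y₁) (MulAction.stabilizer G y₂) := by
    rw [Subgroup.disjoint_def]
    intro g h1 h2
    rw [MulAction.mem_stabilizer_iff] at h1 h2
    apply hS
    refine hA.uniq y₁ y₂ hy12 _ (h.inv g L hL) L hL ?_ ?_ hyL1 hyL2
    · rw [← h1]
      exact smul_mem_smul_finset hyL1
    · rw [← h2]
      exact smul_mem_smul_finset hyL2
  have dN : ∀ y ∈ L, Disjoint (MulAction.stabilizer G y) (NN hA h.inv L hL) := by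
    intro y hy
    rw [Subgroup.disjoint_def]
    intro g h1 h2
    rw [MulAction.mem_stabilizer_iff] at h1
    rw [mem_NN] at h2
    apply hS
    refine h2.resolve_right fun h3 => ?_
    have h4 : y ∈ g • L := by
      rw [← h1]
      exact smul_mem_smul_finset hy
    exact disjoint_left.1 h3 h4 hy
  obtain ⟨φ₁, hφ₁⟩ := exists_nt hq (MulAction.stabilizer G y₁) (MulAction.stabilizer G y₂)
    (by rw [hs1, hs2, hG]) d12 (by rw [hs1]; exact hqk)
  obtain ⟨φ₂, hφ₂⟩ := exists_nt hq (MulAction.stabilizer G y₂) (MulAction.stabilizer G y₁)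
    (by rw [hs1, hs2, hG]) d12.symm (by rw [hs2]; exact hqk)
  obtain ⟨φ₃, hφ₃⟩ := exists_nt hq (NN hA h.inv L hL) (MulAction.stabilizer G y₁)
    (by rw [hs1, hN, hG]) (dN y₁ hyL1).symm (by rw [hN]; exact hqk)
  obtain ⟨φ, ⟨s₁, hs₁, hs₁'⟩, ⟨s₂, hs₂, hs₂'⟩, ⟨s₃, hs₃, hs₃'⟩⟩ := combine hq hq2 hφ₁ hφ₂ hφ₃
  have hφ : Function.Surjective φ := fun c => by
    obtain ⟨m, _, hm⟩ := onto_of_ne hq φ _ hs₁ hs₁' c
    exact ⟨m, hm⟩
  have hNN : ∀ c : Multiplicative (ZMod q), ∃ n : G, par (n • L) L ∧ φ n = c := by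
    intro c
    obtain ⟨m, hm, hm'⟩ := onto_of_ne hq φ _ hs₃ hs₃' c
    exact ⟨m, (mem_NN hA h.inv hL).1 hm, hm'⟩
  obtain ⟨lam, hlam⟩ := cor_eq hA h.inv hL hfree hS φ hφ hNN (by
    intro y hy hy' c
    have hyW : y ∉ W := by
      intro h1
      rw [hmemW] at h1
      obtain ⟨g, hg⟩ := h.tr x₁ y hx₁.2.1 hx₁.2.2 h1.2.1 h1.2.2
      exact hy' (mem_orb.2 ⟨g, hg⟩)
    rw [hmemW] at hyW
    by_cases h1 : y ∈ L₁
    · have e := m1 y hy h1
      subst e
      obtain ⟨m, hm, hm'⟩ := onto_of_ne hq φ _ hs₁ hs₁' c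
      exact ⟨m, MulAction.mem_stabilizer_iff.1 hm, hm'⟩
    · by_cases h2 : y ∈ L₂
      · have e := m2 y hy h2
        subst e
        obtain ⟨m, hm, hm'⟩ := onto_of_ne hq φ _ hs₂ hs₂' c
        exact ⟨m, MulAction.mem_stabilizer_iff.1 hm, hm'⟩
      · exact absurd ⟨hy, h1, h2⟩ hyW)
  exact no_cor hq2 _ k lam hlam hr hj ha hu hk

end

end Pool.Agent.R116.AF
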