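import Pool.Agent.R116.AF.AppD
import Pool.Agent.R116.AF.TypeG

set_option autoImplicit false
set_option linter.unusedSectionVars false
set_option linter.unusedVariables false

/-!
# Steiner systems with a nilpotent group which is regular outside two blocks
-/

namespace Pool.Agent.R116.AF

open Finset Filter Topology
open scoped Pointwise

/-- A Steiner system `S(k ^ 2 + t, k + t, t + 2)` with two blocks with `t + 1` common points and a
nilpotent group of automorphisms which fixes the two blocks and each of their common points and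
acts regularly on the `(k - 1) ^ 2` points outside the two blocks. -/
def HasCross (k t : ℕ) : Prop :=
  ∃ (B : Finset (Finset (Fin (k ^ 2 + t)))) (G : Subgroup (Equiv.Perm (Fin (k ^ 2 + t))))
    (b₁ b₂ : Finset (Fin (k ^ 2 + t))), IsSteiner (k ^ 2 + t) (k + t) (t + 2) B ∧
    Group.IsNilpotent G ∧ (∀ g ∈ G, ∀ b ∈ B, b.image g ∈ B) ∧ b₁ ∈ B ∧ b₂ ∈ B ∧
    (b₁ ∩ b₂).card = t + 1 ∧ (∀ g ∈ G, b₁.image g = b₁ ∧ b₂.image g = b₂) ∧
    (∀ g ∈ G, ∀ x ∈ b₁ ∩ b₂, g x = x) ∧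
    ∀ x y, x ∉ b₁ ∪ b₂ → y ∉ b₁ ∪ b₂ → ∃! g, g ∈ G ∧ g x = y

theorem adm_cross {k t : ℕ} (hk : 2 ≤ k) (h : HasCross k t) : Adm k := by
  classical
  obtain ⟨B, G, b₁, b₂, hB, hnil, hinv, hb₁, hb₂, hF, hfb, hfix, hreg⟩ := h
  intro r q j hr hrk hrk2 hq hq2 hqk hj
  obtain ⟨O, hO⟩ : ∃ O, O ∈ b₁ ∩ b₂ := card_pos.1 (by omega)
  set F := (b₁ ∩ b₂).erase O with hFdef
  have hF' : F.card = t := by
    rw [hFdef, card_erase_of_mem hO, hF]
    rfl
  have hF1 : F ⊆ b₁ := fun x hx => (mem_inter.1 (mem_of_mem_erase hx)).1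
  have hF2 : F ⊆ b₂ := fun x hx => (mem_inter.1 (mem_of_mem_erase hx)).2
  have hfix' : ∀ g ∈ G, ∀ x ∈ F, g x = x := fun g hg x hx => hfix g hg x (mem_of_mem_erase hx)
  have hA : Aff k (derB B F) := derived hk rfl hB hF'
  letI := derAct G F hfix'
  have hinv' := derAct_inv G F hfix' hinv
  have : Fintype G := Fintype.ofFinite G
  have hOO : O ∉ F := notMem_erase O _
  have hO' := mem_inter.1 hO
  have himg : ∀ b : Finset (Fin (k ^ 2 + t)), F ⊆ b → (∀ g ∈ G, b.image g = b) →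
      ∀ g : G, g • (b.subtype (fun x => x ∉ F)) = b.subtype (fun x => x ∉ F) := by
    intro b hFb hb g
    have h1 : g • (b.subtype (fun x => x ∉ F)) ⊆ b.subtype (fun x => x ∉ F) := by
      intro z hz
      obtain ⟨y, hy, rfl⟩ := mem_smul_finset.1 hz
      rw [mem_subtype] at hy ⊢
      have h2 : (g : Equiv.Perm _) (y : Fin (k ^ 2 + t)) ∈ b.image (g : Equiv.Perm _) :=
        mem_image_of_mem _ hy
      rw [hb g g.2] at h2
      exact h2
    exact eq_of_subset_of_card_le h1 (by rw [card_smul_finset])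
  have hne : b₁.subtype (fun x => x ∉ F) ≠ b₂.subtype (fun x => x ∉ F) := by
    intro e
    have h1 : b₁ ⊆ b₂ := by
      intro x hx
      by_cases hxF : x ∈ F
      · exact hF2 hxF
      · have h2 : (⟨x, hxF⟩ : {x // x ∉ F}) ∈ b₁.subtype (fun x => x ∉ F) := mem_subtype.2 hx
        rw [e, mem_subtype] at h2
        exact h2
    have h3 : (b₁ ∩ b₂).card = k + t := by
      rw [inter_eq_left.2 h1, hB.1 _ hb₁]
    omega
  have hC : Cross G k (derB B F) ⟨O, hOO⟩ (b₁.subtype (fun x => x ∉ F))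
      (b₂.subtype (fun x => x ∉ F)) :=
    { aff := hA
      inv := hinv'
      m1 := mem_derB.2 ⟨b₁, hb₁, hF1, rfl⟩
      m2 := mem_derB.2 ⟨b₂, hb₂, hF2, rfl⟩
      ne := hne
      O1 := mem_subtype.2 hO'.1
      O2 := mem_subtype.2 hO'.2
      f1 := himg b₁ hF1 fun g hg => (hfb g hg).1
      f2 := himg b₂ hF2 fun g hg => (hfb g hg).2
      tr := by
        intro x y hx1 hx2 hy1 hy2
        rw [mem_subtype] at hx1 hx2 hy1 hy2
        obtain ⟨g, ⟨hg, hgxy⟩, -⟩ := hreg x y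
          (by rw [mem_union, not_or]; exact ⟨hx1, hx2⟩) (by rw [mem_union, not_or]; exact ⟨hy1, hy2⟩)
        exact ⟨⟨g, hg⟩, Subtype.ext hgxy⟩
      fr := by
        intro g x hx1 hx2 hgx
        rw [mem_subtype] at hx1 hx2
        have h0 : (x : Fin (k ^ 2 + t)) ∉ b₁ ∪ b₂ := by
          rw [mem_union, not_or]
          exact ⟨hx1, hx2⟩
        have h1 := (hreg x x h0 h0).unique (y₁ := (g : Equiv.Perm _)) (y₂ := 1)
          ⟨g.2, congrArg Subtype.val hgx⟩ ⟨G.one_mem, rfl⟩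
        exact Subtype.ext h1 }
  obtain ⟨u, hu⟩ := hrk
  refine typeG hC hq hq2 hqk hr hj odd_one (u := u) ?_ ?_
  · intro h1
    apply hrk2
    have h2 : r ∣ u := by exact_mod_cast h1
    obtain ⟨c, hc⟩ := h2
    exact ⟨c, by rw [hu, hc]; ring⟩
  · rw [pow_one]
    exact_mod_cast hu

theorem br_cross {k t : ℕ} (hk : 2 ≤ k) (h : HasCross k t) (h4 : k % 4 = 1 ∨ k % 4 = 2) {p : ℕ}
    (hp : p.Prime) (h1 : p ∣ k) (h2 : ¬ p ^ 2 ∣ k) : p % 4 ≠ 3 := by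
  classical
  obtain ⟨B, G, b₁, b₂, hB, hnil, hinv, hb₁, hb₂, hF, hfb, hfix, hreg⟩ := h
  obtain ⟨O, hO⟩ : ∃ O, O ∈ b₁ ∩ b₂ := card_pos.1 (by omega)
  have hF' : ((b₁ ∩ b₂).erase O).card = t := by
    rw [card_erase_of_mem hO, hF]
    rfl
  have hA : Aff k (derB B ((b₁ ∩ b₂).erase O)) := derived hk rfl hB hF'
  exact hA.br h4 hp h1 h2

theorem count_cross (ε : ℝ) (hε : 0 < ε) :
    ∃ C : ℝ, 0 < C ∧ ∀ X : ℕ, 3 ≤ X →
      ({k : ℕ | k ≤ X ∧ 2 ≤ k ∧ ∃ t, HasCross k t}.ncard : ℝ) ≤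
        C * X * (Real.log X) ^ (ε - 1) :=
  count_adm (fun k => 2 ≤ k ∧ ∃ t, HasCross k t) (fun k ⟨hk, t, ht⟩ => ⟨hk, adm_cross hk ht⟩) ε hε

theorem sharp_cross :
    Tendsto (fun X : ℕ => ({k : ℕ | k ≤ X ∧ ¬ IsPrimePow k ∧ 2 ≤ k ∧
      (k % 4 = 1 ∨ k % 4 = 2) ∧ ∃ t, HasCross k t}.ncard : ℝ) * Real.log X / X) atTop (𝓝 0) :=
  sharp_adm (fun k => 2 ≤ k ∧ (k % 4 = 1 ∨ k % 4 = 2) ∧ ∃ t, HasCross k t)
    (fun k ⟨hk, _, t, ht⟩ => ⟨hk, adm_cross hk ht⟩)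
    (fun k ⟨hk, h4, t, ht⟩ p hp h1 h2 => br_cross hk ht h4 hp h1 h2)

end Pool.Agent.R116.AF
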