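import Pool.Agent.R116.AF.Key

set_option autoImplicit false
set_option linter.unusedSectionVars false
set_option linter.unusedVariables false

/-!
# The stabilizer of a parallel class
-/

namespace Pool.Agent.R116.AF

open Finset
open scoped Pointwise

section
variable {V : Type} [Fintype V] [DecidableEq V] {k : ℕ} {B : Finset (Finset V)}
variable {G : Type} [Group G] [Fintype G] [DecidableEq G] [MulAction G V]

/-- the stabilizer of the parallel class of a line -/
def NN (h : Aff k B) (hinv : ∀ (g : G), ∀ b ∈ B, g • b ∈ B) (L : Finset V) (hL : L ∈ B) :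
    Subgroup G where
  carrier := {g | par (g • L) L}
  one_mem' := by
    change par ((1 : G) • L) L
    rw [one_smul]
    exact par_refl L
  mul_mem' := by
    intro a b ha hb
    change par ((a * b) • L) L
    rw [mul_smul]
    exact h.par_trans (hinv a _ (hinv b L hL)) (hinv a L hL) hL (par_smul a hb) ha
  inv_mem' := by
    intro a ha
    change par (a⁻¹ • L) L
    have h1 : par (a⁻¹ • a • L) (a⁻¹ • L) := par_smul a⁻¹ ha
    rw [inv_smul_smul] at h1
    exact par_symm h1

theorem mem_NN (h : Aff k B) (hinv : ∀ (g : G), ∀ b ∈ B, g • b ∈ B) {L : Finset V} (hL : L ∈ B)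
    {g : G} : g ∈ NN h hinv L hL ↔ par (g • L) L := Iff.rfl

theorem stab_le (h : Aff k B) (hinv : ∀ (g : G), ∀ b ∈ B, g • b ∈ B) {L : Finset V} (hL : L ∈ B) :
    MulAction.stabilizer G L ≤ NN h hinv L hL := by
  intro g hg
  rw [MulAction.mem_stabilizer_iff] at hg
  rw [mem_NN, hg]
  exact par_refl L

theorem count_NN (h : Aff k B) (hinv : ∀ (g : G), ∀ b ∈ B, g • b ∈ B) {L : Finset V} (hL : L ∈ B) :
    (∑ y ∈ L, (univ.filter (fun g : G => g • y ∈ L)).card) + Nat.card (NN h hinv L hL) =
      k * Nat.card (MulAction.stabilizer G L) + Nat.card G := by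
  classical
  have e1 : (∑ y ∈ L, (univ.filter (fun g : G => g • y ∈ L)).card) =
      ∑ g : G, (L.filter (fun y => g • y ∈ L)).card := by
    simp only [card_filter]
    exact sum_comm
  have e2 : ∀ g : G, (L.filter (fun y => g • y ∈ L)).card +
      (if g ∈ NN h hinv L hL then 1 else 0) =
      k * (if g ∈ MulAction.stabilizer G L then 1 else 0) + 1 := by
    intro g
    rw [h.moved hinv hL g]
    by_cases h1 : g • L = L
    · rw [if_pos h1, if_pos ((mem_NN h hinv hL).2 (by rw [h1]; exact par_refl L)),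
        if_pos (MulAction.mem_stabilizer_iff.2 h1), mul_one]
    · rw [if_neg h1, if_neg (fun h2 => h1 (MulAction.mem_stabilizer_iff.1 h2)), mul_zero]
      by_cases h2 : par (g • L) L
      · rw [if_pos h2, if_pos ((mem_NN h hinv hL).2 h2)]
      · rw [if_neg h2, if_neg (fun h3 => h2 ((mem_NN h hinv hL).1 h3))]
  have e3 : ∀ K : Subgroup G, Nat.card K = ∑ g : G, if g ∈ K then 1 else 0 := by
    intro K
    rw [Nat.card_eq_fintype_card, Fintype.card_subtype, card_filter]
  rw [e1, e3, e3, ← sum_add_distrib, mul_sum, sum_congr rfl fun g _ => e2 g, sum_add_distrib,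
    Nat.card_eq_fintype_card, ← card_univ, card_eq_sum_ones]
  congr!

theorem stab_trivial (h : Aff k B) (hinv : ∀ (g : G), ∀ b ∈ B, g • b ∈ B) {L : Finset V}
    (hL : L ∈ B)
    (hc : Nat.card (NN h hinv L hL) + 1 = k * Nat.card (MulAction.stabilizer G L)) :
    (∀ g : G, g • L = L → g = 1) ∧ Nat.card (NN h hinv L hL) = k - 1 := by
  have h1 : Nat.card (MulAction.stabilizer G L) ∣ Nat.card (NN h hinv L hL) :=
    Subgroup.card_dvd_of_le (stab_le h hinv hL)
  have h2 : Nat.card (MulAction.stabilizer G L) ∣ Nat.card (NN h hinv L hL) + 1 := by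
    rw [hc]
    exact Dvd.intro_left k rfl
  have h3 : Nat.card (MulAction.stabilizer G L) = 1 :=
    Nat.dvd_one.1 ((Nat.dvd_add_right h1).1 h2)
  constructor
  · intro g hg
    have h4 : MulAction.stabilizer G L = ⊥ := Subgroup.card_eq_one.1 h3
    have h5 : g ∈ MulAction.stabilizer G L := MulAction.mem_stabilizer_iff.2 hg
    rw [h4, Subgroup.mem_bot] at h5
    exact h5
  · rw [h3, mul_one] at hc
    omega

/-- a nontrivial image in a group of prime order is everything -/
theorem onto_of_ne {q : ℕ} (hq : q.Prime) (φ : G →* Multiplicative (ZMod q)) (N : Subgroup G)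
    {n : G} (hn : n ∈ N) (hn' : φ n ≠ 1) (c : Multiplicative (ZMod q)) : ∃ m ∈ N, φ m = c := by
  have : Fact q.Prime := ⟨hq⟩
  have h1 : c ∈ Subgroup.zpowers (φ n) :=
    mem_zpowers_of_prime_card (p := q) (by simp) hn'
  obtain ⟨i, hi⟩ := Subgroup.mem_zpowers_iff.1 h1
  exact ⟨n ^ i, N.zpow_mem hn i, by rw [map_zpow, hi]⟩

/-- a subgroup whose index is prime to `q` is mapped onto -/
theorem onto_of_index {q : ℕ} (hq : q.Prime) (φ : G →* Multiplicative (ZMod q))
    (hφ : Function.Surjective φ) (N : Subgroup G) (hN : ¬ q ∣ N.index)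
    (c : Multiplicative (ZMod q)) : ∃ m ∈ N, φ m = c := by
  by_cases h : ∃ n ∈ N, φ n ≠ 1
  · obtain ⟨n, hn, hn'⟩ := h
    exact onto_of_ne hq φ N hn hn' c
  · exfalso
    push Not at h
    have h1 : N ≤ φ.ker := fun n hn => MonoidHom.mem_ker.2 (h n hn)
    have h2 : φ.ker.index = q := by
      rw [Subgroup.index_ker, MonoidHom.range_eq_top.2 hφ, Subgroup.card_top,
        Nat.card_congr Multiplicative.toAdd, Nat.card_zmod]
    exact hN (h2 ▸ Subgroup.index_dvd_of_le h1)

end

end Pool.Agent.R116.AF
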