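import Pool.Agent.R116.AF.TypeD

set_option autoImplicit false
set_option linter.unusedSectionVars false
set_option linter.unusedVariables false

/-!
# Derived designs which are affine planes
-/

namespace Pool.Agent.R116.AF

open Finset
open scoped Pointwise

/-- `B` is a Steiner system with blocks of size `q` and strength `r` on `n` points -/
def IsSteiner (n q r : ℕ) (B : Finset (Finset (Fin n))) : Prop :=
  (∀ b ∈ B, b.card = q) ∧ ∀ T : Finset (Fin n), T.card = r → ∃! b, b ∈ B ∧ T ⊆ b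

section
variable {n k t : ℕ} {B : Finset (Finset (Fin n))}

/-- the blocks of the derived design -/
def derB (B : Finset (Finset (Fin n))) (F : Finset (Fin n)) : Finset (Finset {x // x ∉ F}) :=
  (B.filter (fun b => F ⊆ b)).image (fun b => b.subtype (fun x => x ∉ F))

theorem mem_derB {F : Finset (Fin n)} {c : Finset {x // x ∉ F}} :
    c ∈ derB B F ↔ ∃ b ∈ B, F ⊆ b ∧ b.subtype (fun x => x ∉ F) = c := by
  unfold derB
  rw [mem_image]
  constructor
  · rintro ⟨b, hb, hc⟩
    rw [mem_filter] at hb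
    exact ⟨b, hb.1, hb.2, hc⟩
  · rintro ⟨b, hb, hF, hc⟩
    exact ⟨b, mem_filter.2 ⟨hb, hF⟩, hc⟩

theorem card_sub {F b : Finset (Fin n)} (hF : F ⊆ b) :
    (b.subtype (fun x => x ∉ F)).card = b.card - F.card := by
  rw [card_subtype, ← card_sdiff_of_subset hF]
  congr 1
  ext x
  simp

theorem derived (hk : 2 ≤ k) (hn : n = k ^ 2 + t) (hB : IsSteiner n (k + t) (t + 2) B)
    {F : Finset (Fin n)} (hF : F.card = t) : Aff k (derB B F) := by
  have key : ∀ x y : {x // x ∉ F}, x ≠ y → (insert (x : Fin n) (insert (y : Fin n) F)).card =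
      t + 2 := by
    intro x y hxy
    rw [card_insert_of_notMem, card_insert_of_notMem y.2, hF]
    rw [mem_insert, not_or]
    exact ⟨fun e => hxy (Subtype.ext e), x.2⟩
  refine ⟨hk, ?_, ?_, ?_, ?_⟩
  · have h1 : Fintype.card {x // x ∉ F} = (univ \ F).card := by
      rw [Fintype.card_subtype]
      congr 1
      ext x
      simp
    rw [h1, card_sdiff_of_subset (subset_univ F), card_univ, Fintype.card_fin, hF, hn]
    omega
  · intro c hc
    obtain ⟨b, hb, hFb, rfl⟩ := mem_derB.1 hc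
    rw [card_sub hFb, hB.1 b hb, hF]
    omega
  · intro x y hxy
    obtain ⟨b, ⟨hb, hb'⟩, -⟩ := hB.2 _ (key x y hxy)
    refine ⟨b.subtype (fun x => x ∉ F), mem_derB.2 ⟨b, hb, ?_, rfl⟩, ?_, ?_⟩
    · exact fun z hz => hb' (mem_insert_of_mem (mem_insert_of_mem hz))
    · rw [mem_subtype]
      exact hb' (mem_insert_self _ _)
    · rw [mem_subtype]
      exact hb' (mem_insert_of_mem (mem_insert_self _ _))
  · intro x y hxy c hc c' hc' hx hy hx' hy'
    obtain ⟨b, hb, hFb, rfl⟩ := mem_derB.1 hc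
    obtain ⟨b', hb', hFb', rfl⟩ := mem_derB.1 hc'
    rw [mem_subtype] at hx hy hx' hy'
    have h1 := (hB.2 _ (key x y hxy)).unique
      ⟨hb, insert_subset hx (insert_subset hy hFb)⟩
      ⟨hb', insert_subset hx' (insert_subset hy' hFb')⟩
    rw [h1]

/-- the action on the points of the derived design -/
@[reducible] def derAct (G : Subgroup (Equiv.Perm (Fin n))) (F : Finset (Fin n))
    (hfix : ∀ g ∈ G, ∀ x ∈ F, g x = x) : MulAction G {x // x ∉ F} where
  smul g x := ⟨(g : Equiv.Perm (Fin n)) x, fun h => x.2 (by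
    have h1 := hfix g g.2 _ h
    have h2 := (g : Equiv.Perm (Fin n)).injective h1
    rw [h2] at h
    exact h)⟩
  one_smul x := Subtype.ext rfl
  mul_smul g g' x := Subtype.ext rfl

theorem derAct_inv (G : Subgroup (Equiv.Perm (Fin n))) (F : Finset (Fin n))
    (hfix : ∀ g ∈ G, ∀ x ∈ F, g x = x) (hinv : ∀ g ∈ G, ∀ b ∈ B, b.image g ∈ B) (g : G) :
    letI := derAct G F hfix
    ∀ c ∈ derB B F, g • c ∈ derB B F := by
  letI := derAct G F hfix
  intro c hc
  obtain ⟨b, hb, hFb, rfl⟩ := mem_derB.1 hc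
  refine mem_derB.2 ⟨b.image (g : Equiv.Perm (Fin n)), hinv g g.2 b hb, ?_, ?_⟩
  · intro x hx
    rw [mem_image]
    exact ⟨x, hFb hx, hfix g g.2 x hx⟩
  · ext ⟨x, hx⟩
    rw [mem_subtype, mem_image, mem_smul_finset]
    constructor
    · rintro ⟨y, hy, hyx⟩
      have hyF : y ∉ F := by
        intro h
        apply hx
        simp only at hyx
        rw [← hyx, hfix g g.2 y h]
        exact h
      exact ⟨⟨y, hyF⟩, mem_subtype.2 hy, Subtype.ext hyx⟩
    · rintro ⟨⟨y, hy⟩, hy', e⟩
      rw [mem_subtype] at hy'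
      exact ⟨y, hy', congrArg Subtype.val e⟩

end

end Pool.Agent.R116.AF
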