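import Pool.Agent.R116.AF.Tup

set_option autoImplicit false
set_option linter.unusedSectionVars false
set_option linter.unusedVariables false

/-!
# Orders which are odd powers
-/

namespace Pool.Agent.R116.AF

open Finset Filter Topology
open Pool.Agent.H951R4.OD (ch PI Ex)
open Pool.Agent.W114.PQ (Dat Pass ex_split finX squeeze)
open Pool.Agent.W52.PQ
open Pool.Agent.Y346.SG
open Pool.Agent.R116.SP (mainSG pow_split)

/-- the divisors `> 1` of `i`, and `2` instead of `1` -/
def EI (i : ℕ) : Finset ℕ := insert 2 (i.divisors.erase 1)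

theorem mem_div {i d : ℕ} (hi : 0 < i) : d ∈ i.divisors.erase 1 ↔ d ≠ 1 ∧ d ∣ i := by
  rw [mem_erase, Nat.mem_divisors]
  exact ⟨fun h => ⟨h.1, h.2.1⟩, fun h => ⟨h.1, h.2, hi.ne'⟩⟩

theorem two_notMem {i : ℕ} (hi : Odd i) : 2 ∉ i.divisors.erase 1 := by
  rw [mem_div hi.pos]
  rintro ⟨_, h⟩
  exact (Nat.not_even_iff_odd.2 hi) (even_iff_two_dvd.2 h)

theorem sum_EI {i : ℕ} (hi : Odd i) (f : ℕ → ℝ) :
    ∑ d ∈ EI i, f d = f 2 + ∑ d ∈ i.divisors.erase 1, f d := by
  unfold EI
  rw [sum_insert (two_notMem hi)]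

/-- the data: the prime `q` tests `n` if `n ^ i ≡ 1` modulo `q` -/
noncomputable def datI (i : ℕ) : Dat where
  c0 := 6 * i
  m := i
  e := 0
  Δ := -3
  κ := i + 1
  τ := ((EI i).card : ℝ)
  β := 0
  ρ := fun q => ∑ d ∈ EI i, (if q % d = 1 then (d.totient : ℝ) else 0)
  T := fun q n => (n : ZMod q) ^ i = 1

theorem rhoI_ge (i q : ℕ) : 0 ≤ ∑ d ∈ EI i, (if q % d = 1 then (d.totient : ℝ) else 0) := by
  refine Finset.sum_nonneg fun d _ => ?_
  split_ifs
  · positivity
  · exact le_rfl

theorem rhoI_le {i : ℕ} (hi : Odd i) (q : ℕ) :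
    ∑ d ∈ EI i, (if q % d = 1 then (d.totient : ℝ) else 0) ≤ i + 1 := by
  rw [sum_EI hi, Nat.totient_two]
  have h1 : (if q % 2 = 1 then ((1 : ℕ) : ℝ) else 0) ≤ 1 := by
    split_ifs <;> norm_num
  have h2 : ∑ d ∈ i.divisors.erase 1, (if q % d = 1 then (d.totient : ℝ) else 0) ≤ i := by
    calc ∑ d ∈ i.divisors.erase 1, (if q % d = 1 then (d.totient : ℝ) else 0)
        ≤ ∑ d ∈ i.divisors.erase 1, (d.totient : ℝ) := by
          refine sum_le_sum fun d _ => ?_
          split_ifs
          · exact le_rfl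
          · positivity
      _ ≤ ∑ d ∈ i.divisors, (d.totient : ℝ) :=
          sum_le_sum_of_subset_of_nonneg (erase_subset _ _) fun d _ _ => by positivity
      _ = (i : ℝ) := by
          rw [← Nat.cast_sum, Nat.sum_totient]
  linarith

theorem card_TI {i : ℕ} (hi : Odd i) (q : ℕ) [hq : Fact q.Prime] (hq2 : q % 2 = 1) :
    (univ.filter (fun x : ZMod q => x ^ i = 1)).card =
      ∑ d ∈ EI i, (if q % d = 1 then d.totient else 0) := by
  have h0 : (univ.filter (fun x : ZMod q => x ^ i = 1)) =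
      insert 1 (univ.filter (fun x : ZMod q => ∃ d ∈ i.divisors.erase 1, orderOf x = d)) := by
    ext x
    rw [mem_insert, mem_filter, mem_filter, ← orderOf_dvd_iff_pow_eq_one]
    constructor
    · rintro ⟨_, h⟩
      by_cases h1 : x = 1
      · exact Or.inl h1
      · refine Or.inr ⟨mem_univ _, _, (mem_div hi.pos).2 ⟨?_, h⟩, rfl⟩
        exact fun e => h1 (orderOf_eq_one_iff.1 e)
    · rintro (rfl | ⟨_, d, hd, he⟩)
      · exact ⟨mem_univ _, by simp⟩
      · exact ⟨mem_univ _, he ▸ ((mem_div hi.pos).1 hd).2⟩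
  have h1 : (1 : ZMod q) ∉ univ.filter (fun x : ZMod q => ∃ d ∈ i.divisors.erase 1, orderOf x = d) := by
    rw [mem_filter]
    rintro ⟨_, d, hd, he⟩
    rw [orderOf_one] at he
    exact ((mem_div hi.pos).1 hd).1 he.symm
  have h2 : (univ.filter (fun x : ZMod q => ∃ d ∈ i.divisors.erase 1, orderOf x = d)).card =
      ∑ d ∈ i.divisors.erase 1, (if q % d = 1 then d.totient else 0) := by
    rw [Finset.card_eq_sum_card_fiberwise (f := fun x : ZMod q => orderOf x)
      (t := i.divisors.erase 1)]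
    · refine Finset.sum_congr rfl fun d hd => ?_
      have hd' := (mem_div hi.pos).1 hd
      have hd1 : 1 < d := by
        have : d ≠ 0 := by
          rintro rfl
          have := zero_dvd_iff.1 hd'.2
          have := hi.pos
          omega
        omega
      rw [← card_order q d hd1]
      congr 1
      ext x
      rw [mem_filter, mem_filter, mem_filter]
      constructor
      · rintro ⟨_, h⟩
        exact ⟨mem_univ _, h⟩
      · rintro ⟨_, h⟩
        exact ⟨⟨mem_univ _, d, hd, h⟩, h⟩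
    · intro x hx
      rw [mem_coe, mem_filter] at hx
      obtain ⟨_, d, h1, h2⟩ := hx
      rw [mem_coe]
      change orderOf x ∈ i.divisors.erase 1
      rw [h2]
      exact h1
  unfold EI
  rw [h0, card_insert_of_notMem h1, h2, sum_insert (two_notMem hi), if_pos hq2, Nat.totient_two,
    add_comm]

theorem axI {i : ℕ} (hi : Odd i) (hi3 : 3 ≤ i) : AxG (datI i) := by
  refine
    { c0_pos := ?_, two := ?_, m_odd := hi, κ1 := ?_, τ1 := ?_,
      β01 := Or.inl rfl, rho_up := ?_, per := ?_, ord := ?_, cnt := ?_,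
      mert := ?_, low := ?_ }
  · change 0 < 6 * i
    omega
  · change 2 ∣ 6 * i
    exact ⟨3 * i, by ring⟩
  · change (1 : ℝ) ≤ (i : ℝ) + 1
    have : (0 : ℝ) ≤ i := Nat.cast_nonneg i
    linarith
  · change (1 : ℝ) ≤ ((EI i).card : ℝ)
    exact_mod_cast Finset.card_pos.2 ⟨2, mem_insert_self _ _⟩
  · intro q
    exact ⟨rhoI_ge i q, rhoI_le hi q⟩
  · intro q n hq
    change ((n + q ^ 2 : ℕ) : ZMod q) ^ i = 1 ↔ (n : ZMod q) ^ i = 1
    have h : ((n + q ^ 2 : ℕ) : ZMod q) = (n : ZMod q) := by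
      push_cast
      rw [ZMod.natCast_self]
      ring
    rw [h]
  · intro q n hq hq6 hT
    exact hT
  · intro q hq hq6
    have := Fact.mk hq
    classical
    have hq2 : q % 2 = 1 := by
      rcases hq.eq_two_or_odd with h | h
      · exfalso
        apply hq6
        change q ∣ 6 * i
        rw [h]
        exact ⟨3 * i, by ring⟩
      · exact h
    have h1 : ((range (q ^ 2)).filter (fun n => (datI i).T q n)).card =
        q * ((range q).filter (fun n => (datI i).T q n)).card := by
      rw [pow_two]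
      refine card_range_mul q q _ fun n => ?_
      change ((n + q : ℕ) : ZMod q) ^ i = 1 ↔ (n : ZMod q) ^ i = 1
      have h : ((n + q : ℕ) : ZMod q) = (n : ZMod q) := by
        push_cast
        rw [ZMod.natCast_self]
        ring
      rw [h]
    have h2 : ((range q).filter (fun n => (datI i).T q n)).card =
        ∑ d ∈ EI i, (if q % d = 1 then d.totient else 0) := by
      rw [← card_TI hi q hq2, ← card_range_zmod q (fun x : ZMod q => x ^ i = 1)]
      refine congrArg Finset.card (Finset.filter_congr fun n _ => ?_)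
      exact Iff.rfl
    have h3' : (((range (q ^ 2)).filter (fun n => (datI i).T q n)).card : ℝ) =
        q * (datI i).ρ q := by
      rw [h1, h2]
      change ((q * ∑ d ∈ EI i, (if q % d = 1 then d.totient else 0) : ℕ) : ℝ) = q *
        ∑ d ∈ EI i, (if q % d = 1 then (d.totient : ℝ) else 0)
      push_cast
      rfl
    have h4 : (0 : ℝ) ≤ (datI i).κ := by
      change (0 : ℝ) ≤ (i : ℝ) + 1
      positivity
    change |(((range (q ^ 2)).filter (fun n => (datI i).T q n)).card : ℝ) -
      q * (datI i).ρ q| ≤ (datI i).κ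
    convert h4 using 1
    rw [abs_eq_zero, sub_eq_zero, ← h3']
  · have hgt : ∀ d ∈ EI i, 1 < d := by
      intro d hd
      unfold EI at hd
      rw [mem_insert] at hd
      rcases hd with rfl | hd
      · norm_num
      · have hd' := (mem_div hi.pos).1 hd
        have : d ≠ 0 := by
          rintro rfl
          have := zero_dvd_iff.1 hd'.2
          have := hi.pos
          omega
        omega
    obtain ⟨C, hC⟩ := mert_all (EI i) hgt
    refine ⟨2 * C, fun y z hy hz => ?_⟩
    change |∑ q ∈ PI y z, (∑ d ∈ EI i, (if q % d = 1 then (d.totient : ℝ) else 0)) / q -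
      ((EI i).card : ℝ) * Real.log (Real.log z / Real.log y)| ≤ 2 * C
    have h1 := hC y hy
    have h2 := hC z (hy.trans hz)
    rw [sum_PI_sub _ y z hz, Real.log_div
      (Real.log_pos (by exact_mod_cast (by omega : 1 < z))).ne'
      (Real.log_pos (by exact_mod_cast (by omega : 1 < y))).ne']
    rw [abs_le] at h1 h2 ⊢
    constructor <;> nlinarith [h1.1, h1.2, h2.1, h2.2]
  · intro g hg
    obtain ⟨δ, C, hδ, hC⟩ := Pool.Agent.Y79.SG2.low i hi hi3 g hg
    refine ⟨δ, C, hδ, fun z hz => (hC z hz).trans ?_⟩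
    classical
    have hii : i ∈ EI i := by
      unfold EI
      rw [mem_insert, mem_div hi.pos]
      exact Or.inr ⟨by omega, dvd_rfl⟩
    have hρ : ∀ q : ℕ, q % i = 1 → 1 ≤ (datI i).ρ q := by
      intro q hq
      change (1 : ℝ) ≤ ∑ d ∈ EI i, (if q % d = 1 then (d.totient : ℝ) else 0)
      refine le_trans ?_ (Finset.single_le_sum (f := fun d : ℕ =>
        if q % d = 1 then (d.totient : ℝ) else 0) (fun d _ => ?_) hii)
      · simp only [hq, if_true]
        exact_mod_cast Nat.totient_pos.2 (by omega)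
      · split_ifs
        · positivity
        · exact le_rfl
    calc ∑ q ∈ (PI 2 z).filter (fun q => q % i = 1 ∧ ¬ q ∣ 6 * i ∧
          ∃ j : ℕ, (g : ZMod q) ^ j = -1), (1 : ℝ) / q
        ≤ ∑ q ∈ (PI 2 z).filter (fun q => q % i = 1 ∧ ¬ q ∣ 6 * i ∧
          ∃ j : ℕ, (g : ZMod q) ^ j = -1), (datI i).ρ q / q := by
          refine Finset.sum_le_sum fun q hq => ?_
          rw [mem_filter] at hq
          exact div_le_div_of_nonneg_right (hρ q hq.2.1) (Nat.cast_nonneg q)
      _ ≤ ∑ q ∈ (PI 2 z).filter (fun q => ¬ q ∣ 6 * i ∧ ∃ j : ℕ, (g : ZMod q) ^ j = -1),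
          (datI i).ρ q / q := by
          refine Finset.sum_le_sum_of_subset_of_nonneg ?_ fun q _ _ =>
            div_nonneg (rhoI_ge i q) (Nat.cast_nonneg q)
          intro q hq
          rw [mem_filter] at hq ⊢
          exact ⟨hq.1, hq.2.2⟩
      _ = _ := by
          refine Finset.sum_congr ?_ fun _ _ => rfl
          ext q
          simp only [mem_filter]
          rfl

theorem passI {P : ℕ → Prop} (hX : Excl P) {i n : ℕ} (hi : Odd i) (hn : 2 ≤ n) (h : P (n ^ i)) :
    Pass (datI i) n := by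
  refine ⟨?_, fun h => by
    change (0 : ℝ) = 1 at h
    norm_num at h⟩
  intro r q j hE hq hqc hT hj
  have hT' : (n : ZMod q) ^ i = 1 := hT
  have hn2 : 2 ≤ n ^ i := hn.trans (Nat.le_self_pow hi.pos.ne' n)
  have h1 : q ∣ n ^ i - 1 := by
    rw [← ZMod.natCast_eq_zero_iff, Nat.cast_sub (by omega), Nat.cast_pow, hT']
    simp
  have h2 : q ≠ 2 := by
    rintro rfl
    apply hqc
    change 2 ∣ 6 * i
    exact ⟨3 * i, by ring⟩
  have h3 := hq.two_le
  have hnp := pow_split (i := i) hE.1 (ex_split hE)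
  exact hX.odd _ hn2 h q r j i ((n / r) ^ i) hq (by omega) h1 hE.1 hj hi hnp.2 hnp.1

theorem sharp_pow {P : ℕ → Prop} (hX : Excl P) {i : ℕ} (hi : Odd i) (hi3 : 3 ≤ i) :
    Tendsto (fun X : ℕ => ({n : ℕ | n ≤ X ∧ ¬ IsPrimePow n ∧ 2 ≤ n ∧ P (n ^ i)}.ncard : ℝ) *
      Real.log X / X) atTop (𝓝 0) := by
  have h1 : 1 < (datI i).τ + (datI i).β / 2 := by
    have e1 : (datI i).τ = ((EI i).card : ℝ) := rfl
    have e2 : (datI i).β = 0 := rfl
    have h2 : ({2, i} : Finset ℕ) ⊆ EI i := by
      intro x hx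
      rw [mem_insert, mem_singleton] at hx
      unfold EI
      rw [mem_insert, mem_div hi.pos]
      rcases hx with rfl | rfl
      · exact Or.inl rfl
      · exact Or.inr ⟨by omega, dvd_rfl⟩
    have h3 := card_le_card h2
    have hne : (2 : ℕ) ≠ i := by
      rintro rfl
      exact absurd hi (by decide)
    rw [card_pair hne] at h3
    have h4 : (2 : ℝ) ≤ ((EI i).card : ℝ) := by exact_mod_cast h3
    rw [e1, e2]
    linarith
  refine squeeze (fun X => ?_) (fun X => ?_) (mainSG (datI i) (axI hi hi3) h1)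
  · rintro n ⟨hnX, hnp, hn2, hn⟩
    exact ⟨by omega, hnX, passI hX hi hn2 hn, fun hp => hnp hp.isPrimePow⟩
  · exact finX _ X

end Pool.Agent.R116.AF
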