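import Pool.Agent.R116.AF.Div
import Pool.Agent.R116.AF.Pow

set_option autoImplicit false
set_option linter.unusedSectionVars false
set_option linter.unusedVariables false

/-!
# Liftable difference sets with Singer parameters
-/

namespace Pool.Agent.R116.AF

open Finset Filter Topology
open Pool.Agent.H951R4.OD (ch PI Ex)
open Pool.Agent.W114.PQ (Dat Pass ex_split finX squeeze)
open Pool.Agent.W52.PQ
open Pool.Agent.Y346.SG
open Pool.Agent.R116.SP (mainSG pow_split)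
open Pool.Agent.TH66.SG (tup_main exx neg_ne_one pow_of_primes two_le_prod LL density_of_tuples)

/-- the first exclusion property -/
def ExO (P : ℕ → Prop) : Prop :=
  ∀ n : ℕ, 2 ≤ n → P n → ∀ q r j a u : ℕ, q.Prime → 2 < q → q ∣ n - 1 → r.Prime →
    (r : ZMod q) ^ j = -1 → Odd a → ¬ r ∣ u → n = r ^ a * u → False

theorem adm_of_exO {P : ℕ → Prop} (hX : ExO P) {n : ℕ} (hn : 2 ≤ n) (h : P n) : Adm n := by
  intro r q j hr hrn hrn2 hq hq2 hqn hj
  obtain ⟨u, hu⟩ := hrn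
  refine hX n hn h q r j 1 u hq hq2 hqn hr hj odd_one ?_ (by rw [pow_one]; exact hu)
  rintro ⟨c, rfl⟩
  exact hrn2 ⟨c, by rw [hu]; ring⟩

theorem count_exO {P : ℕ → Prop} (hX : ExO P) (ε : ℝ) (hε : 0 < ε) :
    ∃ C : ℝ, 0 < C ∧ ∀ X : ℕ, 3 ≤ X →
      ({n : ℕ | n ≤ X ∧ 2 ≤ n ∧ P n}.ncard : ℝ) ≤ C * X * (Real.log X) ^ (ε - 1) :=
  count_adm (fun n => 2 ≤ n ∧ P n) (fun n h => ⟨h.1, adm_of_exO hX h.1 h.2⟩) ε hε

theorem passO {P : ℕ → Prop} (hX : ExO P) {i n : ℕ} (hi : Odd i) (hn : 2 ≤ n) (h : P (n ^ i)) :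
    Pass (datI i) n := by
  refine ⟨?_, fun h => by
    change (0 : ℝ) = 1 at h
    norm_num at h⟩
  intro r q j hE hq hqc hT hj
  have hT' : (n : ZMod q) ^ i = 1 := hT
  have hn2 : 2 ≤ n ^ i := hn.trans (Nat.le_self_pow hi.pos.ne' n)
  have h1 : q ∣ n ^ i - 1 := by
    rw [← ZMod.natCast_eq_zero_iff, Nat.cast_sub (by omega), Nat.cast_pow, hT']
    simp
  have h2 : q ≠ 2 := by
    rintro rfl
    apply hqc
    change 2 ∣ 6 * i
    exact ⟨3 * i, by ring⟩
  have h3 := hq.two_le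
  have hnp := pow_split (i := i) hE.1 (ex_split hE)
  exact hX _ hn2 h q r j i ((n / r) ^ i) hq (by omega) h1 hE.1 hj hi hnp.2 hnp.1

theorem sharp_exO {P : ℕ → Prop} (hX : ExO P) {i : ℕ} (hi : Odd i) (hi3 : 3 ≤ i) :
    Tendsto (fun X : ℕ => ({n : ℕ | n ≤ X ∧ ¬ IsPrimePow n ∧ 2 ≤ n ∧ P (n ^ i)}.ncard : ℝ) *
      Real.log X / X) atTop (𝓝 0) := by
  have h1 : 1 < (datI i).τ + (datI i).β / 2 := by
    have e1 : (datI i).τ = ((EI i).card : ℝ) := rfl
    have e2 : (datI i).β = 0 := rfl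
    have h2 : ({2, i} : Finset ℕ) ⊆ EI i := by
      intro x hx
      rw [mem_insert, mem_singleton] at hx
      unfold EI
      rw [mem_insert, mem_div hi.pos]
      rcases hx with rfl | rfl
      · exact Or.inl rfl
      · exact Or.inr ⟨by omega, dvd_rfl⟩
    have h3 := card_le_card h2
    have hne : (2 : ℕ) ≠ i := by
      rintro rfl
      exact absurd hi (by decide)
    rw [card_pair hne] at h3
    have h4 : (2 : ℝ) ≤ ((EI i).card : ℝ) := by exact_mod_cast h3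
    rw [e1, e2]
    linarith
  refine squeeze (fun X => ?_) (fun X => ?_) (mainSG (datI i) (axI hi hi3) h1)
  · rintro n ⟨hnX, hnp, hn2, hn⟩
    exact ⟨by omega, hnX, passO hX hi hn2 hn, fun hp => hnp hp.isPrimePow⟩
  · exact finX _ X

open Classical in
theorem tup_exO {P : ℕ → Prop} (hE : ExO P) (k a e : ℕ) (ha : 1 ≤ a) (he : Odd e)
    (ε : ℝ) (hε : 0 < ε) :
    ∃ X₀ : ℕ, ∀ X : ℕ, X₀ ≤ X →
      (((LL (k + 1 + 1) X).filter (fun l => P ((a * ∏ i, l i) ^ e))).card : ℝ) ≤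
        ε * Pool.Agent.TH66.SG.NN (k + 1 + 1) X := by
  refine tup_main 3 k 1 4 a le_rfl odd_one ha (fun w t => t = 1) (fun w t => t = 1) ?_
    (fun N => P ((a * N) ^ e)) ?_ ε hε
  · intro w hw hw2 hLw _ g _
    exact ⟨1, 1, one_pow _, one_pow _, rfl, rfl⟩
  · intro w b _ _ hw _ hK _ hb _ hwb _ hqa p hp hc _ hP _ hS
    have hwf : Fact w.Prime := ⟨hw⟩
    have hw2 : w ≠ 2 := by omega
    have h11 := neg_ne_one hw hw2
    have hN2 : 2 ≤ ∏ i, p i := two_le_prod p hp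
    have hfact : ∏ i, p i = p 0 * ∏ i : Fin (k + 1), p i.succ := Fin.prod_univ_succ _
    have hc0 : (p 0 : ZMod w) ^ (4 * b) = -1 := by
      have := hc 0
      simpa [exx] using this
    have hc1 : (p 1 : ZMod w) ^ (4 * b) = -1 := by
      have := hc 1
      simpa [exx] using this
    have hc2 : ∀ i : Fin k, (p i.succ.succ : ZMod w) ^ b = -1 := by
      intro i
      have := hc i.succ.succ
      simpa [exx] using this
    have hne2 : ∀ i : Fin k, p 0 ≠ p i.succ.succ := by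
      intro i h
      apply h11
      rw [← hc0, h, mul_comm, pow_mul, hc2 i]
      norm_num
    have hab : (a : ZMod w) ^ b = 1 := pow_of_primes (by omega) hqa
    have hne1 : p 0 ≠ p 1 := by
      intro h
      have h1 : ((a * ∏ i, p i : ℕ) : ZMod w) ^ (2 * b) = -1 := by
        rw [Fin.prod_univ_succ, Fin.prod_univ_succ]
        push_cast
        have e1 : (p (Fin.succ 0) : ZMod w) = p 0 := by
          rw [h]
          rfl
        have e2 : (∏ i : Fin k, (p i.succ.succ : ZMod w)) ^ (2 * b) = 1 := by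
          rw [← Finset.prod_pow]
          refine Finset.prod_eq_one fun i _ => ?_
          rw [mul_comm, pow_mul, hc2 i]
          norm_num
        have e3 : (a : ZMod w) ^ (2 * b) = 1 := by
          rw [mul_comm, pow_mul, hab, one_pow]
        rw [e1, mul_pow, mul_pow, mul_pow, e2, e3, mul_one, one_mul, ← pow_add, ← hc0]
        congr 1
        ring
      rw [hP, one_pow] at h1
      exact h11 h1.symm
    have hpa : ¬ p 0 ∣ a := by
      intro h
      apply h11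
      rw [← hc0, mul_comm, pow_mul, hqa (p 0) (hp 0) h, one_pow]
    have hN2' : 2 ≤ a * ∏ i, p i := by nlinarith
    have hn2 : 2 ≤ (a * ∏ i, p i) ^ e := calc 2 ≤ a * ∏ i, p i := hN2'
          _ = (a * ∏ i, p i) ^ 1 := (pow_one _).symm
          _ ≤ (a * ∏ i, p i) ^ e := Nat.pow_le_pow_right (by omega) he.pos
    refine hE _ hn2 hS w (p 0) (4 * b) e ((a * ∏ i : Fin (k + 1), p i.succ) ^ e) hw
      (by have := hw.two_le; omega) ?_ (hp 0) hc0 he ?_ ?_
    · rw [← ZMod.natCast_eq_zero_iff, Nat.cast_sub (by omega), Nat.cast_pow, hP, one_pow]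
      simp
    · intro hdvd
      have h3 := ((hp 0).dvd_mul.1 ((hp 0).dvd_of_dvd_pow hdvd)).resolve_left hpa
      obtain ⟨i, -, hi⟩ := (Prime.dvd_finsetProd_iff (hp 0).prime _).1 h3
      have h4 := (Nat.prime_dvd_prime_iff_eq (hp 0) (hp i.succ)).1 hi
      revert h4
      refine Fin.cases ?_ (fun i => ?_) i
      · exact fun h => hne1 h
      · exact fun h => hne2 i h
    · rw [hfact, ← mul_pow]
      congr 1
      ring

theorem density_exO {P : ℕ → Prop} (hX : ExO P) (m a e : ℕ) (hm : 2 ≤ m) (ha : 1 ≤ a)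
    (he : Odd e) :
    Tendsto (fun X : ℕ =>
      ({N : ℕ | N ≤ X ∧ N.primeFactorsList.length = m ∧ P ((a * N) ^ e)}.ncard : ℝ) /
        ({N : ℕ | N ≤ X ∧ N.primeFactorsList.length = m}.ncard : ℝ)) atTop (𝓝 0) := by
  classical
  obtain ⟨k, rfl⟩ : ∃ k, m = k + 1 + 1 := ⟨m - 2, by omega⟩
  refine density_of_tuples (by omega) (fun N => P ((a * N) ^ e)) fun ε hε => ?_
  obtain ⟨X₀, hX₀⟩ := tup_exO hX k a e ha he ε hε
  refine ⟨X₀, fun X hX => le_trans (le_of_eq ?_) (hX₀ X hX)⟩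
  norm_cast

/-! ### the difference sets -/

/-- a difference set with the Singer parameters -/
def IsSinger {Q : Type} [Group Q] [Fintype Q] [DecidableEq Q] (E : Finset Q) (n m : ℕ) : Prop :=
  Fintype.card Q * (n - 1) = n ^ m - 1 ∧ E.card * (n - 1) = n ^ (m - 1) - 1 ∧
    ∀ g : Q, g ≠ 1 →
      ((E ×ˢ E).filter (fun p : Q × Q => p.1 * p.2⁻¹ = g)).card * (n - 1) = n ^ (m - 2) - 1

/-- the difference set `E` lifts to `G` -/
def LiftsTo {Q : Type} [Group Q] [Fintype Q] [DecidableEq Q] (E : Finset Q) (n m : ℕ)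
    (G : Type) [Group G] [Fintype G] [DecidableEq G] : Prop :=
  ∃ (π : G →* Q) (D : Finset G), Function.Surjective π ∧ Nat.card π.ker = n - 1 ∧
    D.image π = Eᶜ ∧ Set.InjOn π D ∧
    ∀ g : G, π g ≠ 1 → ((D ×ˢ D).filter (fun p : G × G => p.1 * p.2⁻¹ = g)).card = n ^ (m - 2)

theorem lift_data {Q : Type} [Group Q] [Fintype Q] [DecidableEq Q] {E : Finset Q} {n m : ℕ}
    {G : Type} [Group G] [Fintype G] [DecidableEq G] (hn : 2 ≤ n) (hm : 2 ≤ m)
    (hE : IsSinger E n m) (h : LiftsTo E n m G) :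
    ∃ (N : Subgroup G) (D : Finset G), N.Normal ∧ Fintype.card G = n ^ m - 1 ∧
      Nat.card N = n - 1 ∧ D.card = n ^ (m - 1) ∧ (∀ g ∈ N, g ≠ 1 → rep D g = 0) ∧
      ∀ g, g ∉ N → rep D g = n ^ (m - 2) := by
  obtain ⟨π, D, hπ, hker, him, hinj, hrep⟩ := h
  refine ⟨π.ker, D, inferInstance, ?_, hker, ?_, ?_, ?_⟩
  · have h1 := π.ker.card_mul_index
    rw [Subgroup.index_ker, MonoidHom.range_eq_top.2 hπ, Subgroup.card_top, hker,
      Nat.card_eq_fintype_card, Nat.card_eq_fintype_card] at h1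
    rw [← h1, mul_comm, hE.1]
  · have h1 : D.card = Fintype.card Q - E.card := by
      rw [← card_compl, ← him, card_image_of_injOn hinj]
    have h2 : D.card * (n - 1) = n ^ (m - 1) * (n - 1) := by
      rw [h1, Nat.sub_mul, hE.1, hE.2.1, Nat.mul_sub, mul_one, ← pow_succ]
      have e : m - 1 + 1 = m := by omega
      rw [e]
      have h3 : 1 ≤ n ^ (m - 1) := Nat.one_le_pow _ _ (by omega)
      omega
    exact Nat.eq_of_mul_eq_mul_right (by omega) h2
  · intro g hg hg1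
    unfold rep
    rw [card_eq_zero, filter_eq_empty_iff]
    rintro ⟨x, y⟩ hxy he
    rw [mem_product] at hxy
    apply hg1
    have h1 : π x = π y := by
      have h2 : π (x * y⁻¹) = 1 := by
        simp only at he
        rw [he]
        exact hg
      rw [map_mul, map_inv, mul_inv_eq_one] at h2
      exact h2
    have h2 : x = y := hinj hxy.1 hxy.2 h1
    simp only at he
    rw [← he, h2, mul_inv_cancel]
  · intro g hg
    exact hrep g hg

/-- a difference set with the Singer parameters, which lifts to a group with a normal Sylow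
2-subgroup -/
def Liftable (n m : ℕ) : Prop :=
  ∃ (Q : Type) (_ : Group Q) (_ : Fintype Q) (_ : DecidableEq Q) (E : Finset Q)
    (G : Type) (_ : Group G) (_ : Fintype G) (_ : DecidableEq G),
    (∃ K : Subgroup G, K.Normal ∧ (∃ s, Nat.card K = 2 ^ s) ∧ Odd K.index) ∧
    IsSinger E n m ∧ LiftsTo E n m G

theorem exO_lift : ExO (fun n => ∃ m, Even m ∧ 4 ≤ m ∧ Liftable n m) := by
  rintro n hn ⟨m, hm, hm4, Q, _, _, _, E, G, _, _, _, ⟨K, hK, hK2, hKo⟩, hE, hL⟩ q r j a u hq hq2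
    hqn hr hj ha hu hnu
  obtain ⟨N, D, hN, hG, hNc, hD, h0, h1⟩ := lift_data hn (by omega) hE hL
  have hodd : Odd (m - 1) := by
    obtain ⟨c, hc⟩ := hm
    exact ⟨c - 1, by omega⟩
  refine rds_closed N K hK2 hKo D (n ^ (m - 2)) h0 h1 hq hq2 (by rw [hNc]; exact hqn) hr hj
    (ha.mul hodd) (u := u ^ (m - 1)) ?_ ?_
  · intro h4
    exact hu (hr.dvd_of_dvd_pow h4)
  · rw [hD, hnu, mul_pow, ← pow_mul]

/-- a difference set with the Singer parameters, which lifts to a nilpotent group -/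
def LiftableN (n m : ℕ) : Prop :=
  ∃ (Q : Type) (_ : Group Q) (_ : Fintype Q) (_ : DecidableEq Q) (E : Finset Q)
    (G : Type) (_ : Group G) (_ : Fintype G) (_ : DecidableEq G), Group.IsNilpotent G ∧
    IsSinger E n m ∧ LiftsTo E n m G

theorem hasRds_of_lift {n m : ℕ} (hn : 2 ≤ n) (hm : 2 ≤ m) (h : LiftableN n m) : HasRds n m := by
  obtain ⟨Q, _, _, _, E, G, _, _, _, hG, hE, hL⟩ := h
  obtain ⟨N, D, hN, hG', hNc, hD, h0, h1⟩ := lift_data hn hm hE hL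
  exact ⟨G, inferInstance, inferInstance, inferInstance, N, D, hG, hG', hNc, hD, h0, h1⟩

open Classical in
theorem tup_even_rds (K k a E : ℕ) (ha : 1 ≤ a) (hE0 : 1 ≤ E) (ε : ℝ) (hε : 0 < ε) :
    ∃ X₀ : ℕ, ∀ X : ℕ, X₀ ≤ X →
      (((LL (k + 1 + 1) X).filter (fun l => ∃ m, Even m ∧ 4 ≤ m ∧ m ≤ K ∧
        LiftableN ((a * ∏ i, l i) ^ (E + E)) m)).card : ℝ) ≤
        ε * Pool.Agent.TH66.SG.NN (k + 1 + 1) X := by
  obtain ⟨r, E₁, hE₁o', hE₁⟩ := Nat.exists_eq_pow_mul_and_not_dvd (by omega : E ≠ 0) 2 (by norm_num)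
  have hE₁o : Odd E₁ := by rwa [← Nat.not_even_iff_odd, even_iff_two_dvd]
  obtain ⟨s, hs⟩ : ∃ s, s = r + 3 := ⟨_, rfl⟩
  refine tup_main s k 1 (4 * (a ^ (E * K)) ^ 4 + K) a (by omega) odd_one ha
      (fun w t => t ^ E = -1) (fun w t => t = 1) ?_ (fun N => ∃ m, Even m ∧ 4 ≤ m ∧ m ≤ K ∧
        LiftableN ((a * N) ^ (E + E)) m) ?_ ε hε
  · intro w hw hw2 hLw _ g hg
    have ht : (g ^ 2 ^ (s - 1 - r)) ^ 2 ^ r = -1 := by
      rw [← pow_mul, ← hg, ← pow_add]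
      congr 2
      omega
    refine ⟨g ^ 2 ^ (s - 1 - r), 1, ?_, one_pow _, ?_, rfl⟩
    · have e1 : 2 ^ (s - 1) * 1 = 2 ^ r * (2 * 2 ^ (s - 1 - r - 1)) := by
        rw [mul_one, ← pow_succ', ← pow_add]
        congr 1
        omega
      rw [e1, pow_mul, ht, pow_mul]
      norm_num
    · rw [hE₁, pow_mul, ht, hE₁o.neg_one_pow]
  · intro w₁ b₁ w₂ b₂ hw₁ hw₂ hK₁ hK₂ hb₁ hb₂ hwb₁ hwb₂ _ p hp hc₁ hc₂ hP₁ hP₂ hS
    obtain ⟨m, hm, hm4, hmK, hS⟩ := hS
    have hap : 0 < (a ^ (E * K)) ^ 4 := by positivity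
    have ho₁ : w₁ ≠ 2 := by omega
    have ho₂ : w₂ ≠ 2 := by omega
    have hne : w₁ ≠ w₂ := by
      rintro rfl
      rw [hP₂, one_pow] at hP₁
      exact neg_ne_one hw₁ ho₁ hP₁.symm
    have hN2 : 2 ≤ ∏ i, p i := two_le_prod p hp
    obtain ⟨N, hN⟩ : ∃ N, N = ∏ i, p i := ⟨_, rfl⟩
    rw [← hN] at hP₁ hP₂ hN2 hS
    have h2 : 2 ≤ a * N := by nlinarith
    have h2' : 2 ≤ (a * N) ^ (E + E) := calc 2 ≤ a * N := h2
        _ = (a * N) ^ 1 := (pow_one _).symm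
        _ ≤ (a * N) ^ (E + E) := Nat.pow_le_pow_right (by omega) (by omega)
    have hwm : ∀ w : ℕ, 4 * (a ^ (E * K)) ^ 4 + K < w → ¬ w ∣ m := by
      intro w hw hd
      have := Nat.le_of_dvd (by omega) hd
      omega
    have hdv : ∀ w : ℕ, ((((a * N) ^ (E + E) : ℕ)) : ZMod w) = 1 → w ∣ (a * N) ^ (E + E) - 1 := by
      intro w hw
      rw [← ZMod.natCast_eq_zero_iff, Nat.cast_sub (by omega), hw]
      simp
    have hodd : Odd (m - 1) := by
      obtain ⟨c, hc⟩ := hm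
      exact ⟨c - 1, by omega⟩
    refine rds_even (n := (a * N) ^ (E + E)) (m := m) (by omega) (by omega)
      (hasRds_of_lift (by omega) (by omega) hS)
      (w₁ := w₁) (w₂ := w₂) (z := (a * N) ^ (E * (m - 1))) (u := N ^ (E * (m - 1)))
      (v := a ^ (E * (m - 1))) hw₁ hw₂ ho₁ ho₂ hne (hwm w₁ hK₁) (hwm w₂ hK₂) ?_ ?_
      (by positivity) (by positivity) ?_ ?_ ?_ (hdv w₁ ?_) (hdv w₂ ?_) ?_
    · rw [← pow_mul, ← pow_mul]
      congr 1
      ring
    · rw [mul_comm (N ^ _), ← mul_pow]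
    · have h3 : a ^ (E * (m - 1)) ≤ a ^ (E * K) :=
        Nat.pow_le_pow_right ha (Nat.mul_le_mul_left _ (by omega))
      have h4 : (a ^ (E * (m - 1))) ^ 4 ≤ (a ^ (E * K)) ^ 4 := Nat.pow_le_pow_left h3 4
      calc 4 * (a ^ (E * (m - 1))) ^ 4 ≤ 4 * (a ^ (E * K)) ^ 4 := Nat.mul_le_mul_left _ h4
        _ < w₁ := by omega
        _ ≤ w₁ * w₂ := Nat.le_mul_of_pos_right _ hw₂.pos
    · rw [Nat.cast_pow, pow_mul, hP₁, hodd.neg_one_pow]
    · rw [Nat.cast_pow, hP₂, one_pow]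
    · rw [Nat.cast_pow, pow_add, hP₁]
      norm_num
    · rw [Nat.cast_pow, hP₂, one_pow]
    · intro p' hp' hdvd
      have h3 : p' ∣ ∏ i, p i := hN ▸ hp'.dvd_of_dvd_pow hdvd
      obtain ⟨i, -, hi⟩ := (Prime.dvd_finsetProd_iff hp'.prime _).1 h3
      rw [(Nat.prime_dvd_prime_iff_eq hp' (hp i)).1 hi]
      refine ⟨2 ^ exx s i * b₁ * b₂,
        Nat.Coprime.mul_dvd_of_dvd_of_dvd ((Nat.coprime_primes hw₁ hw₂).2 hne) ?_ ?_⟩
      · rw [← ZMod.natCast_eq_zero_iff]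
        push_cast
        rw [pow_mul, hc₁ i, hb₂.neg_one_pow, neg_add_cancel]
      · rw [← ZMod.natCast_eq_zero_iff]
        push_cast
        rw [mul_right_comm, pow_mul, hc₂ i, hb₁.neg_one_pow, neg_add_cancel]

theorem density_even_rds (K m a E : ℕ) (hm : 2 ≤ m) (ha : 1 ≤ a) (hE : 1 ≤ E) :
    Tendsto (fun X : ℕ =>
      ({N : ℕ | N ≤ X ∧ N.primeFactorsList.length = m ∧ ∃ m', Even m' ∧ 4 ≤ m' ∧ m' ≤ K ∧
          LiftableN ((a * N) ^ (2 * E)) m'}.ncard : ℝ) /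
        ({N : ℕ | N ≤ X ∧ N.primeFactorsList.length = m}.ncard : ℝ)) atTop (𝓝 0) := by
  classical
  obtain ⟨k, rfl⟩ : ∃ k, m = k + 1 + 1 := ⟨m - 2, by omega⟩
  refine density_of_tuples (by omega) (fun N => ∃ m', Even m' ∧ 4 ≤ m' ∧ m' ≤ K ∧
          LiftableN ((a * N) ^ (2 * E)) m') fun ε hε => ?_
  obtain ⟨X₀, hX₀⟩ := tup_even_rds K k a E ha hE ε hε
  refine ⟨X₀, fun X hX => le_trans (le_of_eq ?_) (hX₀ X hX)⟩
  rw [two_mul]

end Pool.Agent.R116.AF
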