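import Pool.Agent.R116.AF.Cnt

set_option autoImplicit false
set_option linter.unusedSectionVars false
set_option linter.unusedVariables false

/-!
# Affine planes with a nilpotent group which is regular outside a point
-/

namespace Pool.Agent.R116.AF

open Finset
open scoped Pointwise

section
variable {V : Type} [Fintype V] [DecidableEq V] {k : ℕ} {B : Finset (Finset V)}

/-- a line not through a given point -/
theorem Aff.exists_off (h : Aff k B) (O : V) : ∃ L ∈ B, O ∉ L ∧ ∃ x, x ∈ L := by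
  have h2 := h.two
  have h4 : 4 ≤ Fintype.card V := by
    rw [h.card]
    nlinarith
  obtain ⟨x, hx⟩ : ∃ x : V, x ≠ O := by
    have : Nontrivial V := Fintype.one_lt_card_iff_nontrivial.1 (by omega)
    exact exists_ne O
  obtain ⟨b, hb, hxb, hOb⟩ := h.line x O hx
  obtain ⟨z, hz⟩ : ∃ z : V, z ∉ b := by
    by_contra hcon
    push Not at hcon
    have h3 : b = univ := eq_univ_iff_forall.2 hcon
    have h5 := h.size b hb
    rw [h3, card_univ, h.card] at h5
    nlinarith
  have hxz : x ≠ z := fun e => hz (e ▸ hxb)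
  obtain ⟨L, hL, hxL, hzL⟩ := h.line x z hxz
  refine ⟨L, hL, fun hO => ?_, x, hxL⟩
  exact hz (h.uniq x O hx b hb L hL hxb hOb hxL hO ▸ hzL)

variable {G : Type} [Group G] [Fintype G] [DecidableEq G] [MulAction G V]

theorem card_G (h : Aff k B) (O : V) (hO : ∀ g : G, g • O = O)
    (htr : ∀ x y : V, x ≠ O → y ≠ O → ∃ g : G, g • x = y)
    (hfr : ∀ (g : G) (x : V), x ≠ O → g • x = x → g = 1) {x1 : V} (hx1 : x1 ≠ O) :
    Nat.card G + 1 = k ^ 2 := by
  have h1 : Fintype.card G = (univ.erase O).card := by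
    rw [← card_univ]
    refine card_bij (fun g _ => g • x1) ?_ ?_ ?_
    · intro g _
      rw [mem_erase]
      refine ⟨fun e => hx1 ?_, mem_univ _⟩
      rw [← hO g] at e
      exact smul_left_cancel g e
    · intro a _ b _ e
      have h2 : (b⁻¹ * a) • x1 = x1 := by
        rw [mul_smul, e, inv_smul_smul]
      have h3 := hfr _ x1 hx1 h2
      rw [inv_mul_eq_one] at h3
      exact h3.symm
    · intro y hy
      rw [mem_erase] at hy
      obtain ⟨g, hg⟩ := htr x1 y hx1 hy.1
      exact ⟨g, mem_univ _, hg⟩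
  rw [card_erase_of_mem (mem_univ O), card_univ, h.card] at h1
  rw [Nat.card_eq_fintype_card, h1]
  have := h.two
  have : 1 ≤ k ^ 2 := Nat.one_le_pow _ _ (by omega)
  omega

theorem typeD [Group.IsNilpotent G] (h : Aff k B) (hinv : ∀ (g : G), ∀ b ∈ B, g • b ∈ B)
    (O : V) (hO : ∀ g : G, g • O = O)
    (htr : ∀ x y : V, x ≠ O → y ≠ O → ∃ g : G, g • x = y)
    (hfr : ∀ (g : G) (x : V), x ≠ O → g • x = x → g = 1)
    {q : ℕ} (hq : q.Prime) (hq2 : 2 < q) (hqk : q ∣ k - 1) {r : ℕ} (hr : r.Prime) {j : ℕ}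
    (hj : (r : ZMod q) ^ j = -1) {a : ℕ} (ha : Odd a) {u : ℤ} (hu : ¬ (r : ℤ) ∣ u)
    (hk : (k : ℤ) = (r : ℤ) ^ a * u) : False := by
  classical
  have hqf : Fact q.Prime := ⟨hq⟩
  have : NeZero q := ⟨hq.ne_zero⟩
  have hk2 := h.two
  obtain ⟨L, hL, hOL, x1, hx1L⟩ := h.exists_off O
  have hne : ∀ y ∈ L, y ≠ O := fun y hy e => hOL (e ▸ hy)
  have hx1 := hne x1 hx1L
  have hG := card_G h O hO htr hfr hx1
  have hfree : ∀ g : G, g • x1 = x1 → g = 1 := fun g => hfr g x1 hx1
  -- the count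
  have hsum : (∑ y ∈ L, (univ.filter (fun g : G => g • y ∈ L)).card) = k * k := by
    have e1 : ∀ y ∈ L, (univ.filter (fun g : G => g • y ∈ L)).card = k := by
      intro y hy
      rw [← h.size L hL]
      refine card_bij (fun g _ => g • y) ?_ ?_ ?_
      · intro g hg
        exact (mem_filter.1 hg).2
      · intro a _ b _ e
        have h2 : (b⁻¹ * a) • y = y := by
          rw [mul_smul, e, inv_smul_smul]
        have h3 := hfr _ y (hne y hy) h2
        rw [inv_mul_eq_one] at h3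
        exact h3.symm
      · intro z hz
        obtain ⟨g, hg⟩ := htr y z (hne y hy) (hne z hz)
        exact ⟨g, mem_filter.2 ⟨mem_univ _, by rw [hg]; exact hz⟩, hg⟩
    rw [sum_congr rfl e1, sum_const, smul_eq_mul, h.size L hL]
  have hcount := count_NN h hinv hL
  rw [hsum] at hcount
  obtain ⟨hS, hN⟩ := stab_trivial h hinv hL (by
    have : k ^ 2 = k * k := pow_two k
    omega)
  -- the quotient
  have hGk : Nat.card G = (k - 1) * (k + 1) := by
    have h1 := h.sq_sub
    rw [mul_comm]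
    omega
  obtain ⟨φ, hφ⟩ := Pool.Agent.TH66.SG.nilp_quot G q (by
    rw [hGk]
    exact Dvd.dvd.mul_right hqk _)
  have hidx : (NN h hinv L hL).index = k + 1 := by
    have h1 := (NN h hinv L hL).card_mul_index
    rw [hGk, hN] at h1
    exact Nat.eq_of_mul_eq_mul_left (by omega) h1
  have hqi : ¬ q ∣ (NN h hinv L hL).index := by
    rw [hidx]
    intro h1
    have h2 : q ∣ (k + 1) - (k - 1) := Nat.dvd_sub h1 hqk
    have h3 : (k + 1) - (k - 1) = 2 := by omega
    rw [h3] at h2
    have := Nat.le_of_dvd (by norm_num) h2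
    omega
  have hNN : ∀ c : Multiplicative (ZMod q), ∃ n : G, par (n • L) L ∧ φ n = c := by
    intro c
    obtain ⟨m, hm, hm'⟩ := onto_of_index hq φ hφ _ hqi c
    exact ⟨m, (mem_NN h hinv hL).1 hm, hm'⟩
  obtain ⟨lam, hlam⟩ := cor_eq h hinv hL hfree hS φ hφ hNN (by
    intro y hy hy'
    exfalso
    obtain ⟨g, hg⟩ := htr x1 y hx1 (hne y hy)
    exact hy' (mem_orb.2 ⟨g, hg⟩))
  exact no_cor hq2 _ k lam hlam hr hj ha hu hk

end

end Pool.Agent.R116.AF
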