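import Pool.Agent.R116.AF.Mann2
import Pool.Agent.R116.AF.TypeD
import Pool.Agent.R116.AF.TypeG

set_option autoImplicit false
set_option linter.unusedSectionVars false
set_option linter.unusedVariables false

/-!
# Affine planes of square order with a nilpotent group
-/

namespace Pool.Agent.R116.AF

open Finset
open scoped Pointwise
open Pool.Agent.TH66.SG (num cor cor_num fib prod_surj sum_num)

section
variable {G : Type} [Group G] [Fintype G] [DecidableEq G]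

theorem onto_prod {w₁ w₂ : ℕ} (hw₁ : w₁.Prime) (hw₂ : w₂.Prime) (hne : w₁ ≠ w₂)
    (φ₁ : G →* Multiplicative (ZMod w₁)) (φ₂ : G →* Multiplicative (ZMod w₂)) (S : Subgroup G)
    (h1 : ∀ c, ∃ m ∈ S, φ₁ m = c) (h2 : ∀ c, ∃ m ∈ S, φ₂ m = c)
    (c : Multiplicative (ZMod w₁) × Multiplicative (ZMod w₂)) :
    ∃ m ∈ S, (φ₁.prod φ₂) m = c := by
  have : Fact w₁.Prime := ⟨hw₁⟩
  have : Fact w₂.Prime := ⟨hw₂⟩
  have h := prod_surj S w₁ w₂ hne (φ₁.comp S.subtype) (φ₂.comp S.subtype)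
    (fun c => by
      obtain ⟨m, hm, hm'⟩ := h1 c
      exact ⟨⟨m, hm⟩, hm'⟩)
    (fun c => by
      obtain ⟨m, hm, hm'⟩ := h2 c
      exact ⟨⟨m, hm⟩, hm'⟩)
  obtain ⟨m, hm⟩ := h c
  exact ⟨m, m.2, hm⟩

theorem two_ne {w : ℕ} (hw : w.Prime) (h2 : w ≠ 2) : (2 : ZMod w) ≠ 0 := by
  intro h0
  have : ((2 : ℕ) : ZMod w) = 0 := by exact_mod_cast h0
  rw [ZMod.natCast_eq_zero_iff] at this
  exact h2 ((Nat.prime_dvd_prime_iff_eq hw Nat.prime_two).1 this)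

/-- the final contradiction -/
theorem even_final {w₁ w₂ z u v k : ℕ} [NeZero w₁] [NeZero w₂]
    (d : Multiplicative (ZMod w₁) × Multiplicative (ZMod w₂) → ℤ) (K M : ℤ) (hdk : ∑ h, d h = K)
    (hcor : ∀ h, cor d h = (if h = 1 then (k : ℤ) else 0) + M)
    (hz : z ^ 2 = k) (hzu : z = u * v) (hu : 0 < u) (hv : 0 < v) (hvw : 4 * v ^ 4 < w₁ * w₂)
    (hs : ∀ p : ℕ, p.Prime → p ∣ u → ∃ j, w₁ * w₂ ∣ p ^ j + 1)
    (h1 : (((K + z : ℤ) : ZMod w₁) ≠ 0 ∨ ((K + z : ℤ) : ZMod w₂) ≠ 0))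
    (h2 : (((K - z : ℤ) : ZMod w₁) ≠ 0 ∨ ((K - z : ℤ) : ZMod w₂) ≠ 0)) : False := by
  have hcard : Fintype.card (Multiplicative (ZMod w₁) × Multiplicative (ZMod w₂)) = w₁ * w₂ := by
    rw [Fintype.card_prod]
    simp [ZMod.card]
  have hkz : ((u : ℤ) * v) ^ 2 = k := by
    rw [← hz, hzu]
    push_cast
    ring
  have hM := mann2 d K M u v (w₁ * w₂) hdk (fun h => by rw [hkz]; exact hcor h) hcard hv hvw hu hs
  have huz : (u : ℤ) * v = z := by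
    rw [hzu]
    push_cast
    ring
  rw [huz] at hM
  have c1 : ∀ x : ℤ, ((w₁ * w₂ : ℕ) : ℤ) ∣ x → ((x : ℤ) : ZMod w₁) = 0 ∧ ((x : ℤ) : ZMod w₂) = 0 := by
    intro x hx
    constructor
    · rw [ZMod.intCast_zmod_eq_zero_iff_dvd]
      exact (Dvd.intro _ (by push_cast; rfl)).trans hx
    · rw [ZMod.intCast_zmod_eq_zero_iff_dvd]
      exact (Dvd.intro_left (w₁ : ℤ) (by push_cast; rfl)).trans hx
  rcases hM with hM | hM
  · obtain ⟨e1, e2⟩ := c1 _ hM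
    rcases h1 with h | h
    · exact h e1
    · exact h e2
  · obtain ⟨e1, e2⟩ := c1 _ hM
    rcases h2 with h | h
    · exact h e1
    · exact h e2

variable {V : Type} [Fintype V] [DecidableEq V] {k : ℕ} {B : Finset (Finset V)} [MulAction G V]

theorem setupD (h : Aff k B) (hinv : ∀ (g : G), ∀ b ∈ B, g • b ∈ B)
    (O : V) (hO : ∀ g : G, g • O = O)
    (htr : ∀ x y : V, x ≠ O → y ≠ O → ∃ g : G, g • x = y)
    (hfr : ∀ (g : G) (x : V), x ≠ O → g • x = x → g = 1) :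
    ∃ (L : Finset V) (hL : L ∈ B) (x1 : V), (∀ g : G, g • x1 = x1 → g = 1) ∧
      (∀ g : G, g • L = L → g = 1) ∧ Nat.card (NN h hinv L hL) = k - 1 ∧
      (∀ y ∈ L, y ∈ orb G x1) ∧ (Dset G x1 L).card = k ∧ Nat.card G = (k - 1) * (k + 1) := by
  classical
  have hk2 := h.two
  obtain ⟨L, hL, hOL, x1, hx1L⟩ := h.exists_off O
  have hne : ∀ y ∈ L, y ≠ O := fun y hy e => hOL (e ▸ hy)
  have hx1 := hne x1 hx1L
  have hG := card_G h O hO htr hfr hx1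
  have hfree : ∀ g : G, g • x1 = x1 → g = 1 := fun g => hfr g x1 hx1
  have e1 : ∀ y ∈ L, (univ.filter (fun g : G => g • y ∈ L)).card = k := by
    intro y hy
    rw [← h.size L hL]
    refine card_bij (fun g _ => g • y) ?_ ?_ ?_
    · intro g hg
      exact (mem_filter.1 hg).2
    · intro a _ b _ e
      have h2 : (b⁻¹ * a) • y = y := by
        rw [mul_smul, e, inv_smul_smul]
      have h3 := hfr _ y (hne y hy) h2
      rw [inv_mul_eq_one] at h3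
      exact h3.symm
    · intro z hz
      obtain ⟨g, hg⟩ := htr y z (hne y hy) (hne z hz)
      exact ⟨g, mem_filter.2 ⟨mem_univ _, by rw [hg]; exact hz⟩, hg⟩
  have hsum : (∑ y ∈ L, (univ.filter (fun g : G => g • y ∈ L)).card) = k * k := by
    rw [sum_congr rfl e1, sum_const, smul_eq_mul, h.size L hL]
  have hcount := count_NN h hinv hL
  rw [hsum] at hcount
  obtain ⟨hS, hN⟩ := stab_trivial h hinv hL (by
    have : k ^ 2 = k * k := pow_two k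
    omega)
  refine ⟨L, hL, x1, hfree, hS, hN, ?_, e1 x1 hx1L, ?_⟩
  · intro y hy
    obtain ⟨g, hg⟩ := htr x1 y hx1 (hne y hy)
    exact mem_orb.2 ⟨g, hg⟩
  · have h1 := h.sq_sub
    rw [mul_comm]
    omega

theorem dvd_pred {w k z : ℕ} (hk : 1 ≤ k) (hz : z ^ 2 = k) (h : (z : ZMod w) ^ 2 = 1) :
    w ∣ k - 1 := by
  rw [← ZMod.natCast_eq_zero_iff, Nat.cast_sub hk, ← hz]
  push_cast
  rw [h, sub_self]

theorem typeD_even [Group.IsNilpotent G] (h : Aff k B) (hinv : ∀ (g : G), ∀ b ∈ B, g • b ∈ B)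
    (O : V) (hO : ∀ g : G, g • O = O)
    (htr : ∀ x y : V, x ≠ O → y ≠ O → ∃ g : G, g • x = y)
    (hfr : ∀ (g : G) (x : V), x ≠ O → g • x = x → g = 1)
    {w₁ w₂ z u v : ℕ} (hw₁ : w₁.Prime) (hw₂ : w₂.Prime) (ho₁ : w₁ ≠ 2) (ho₂ : w₂ ≠ 2)
    (hne : w₁ ≠ w₂) (hz : z ^ 2 = k) (hzu : z = u * v) (hu : 0 < u) (hv : 0 < v)
    (hvw : 4 * v ^ 4 < w₁ * w₂) (hz1 : (z : ZMod w₁) = -1) (hz2 : (z : ZMod w₂) = 1)
    (hs : ∀ p : ℕ, p.Prime → p ∣ u → ∃ j, w₁ * w₂ ∣ p ^ j + 1) : False := by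
  classical
  have : Fact w₁.Prime := ⟨hw₁⟩
  have : Fact w₂.Prime := ⟨hw₂⟩
  have : NeZero w₁ := ⟨hw₁.ne_zero⟩
  have : NeZero w₂ := ⟨hw₂.ne_zero⟩
  have hk2 := h.two
  obtain ⟨L, hL, x1, hfree, hS, hN, horb, hD, hG⟩ := setupD h hinv O hO htr hfr
  have hd1 : w₁ ∣ k - 1 := dvd_pred (by omega) hz (by rw [hz1]; ring)
  have hd2 : w₂ ∣ k - 1 := dvd_pred (by omega) hz (by rw [hz2]; ring)
  have hidx : (NN h hinv L hL).index = k + 1 := by
    have h1 := (NN h hinv L hL).card_mul_index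
    rw [hG, hN] at h1
    exact Nat.eq_of_mul_eq_mul_left (by omega) h1
  have hqi : ∀ q : ℕ, q.Prime → q ≠ 2 → q ∣ k - 1 → ¬ q ∣ (NN h hinv L hL).index := by
    intro q hq hq2 hqk h1
    rw [hidx] at h1
    have h2 : q ∣ (k + 1) - (k - 1) := Nat.dvd_sub h1 hqk
    have h3 : (k + 1) - (k - 1) = 2 := by omega
    rw [h3] at h2
    exact hq2 ((Nat.prime_dvd_prime_iff_eq hq Nat.prime_two).1 h2)
  obtain ⟨φ₁, hφ₁⟩ := Pool.Agent.TH66.SG.nilp_quot G w₁ (by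
    rw [hG]
    exact Dvd.dvd.mul_right hd1 _)
  obtain ⟨φ₂, hφ₂⟩ := Pool.Agent.TH66.SG.nilp_quot G w₂ (by
    rw [hG]
    exact Dvd.dvd.mul_right hd2 _)
  have honto := onto_prod hw₁ hw₂ hne φ₁ φ₂ (NN h hinv L hL)
    (onto_of_index hw₁ φ₁ hφ₁ _ (hqi w₁ hw₁ ho₁ hd1))
    (onto_of_index hw₂ φ₂ hφ₂ _ (hqi w₂ hw₂ ho₂ hd2))
  obtain ⟨lam, hlam⟩ := cor_eq h hinv hL hfree hS (φ₁.prod φ₂)
    (fun c => by
      obtain ⟨m, _, hm⟩ := honto c
      exact ⟨m, hm⟩)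
    (fun c => by
      obtain ⟨m, hm, hm'⟩ := honto c
      exact ⟨m, (mem_NN h hinv hL).1 hm, hm'⟩)
    (fun y hy hy' => absurd (horb y hy) hy')
  have hsum := sum_num (φ₁.prod φ₂) (Dset G x1 L)
  rw [hD] at hsum
  have h21 := two_ne hw₁ ho₁
  have h22 := two_ne hw₂ ho₂
  refine even_final _ (k : ℤ) lam hsum hlam hz hzu hu hv hvw hs (Or.inr ?_) (Or.inl ?_)
  · rw [← hz]
    push_cast
    rw [hz2]
    intro e
    apply h22
    linear_combination e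
  · rw [← hz]
    push_cast
    rw [hz1]
    intro e
    apply h21
    linear_combination e

variable {O : V} {L₁ L₂ : Finset V}

theorem setupG (h : Cross G k B O L₁ L₂) (hk4 : 4 ≤ k) :
    ∃ (L : Finset V) (hL : L ∈ B) (x1 y₁ y₂ : V), (∀ g : G, g • x1 = x1 → g = 1) ∧
      (∀ g : G, g • L = L → g = 1) ∧ Nat.card (NN h.aff h.inv L hL) = k - 1 ∧
      Nat.card (MulAction.stabilizer G y₁) = k - 1 ∧
      Nat.card (MulAction.stabilizer G y₂) = k - 1 ∧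
      Disjoint (MulAction.stabilizer G y₁) (MulAction.stabilizer G y₂) ∧
      Disjoint (MulAction.stabilizer G y₁) (NN h.aff h.inv L hL) ∧
      (∀ y ∈ L, y ∉ orb G x1 → y = y₁ ∨ y = y₂) ∧ (Dset G x1 L).card = k - 2 := by
  classical
  have hA := h.aff
  have hk2 := hA.two
  obtain ⟨y₁, hy₁, hy₁O⟩ := exists_mem_ne (s := L₁) (by rw [hA.size _ h.m1]; omega) O
  obtain ⟨y₂, hy₂, hy₂O⟩ := exists_mem_ne (s := L₂) (by rw [hA.size _ h.m2]; omega) O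
  have hy12 : y₁ ≠ y₂ := by
    rintro rfl
    exact hy₁O (h.eq_O hy₁ hy₂)
  have hy₁2 : y₁ ∉ L₂ := fun h1 => hy₁O (h.eq_O hy₁ h1)
  have hy₂1 : y₂ ∉ L₁ := fun h1 => hy₂O (h.eq_O h1 hy₂)
  obtain ⟨L, hL, hyL1, hyL2⟩ := hA.line y₁ y₂ hy12
  have hLL1 : L ≠ L₁ := by
    rintro rfl
    exact hy₂1 hyL2
  have hLL2 : L ≠ L₂ := by
    rintro rfl
    exact hy₁2 hyL1
  have m1 : ∀ z ∈ L, z ∈ L₁ → z = y₁ := fun z hz hz' => hA.inter hL h.m1 hLL1 hz hz' hyL1 hy₁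
  have m2 : ∀ z ∈ L, z ∈ L₂ → z = y₂ := fun z hz hz' => hA.inter hL h.m2 hLL2 hz hz' hyL2 hy₂
  set W := (L.erase y₁).erase y₂ with hW
  have hmemW : ∀ z, z ∈ W ↔ z ∈ L ∧ z ∉ L₁ ∧ z ∉ L₂ := by
    intro z
    rw [hW, mem_erase, mem_erase]
    constructor
    · rintro ⟨h1, h2, h3⟩
      exact ⟨h3, fun h4 => h2 (m1 z h3 h4), fun h4 => h1 (m2 z h3 h4)⟩
    · rintro ⟨h1, h2, h3⟩
      exact ⟨fun e => h3 (e ▸ hy₂), fun e => h2 (e ▸ hy₁), h1⟩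
  have hcW : W.card = k - 2 := by
    rw [hW, card_erase_of_mem, card_erase_of_mem hyL1, hA.size L hL]
    · omega
    · rw [mem_erase]
      exact ⟨hy12.symm, hyL2⟩
  obtain ⟨x₁, hx₁0⟩ : ∃ x, x ∈ W := card_pos.1 (by rw [hcW]; omega)
  have hx₁ := (hmemW x₁).1 hx₁0
  have hfree : ∀ g : G, g • x₁ = x₁ → g = 1 := fun g => h.fr g x₁ hx₁.2.1 hx₁.2.2
  have hinvW : ∀ (g : G) (z : V), z ∉ L₁ → z ∉ L₂ → g • z ∉ L₁ ∧ g • z ∉ L₂ :=
    fun g z h1 h2 => ⟨fun h3 => h1 ((mem_of_fix h.f1 g).1 h3),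
      fun h3 => h2 ((mem_of_fix h.f2 g).1 h3)⟩
  have hG := h.card_G (by omega)
  have hs1 : Nat.card (MulAction.stabilizer G y₁) = k - 1 := h.card_stab (by omega) hy₁ hy₁O
  have hs2 : Nat.card (MulAction.stabilizer G y₂) = k - 1 := h.symm.card_stab (by omega) hy₂ hy₂O
  have cW : ∀ y ∈ W, (univ.filter (fun g : G => g • y ∈ L)).card = k - 2 := by
    intro y hy
    rw [← hcW]
    rw [hmemW] at hy
    refine card_bij (fun g _ => g • y) ?_ ?_ ?_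
    · intro g hg
      rw [mem_filter] at hg
      rw [hmemW]
      exact ⟨hg.2, hinvW g y hy.2.1 hy.2.2⟩
    · intro a _ b _ e
      have h2 : (b⁻¹ * a) • y = y := by
        rw [mul_smul, e, inv_smul_smul]
      have h3 := h.fr _ y hy.2.1 hy.2.2 h2
      rw [inv_mul_eq_one] at h3
      exact h3.symm
    · intro z hz
      rw [hmemW] at hz
      obtain ⟨g, hg⟩ := h.tr y z hy.2.1 hy.2.2 hz.2.1 hz.2.2
      exact ⟨g, mem_filter.2 ⟨mem_univ _, by rw [hg]; exact hz.1⟩, hg⟩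
  have cS : ∀ y : V, (∀ g : G, g • y ∈ L → g • y = y) → y ∈ L →
      (univ.filter (fun g : G => g • y ∈ L)).card = Nat.card (MulAction.stabilizer G y) := by
    intro y h1 h2
    rw [Nat.card_eq_fintype_card, Fintype.card_subtype]
    congr 1
    ext g
    rw [mem_filter, mem_filter, MulAction.mem_stabilizer_iff]
    constructor
    · rintro ⟨_, h3⟩
      exact ⟨mem_univ _, h1 g h3⟩
    · rintro ⟨_, h3⟩
      exact ⟨mem_univ _, by rw [h3]; exact h2⟩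
  have c1 : (univ.filter (fun g : G => g • y₁ ∈ L)).card = k - 1 := by
    rw [cS y₁ (fun g hg => m1 _ hg ((mem_of_fix h.f1 g).2 hy₁)) hyL1, hs1]
  have c2 : (univ.filter (fun g : G => g • y₂ ∈ L)).card = k - 1 := by
    rw [cS y₂ (fun g hg => m2 _ hg ((mem_of_fix h.f2 g).2 hy₂)) hyL2, hs2]
  have hsum : (∑ y ∈ L, (univ.filter (fun g : G => g • y ∈ L)).card) =
      (k - 2) * (k - 2) + (k - 1) + (k - 1) := by
    rw [← add_sum_erase L _ hyL1, c1, ← add_sum_erase (L.erase y₁) _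
      (mem_erase.2 ⟨hy12.symm, hyL2⟩), c2, ← hW, sum_congr rfl cW, sum_const, smul_eq_mul, hcW]
    ring
  have hcount := count_NN hA h.inv hL
  rw [hsum, hG] at hcount
  obtain ⟨hS, hN⟩ := stab_trivial hA h.inv hL (by
    obtain ⟨c, rfl⟩ : ∃ c, k = c + 2 := ⟨k - 2, by omega⟩
    have e1 : c + 2 - 2 = c := by omega
    have e2 : c + 2 - 1 = c + 1 := by omega
    rw [e1, e2] at hcount
    have e3 : (c + 1) * (c + 1) = c * c + 2 * c + 1 := by ring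
    omega)
  refine ⟨L, hL, x₁, y₁, y₂, hfree, hS, hN, hs1, hs2, ?_, ?_, ?_, cW x₁ hx₁0⟩
  · rw [Subgroup.disjoint_def]
    intro g h1 h2
    rw [MulAction.mem_stabilizer_iff] at h1 h2
    apply hS
    refine hA.uniq y₁ y₂ hy12 _ (h.inv g L hL) L hL ?_ ?_ hyL1 hyL2
    · rw [← h1]
      exact smul_mem_smul_finset hyL1
    · rw [← h2]
      exact smul_mem_smul_finset hyL2
  · rw [Subgroup.disjoint_def]
    intro g h1 h2
    rw [MulAction.mem_stabilizer_iff] at h1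
    rw [mem_NN] at h2
    apply hS
    refine h2.resolve_right fun h3 => ?_
    have h4 : y₁ ∈ g • L := by
      rw [← h1]
      exact smul_mem_smul_finset hyL1
    exact disjoint_left.1 h3 h4 hyL1
  · intro y hy hy'
    have hyW : y ∉ W := by
      intro h1
      rw [hmemW] at h1
      obtain ⟨g, hg⟩ := h.tr x₁ y hx₁.2.1 hx₁.2.2 h1.2.1 h1.2.2
      exact hy' (mem_orb.2 ⟨g, hg⟩)
    rw [hmemW] at hyW
    by_cases h1 : y ∈ L₁
    · exact Or.inl (m1 y hy h1)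
    · by_cases h2 : y ∈ L₂
      · exact Or.inr (m2 y hy h2)
      · exact absurd ⟨hy, h1, h2⟩ hyW

theorem typeG_even [Group.IsNilpotent G] (h : Cross G k B O L₁ L₂)
    {w₁ w₂ z u v : ℕ} (hw₁ : w₁.Prime) (hw₂ : w₂.Prime) (ho₁ : w₁ ≠ 2) (ho₂ : w₂ ≠ 2)
    (hne : w₁ ≠ w₂) (hz : z ^ 2 = k) (hzu : z = u * v) (hu : 0 < u) (hv : 0 < v)
    (hvw : 4 * v ^ 4 < w₁ * w₂) (hz1 : (z : ZMod w₁) = -1) (hz2 : (z : ZMod w₂) = 1)
    (hs : ∀ p : ℕ, p.Prime → p ∣ u → ∃ j, w₁ * w₂ ∣ p ^ j + 1) : False := by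
  classical
  have : Fact w₁.Prime := ⟨hw₁⟩
  have : Fact w₂.Prime := ⟨hw₂⟩
  have : NeZero w₁ := ⟨hw₁.ne_zero⟩
  have : NeZero w₂ := ⟨hw₂.ne_zero⟩
  have hk2 := h.aff.two
  have hd1 : w₁ ∣ k - 1 := dvd_pred (by omega) hz (by rw [hz1]; ring)
  have hd2 : w₂ ∣ k - 1 := dvd_pred (by omega) hz (by rw [hz2]; ring)
  have hk4 : 4 ≤ k := by
    have := Nat.le_of_dvd (by omega) hd1
    have := hw₁.two_le
    omega
  obtain ⟨L, hL, x1, y₁, y₂, hfree, hS, hN, hs1, hs2, d12, d1N, hy, hD⟩ := setupG h hk4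
  have hG := h.card_G (by omega)
  have ex : ∀ q : ℕ, q.Prime → q ≠ 2 → q ∣ k - 1 → ∃ φ : G →* Multiplicative (ZMod q),
      (∀ c, ∃ m ∈ MulAction.stabilizer G y₁, φ m = c) ∧
      (∀ c, ∃ m ∈ MulAction.stabilizer G y₂, φ m = c) ∧
      (∀ c, ∃ m ∈ NN h.aff h.inv L hL, φ m = c) := by
    intro q hq hq2 hqk
    have hq3 : 2 < q := by
      have := hq.two_le
      omega
    obtain ⟨φ₁, hφ₁⟩ := exists_nt hq (MulAction.stabilizer G y₁) (MulAction.stabilizer G y₂)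
      (by rw [hs1, hs2, hG]) d12 (by rw [hs1]; exact hqk)
    obtain ⟨φ₂, hφ₂⟩ := exists_nt hq (MulAction.stabilizer G y₂) (MulAction.stabilizer G y₁)
      (by rw [hs1, hs2, hG]) d12.symm (by rw [hs2]; exact hqk)
    obtain ⟨φ₃, hφ₃⟩ := exists_nt hq (NN h.aff h.inv L hL) (MulAction.stabilizer G y₁)
      (by rw [hs1, hN, hG]) d1N.symm (by rw [hN]; exact hqk)
    obtain ⟨φ, ⟨s₁, hs₁, hs₁'⟩, ⟨s₂, hs₂, hs₂'⟩, ⟨s₃, hs₃, hs₃'⟩⟩ := combine hq hq3 hφ₁ hφ₂ hφ₃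
    exact ⟨φ, onto_of_ne hq φ _ hs₁ hs₁', onto_of_ne hq φ _ hs₂ hs₂', onto_of_ne hq φ _ hs₃ hs₃'⟩
  obtain ⟨φ, a1, a2, a3⟩ := ex w₁ hw₁ ho₁ hd1
  obtain ⟨ψ, b1, b2, b3⟩ := ex w₂ hw₂ ho₂ hd2
  have o1 := onto_prod hw₁ hw₂ hne φ ψ _ a1 b1
  have o2 := onto_prod hw₁ hw₂ hne φ ψ _ a2 b2
  have o3 := onto_prod hw₁ hw₂ hne φ ψ _ a3 b3
  obtain ⟨lam, hlam⟩ := cor_eq h.aff h.inv hL hfree hS (φ.prod ψ)
    (fun c => by
      obtain ⟨m, _, hm⟩ := o1 c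
      exact ⟨m, hm⟩)
    (fun c => by
      obtain ⟨m, hm, hm'⟩ := o3 c
      exact ⟨m, (mem_NN h.aff h.inv hL).1 hm, hm'⟩)
    (fun y hy0 hy' c => by
      rcases hy y hy0 hy' with e | e
      · rw [e]
        obtain ⟨m, hm, hm'⟩ := o1 c
        exact ⟨m, MulAction.mem_stabilizer_iff.1 hm, hm'⟩
      · rw [e]
        obtain ⟨m, hm, hm'⟩ := o2 c
        exact ⟨m, MulAction.mem_stabilizer_iff.1 hm, hm'⟩)
  have hsum := sum_num (φ.prod ψ) (Dset G x1 L)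
  rw [hD] at hsum
  have h21 := two_ne hw₁ ho₁
  have h22 := two_ne hw₂ ho₂
  have hkz : (((k - 2 : ℕ) : ℤ)) = (z : ℤ) ^ 2 - 2 := by
    rw [Nat.cast_sub hk2, ← hz]
    push_cast
    ring
  refine even_final _ ((k - 2 : ℕ) : ℤ) lam hsum hlam hz hzu hu hv hvw hs (Or.inl ?_) (Or.inr ?_)
  · rw [hkz]
    push_cast
    rw [hz1]
    intro e
    apply h21
    linear_combination -e
  · rw [hkz]
    push_cast
    rw [hz2]
    intro e
    apply h22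
    linear_combination -e

end

end Pool.Agent.R116.AF
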