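import Mathlib

set_option autoImplicit false
set_option linter.unusedSectionVars false
set_option linter.unusedVariables false

/-!
# Affine planes as block systems
-/

namespace Pool.Agent.R116.AF

open Finset
open scoped Pointwise

section
variable {V : Type} [Fintype V] [DecidableEq V]

/-- an affine plane of order `k`: a Steiner system with `k ^ 2` points and blocks of size `k` -/
structure Aff (k : ℕ) (B : Finset (Finset V)) : Prop where
  two : 2 ≤ k
  card : Fintype.card V = k ^ 2
  size : ∀ b ∈ B, b.card = k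
  line : ∀ x y : V, x ≠ y → ∃ b ∈ B, x ∈ b ∧ y ∈ b
  uniq : ∀ x y : V, x ≠ y → ∀ b ∈ B, ∀ c ∈ B, x ∈ b → y ∈ b → x ∈ c → y ∈ c → b = c

variable {k : ℕ} {B : Finset (Finset V)}

theorem Aff.inter (h : Aff k B) {b c : Finset V} (hb : b ∈ B) (hc : c ∈ B) (hne : b ≠ c) {x y : V}
    (hx : x ∈ b) (hx' : x ∈ c) (hy : y ∈ b) (hy' : y ∈ c) : x = y := by
  by_contra hxy
  exact hne (h.uniq x y hxy b hb c hc hx hy hx' hy')

theorem Aff.sq_sub (h : Aff k B) : k ^ 2 - 1 = (k + 1) * (k - 1) := by
  have := Nat.sq_sub_sq k 1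
  simpa using this

/-- the number of lines through a point -/
theorem Aff.deg (h : Aff k B) (x : V) : (B.filter (fun b => x ∈ b)).card = k + 1 := by
  have h1 : (univ.erase x).card = ∑ b ∈ B.filter (fun b => x ∈ b), (b.erase x).card := by
    rw [← card_biUnion]
    · congr 1
      ext y
      simp only [mem_erase, mem_univ, and_true, mem_biUnion, mem_filter]
      constructor
      · intro hy
        obtain ⟨b, hb, h1, h2⟩ := h.line x y (Ne.symm hy)
        exact ⟨b, ⟨hb, h1⟩, hy, h2⟩
      · rintro ⟨b, _, hy, _⟩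
        exact hy
    · intro b hb c hc hne
      rw [mem_coe, mem_filter] at hb hc
      rw [Function.onFun, disjoint_left]
      intro y hy hy'
      rw [mem_erase] at hy hy'
      exact hy.1 (h.inter hb.1 hc.1 hne hy.2 hy'.2 hb.2 hc.2)
  rw [card_erase_of_mem (mem_univ x), card_univ, h.card] at h1
  have h2 : ∀ b ∈ B.filter (fun b => x ∈ b), (b.erase x).card = k - 1 := by
    intro b hb
    rw [mem_filter] at hb
    rw [card_erase_of_mem hb.2, h.size b hb.1]
  rw [sum_congr rfl h2, sum_const, smul_eq_mul, h.sq_sub] at h1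
  have h3 := h.two
  exact (Nat.eq_of_mul_eq_mul_right (by omega) h1).symm

/-- exactly one line through a point misses a given line not through the point -/
theorem Aff.miss (h : Aff k B) {L : Finset V} (hL : L ∈ B) {x : V} (hx : x ∉ L) :
    (B.filter (fun b => x ∈ b ∧ Disjoint b L)).card = 1 := by
  have e : (B.filter (fun b => x ∈ b ∧ ¬ Disjoint b L)).card = L.card := by
    refine card_bij (fun b hb => Classical.choose (not_disjoint_iff.1 (mem_filter.1 hb).2.2))
      ?_ ?_ ?_
    · intro b hb
      exact (Classical.choose_spec (not_disjoint_iff.1 (mem_filter.1 hb).2.2)).2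
    · intro b hb c hc hbc
      obtain ⟨h1, h2⟩ := Classical.choose_spec (not_disjoint_iff.1 (mem_filter.1 hb).2.2)
      obtain ⟨h3, h4⟩ := Classical.choose_spec (not_disjoint_iff.1 (mem_filter.1 hc).2.2)
      rw [← hbc] at h3 h4
      rw [mem_filter] at hb hc
      refine h.uniq x _ ?_ b hb.1 c hc.1 hb.2.1 h1 hc.2.1 h3
      intro e
      exact hx (e ▸ h2)
    · intro y hy
      obtain ⟨b, hb, h1, h2⟩ := h.line x y (fun e => hx (e ▸ hy))
      have hbm : b ∈ B.filter (fun b => x ∈ b ∧ ¬ Disjoint b L) :=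
        mem_filter.2 ⟨hb, h1, not_disjoint_iff.2 ⟨y, h2, hy⟩⟩
      refine ⟨b, hbm, ?_⟩
      obtain ⟨h3, h4⟩ := Classical.choose_spec (not_disjoint_iff.1 (mem_filter.1 hbm).2.2)
      exact h.inter hb hL (fun e => hx (e ▸ h1)) h3 h4 h2 hy
  have h1 := h.deg x
  have h2 : (B.filter (fun b => x ∈ b ∧ Disjoint b L)).card +
      (B.filter (fun b => x ∈ b ∧ ¬ Disjoint b L)).card = (B.filter (fun b => x ∈ b)).card := by
    rw [← filter_filter, ← filter_filter]
    exact card_filter_add_card_filter_not _
  rw [e, h1, h.size L hL] at h2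
  omega

/-- parallel lines -/
def par (b c : Finset V) : Prop := b = c ∨ Disjoint b c

instance (b c : Finset V) : Decidable (par b c) := by
  unfold par
  infer_instance

theorem par_refl (b : Finset V) : par b b := Or.inl rfl

theorem par_symm {b c : Finset V} (h : par b c) : par c b := by
  rcases h with h | h
  · exact Or.inl h.symm
  · exact Or.inr h.symm

theorem Aff.par_unique (h : Aff k B) {L b c : Finset V} (hL : L ∈ B) (hb : b ∈ B) (hc : c ∈ B)
    (hb' : par b L) (hc' : par c L) {x : V} (hx : x ∈ b) (hx' : x ∈ c) : b = c := by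
  by_cases hxL : x ∈ L
  · have h1 : b = L := hb'.resolve_right fun hd => disjoint_left.1 hd hx hxL
    have h2 : c = L := hc'.resolve_right fun hd => disjoint_left.1 hd hx' hxL
    rw [h1, h2]
  · have h1 : Disjoint b L := hb'.resolve_left fun e => hxL (e ▸ hx)
    have h2 : Disjoint c L := hc'.resolve_left fun e => hxL (e ▸ hx')
    have h3 := (h.miss hL hxL).le
    rw [card_le_one] at h3
    exact h3 b (mem_filter.2 ⟨hb, hx, h1⟩) c (mem_filter.2 ⟨hc, hx', h2⟩)

theorem Aff.par_exists (h : Aff k B) {L : Finset V} (hL : L ∈ B) (x : V) :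
    ∃ b ∈ B, x ∈ b ∧ par b L := by
  by_cases hxL : x ∈ L
  · exact ⟨L, hL, hxL, par_refl L⟩
  · have h3 : 0 < (B.filter (fun b => x ∈ b ∧ Disjoint b L)).card := by
      rw [h.miss hL hxL]
      exact one_pos
    obtain ⟨b, hb⟩ := card_pos.1 h3
    rw [mem_filter] at hb
    exact ⟨b, hb.1, hb.2.1, Or.inr hb.2.2⟩

theorem Aff.par_trans (h : Aff k B) {a b c : Finset V} (ha : a ∈ B) (hb : b ∈ B) (hc : c ∈ B)
    (hab : par a b) (hbc : par b c) : par a c := by
  by_contra hac
  rw [par, not_or] at hac
  obtain ⟨x, hx, hx'⟩ := not_disjoint_iff.1 hac.2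
  exact hac.1 (h.par_unique hb ha hc hab (par_symm hbc) hx hx')

theorem Aff.not_par (h : Aff k B) {a b : Finset V} (hab : ¬ par a b) :
    a ≠ b ∧ ∃ x, x ∈ a ∧ x ∈ b := by
  rw [par, not_or] at hab
  exact ⟨hab.1, not_disjoint_iff.1 hab.2⟩

variable {G : Type} [Group G] [MulAction G V]

theorem par_smul (g : G) {b c : Finset V} (h : par b c) : par (g • b) (g • c) := by
  rcases h with h | h
  · exact Or.inl (by rw [h])
  · refine Or.inr (disjoint_left.2 fun x hx hx' => ?_)
    obtain ⟨y, hy, rfl⟩ := mem_smul_finset.1 hx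
    obtain ⟨z, hz, hzy⟩ := mem_smul_finset.1 hx'
    have := smul_left_cancel g hzy
    subst this
    exact disjoint_left.1 h hy hz

/-- The number of points of a line which are moved by `g` into the line. -/
theorem Aff.moved (h : Aff k B) (hinv : ∀ (g : G), ∀ b ∈ B, g • b ∈ B) {L : Finset V}
    (hL : L ∈ B) (g : G) :
    (L.filter (fun y => g • y ∈ L)).card =
      if g • L = L then k else if par (g • L) L then 0 else 1 := by
  split_ifs with h1 h2
  · rw [← h.size L hL]
    congr 1
    rw [filter_eq_self]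
    intro y hy
    rw [← h1]
    exact smul_mem_smul_finset hy
  · rw [card_eq_zero, filter_eq_empty_iff]
    intro y hy hy'
    have h3 := h2.resolve_left h1
    exact disjoint_left.1 h3 (smul_mem_smul_finset hy) hy'
  · obtain ⟨h3, x, hx, hx'⟩ := h.not_par h2
    obtain ⟨y, hy, rfl⟩ := mem_smul_finset.1 hx
    rw [card_eq_one]
    refine ⟨y, ?_⟩
    ext z
    rw [mem_filter, mem_singleton]
    constructor
    · rintro ⟨hz, hz'⟩
      exact smul_left_cancel g
        (h.inter (hinv g L hL) hL h3 (smul_mem_smul_finset hz) hz' hx hx')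
    · rintro rfl
      exact ⟨hy, hx'⟩

end

end Pool.Agent.R116.AF
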