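import Pool.Agent.R116.AF.Cnt

set_option autoImplicit false
set_option linter.unusedSectionVars false
set_option linter.unusedVariables false

/-!
# Homomorphisms of a nilpotent group to a group of prime order, nontrivial on three subgroups
-/

namespace Pool.Agent.R116.AF

open Finset

section
variable {G : Type} [Group G] [Finite G]

/-- In a nilpotent group a subgroup of index divisible by `q` lies in the kernel of a homomorphism
onto a group of order `q`. -/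
theorem nilp_quot' [hG : Group.IsNilpotent G] {q : ℕ} (hq : q.Prime) (K : Subgroup G)
    (hK : q ∣ K.index) : ∃ φ : G →* Multiplicative (ZMod q), Function.Surjective φ ∧ K ≤ φ.ker := by
  classical
  have : Fact q.Prime := ⟨hq⟩
  have hqG : q ∣ Nat.card G := hK.trans K.index_dvd_card
  obtain ⟨ϕ⟩ := ((Group.isNilpotent_of_finite_tfae (G := G)).out 0 4).mp hG
  have hmem : q ∈ (Nat.card G).primeFactors :=
    Nat.mem_primeFactors.2 ⟨hq, hqG, Nat.card_pos.ne'⟩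
  obtain ⟨P⟩ : Nonempty (Sylow q G) := inferInstance
  let e1 := Pi.evalMonoidHom (fun q : (Nat.card G).primeFactors => ∀ P : Sylow q G, P) ⟨q, hmem⟩
  let e2 := Pi.evalMonoidHom (fun P : Sylow q G => P) P
  set π : G →* P := (e2.comp e1).comp ϕ.symm.toMonoidHom with hπ
  have hπs : Function.Surjective π := by
    have h1 : Function.Surjective e1 :=
      Function.surjective_eval (⟨q, hmem⟩ : (Nat.card G).primeFactors)
    have h2 : Function.Surjective e2 := Function.surjective_eval P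
    rw [hπ, MonoidHom.coe_comp, MonoidHom.coe_comp]
    exact (h2.comp h1).comp ϕ.symm.surjective
  have hcard := P.card_eq_multiplicity
  set m := (Nat.card G).factorization q with hm
  -- the image of `K`
  have hKP : Nat.card (K.map π) ∣ Nat.card P := Subgroup.card_subgroup_dvd_card _
  have hKP' : Nat.card (K.map π) ∣ Nat.card K := Subgroup.card_dvd_of_surjective _
    (MonoidHom.subgroupMap_surjective π K)
  rw [hcard] at hKP
  obtain ⟨i, hi, hi'⟩ := (Nat.dvd_prime_pow hq).1 hKP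
  have him : i < m := by
    rcases Nat.lt_or_ge i m with h | h
    · exact h
    · exfalso
      have h1 : q ^ m ∣ Nat.card K := (pow_dvd_pow q h).trans (hi' ▸ hKP')
      have h2 : q ^ m * q ∣ Nat.card K * K.index := Nat.mul_dvd_mul h1 hK
      rw [K.card_mul_index, ← pow_succ] at h2
      exact Nat.pow_succ_factorization_not_dvd Nat.card_pos.ne' hq h2
  obtain ⟨M, hM, hKM⟩ := Sylow.exists_subgroup_card_pow_prime_le (G := P) (p := q) (n := i)
    (m := m - 1) (by rw [hcard]; exact pow_dvd_pow q (by omega)) (K.map π) hi' (by omega)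
  have hpk : q ^ m = q ^ (m - 1) * q := by
    rw [← pow_succ]
    congr 1
    omega
  have hidx : M.index = q := by
    have h1 := M.card_mul_index
    rw [hcard, hM, hpk] at h1
    exact Nat.eq_of_mul_eq_mul_left (pow_pos hq.pos _) h1
  have hmin : (Nat.card P).minFac = q := by
    rw [hcard, Nat.Prime.pow_minFac hq (by omega)]
  have hN : M.Normal := Subgroup.normal_of_index_eq_minFac_card (by rw [hidx, hmin])
  have hQ : Nat.card (P ⧸ M) = q := by rw [← Subgroup.index_eq_card, hidx]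
  let e : (P ⧸ M) ≃* Multiplicative (ZMod q) :=
    mulEquivOfPrimeCardEq (p := q) hQ (by simp)
  refine ⟨(e.toMonoidHom.comp (QuotientGroup.mk' M)).comp π, ?_, ?_⟩
  · rw [MonoidHom.coe_comp, MonoidHom.coe_comp]
    exact (e.surjective.comp (QuotientGroup.mk'_surjective M)).comp hπs
  · intro x hx
    rw [MonoidHom.mem_ker]
    have h1 : π x ∈ M := hKM (Subgroup.mem_map_of_mem π hx)
    have h2 : QuotientGroup.mk' M (π x) = 1 := (QuotientGroup.eq_one_iff _).2 h1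
    rw [MonoidHom.comp_apply, MonoidHom.comp_apply, h2]
    exact map_one e

/-- nontrivial on a subgroup -/
def nt {q : ℕ} (φ : G →* Multiplicative (ZMod q)) (S : Subgroup G) : Prop := ∃ s ∈ S, φ s ≠ 1

theorem of_not_nt {q : ℕ} {φ : G →* Multiplicative (ZMod q)} {S : Subgroup G} (h : ¬ nt φ S) :
    ∀ s ∈ S, φ s = 1 := by
  unfold nt at h
  push Not at h
  exact h

theorem exists_nt [Group.IsNilpotent G] {q : ℕ} (hq : q.Prime) (S K : Subgroup G)
    (hSK : Nat.card S * Nat.card K = Nat.card G) (hd : Disjoint S K) (hqS : q ∣ Nat.card S) :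
    ∃ φ : G →* Multiplicative (ZMod q), nt φ S := by
  have hidx : K.index = Nat.card S := by
    have h1 := K.card_mul_index
    rw [← hSK, mul_comm] at h1
    exact Nat.eq_of_mul_eq_mul_right Nat.card_pos h1
  obtain ⟨φ, hφ, hK⟩ := nilp_quot' hq K (by rw [hidx]; exact hqS)
  refine ⟨φ, ?_⟩
  by_contra hcon
  have h1 := of_not_nt hcon
  have h2 : Subgroup.IsComplement' S K := Subgroup.isComplement'_of_card_mul_and_disjoint hSK hd
  have : Fact q.Prime := ⟨hq⟩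
  have : Nontrivial (Multiplicative (ZMod q)) := by
    have : Nontrivial (ZMod q) := inferInstance
    exact Multiplicative.toAdd.nontrivial
  obtain ⟨c, hc⟩ := exists_ne (1 : Multiplicative (ZMod q))
  obtain ⟨g, rfl⟩ := hφ c
  obtain ⟨⟨s, k⟩, hsk⟩ := h2.2 g
  apply hc
  rw [← hsk]
  simp only [map_mul]
  rw [h1 s s.2, MonoidHom.mem_ker.1 (hK k.2), mul_one]

theorem sq_ne_one {q : ℕ} (hq : q.Prime) (hq2 : 2 < q) {x : Multiplicative (ZMod q)}
    (hx : x ≠ 1) : x * x ≠ 1 := by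
  intro h
  have : Fact q.Prime := ⟨hq⟩
  have h1 : orderOf x ∣ 2 := orderOf_dvd_of_pow_eq_one (by rw [pow_two]; exact h)
  have h2 : orderOf x ∣ q := by
    have h3 := orderOf_dvd_natCard x
    rwa [Nat.card_congr Multiplicative.toAdd, Nat.card_zmod] at h3
  have h3 : orderOf x = 1 := by
    have h4 : Nat.Coprime 2 q := (Nat.coprime_primes Nat.prime_two hq).2 (by omega)
    exact Nat.dvd_one.1 (h4 ▸ Nat.dvd_gcd h1 h2)
  exact hx (orderOf_eq_one_iff.1 h3)

theorem combine {q : ℕ} (hq : q.Prime) (hq2 : 2 < q) {S₁ S₂ S₃ : Subgroup G}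
    {φ₁ φ₂ φ₃ : G →* Multiplicative (ZMod q)} (h₁ : nt φ₁ S₁) (h₂ : nt φ₂ S₂) (h₃ : nt φ₃ S₃) :
    ∃ φ : G →* Multiplicative (ZMod q), nt φ S₁ ∧ nt φ S₂ ∧ nt φ S₃ := by
  obtain ⟨ψ, h1, h2⟩ : ∃ ψ : G →* Multiplicative (ZMod q), nt ψ S₁ ∧ nt ψ S₂ := by
    by_cases h12 : nt φ₁ S₂
    · exact ⟨φ₁, h₁, h12⟩
    by_cases h21 : nt φ₂ S₁
    · exact ⟨φ₂, h21, h₂⟩
    obtain ⟨s, hs, hs'⟩ := h₁
    obtain ⟨t, ht, ht'⟩ := h₂
    refine ⟨φ₁ * φ₂, ⟨s, hs, ?_⟩, ⟨t, ht, ?_⟩⟩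
    · rw [MonoidHom.mul_apply, of_not_nt h21 s hs, mul_one]
      exact hs'
    · rw [MonoidHom.mul_apply, of_not_nt h12 t ht, one_mul]
      exact ht'
  by_cases h3 : nt ψ S₃
  · exact ⟨ψ, h1, h2, h3⟩
  have h3' := of_not_nt h3
  obtain ⟨w, hw, hw'⟩ := h₃
  have hα : nt (ψ * φ₃) S₃ := ⟨w, hw, by rw [MonoidHom.mul_apply, h3' w hw, one_mul]; exact hw'⟩
  have hβ : nt (ψ * φ₃⁻¹) S₃ :=
    ⟨w, hw, by rw [MonoidHom.mul_apply, h3' w hw, one_mul, MonoidHom.inv_apply]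
               exact inv_ne_one.2 hw'⟩
  -- if `ψ φ₃` is trivial on `S`, then `ψ φ₃⁻¹` and `φ₃` are not
  have c1 : ∀ S : Subgroup G, nt ψ S → ¬ nt (ψ * φ₃) S → nt (ψ * φ₃⁻¹) S ∧ nt φ₃ S := by
    rintro S ⟨s, hs, hs'⟩ hn
    have h4 := of_not_nt hn s hs
    rw [MonoidHom.mul_apply] at h4
    have h5 : (φ₃ s)⁻¹ = ψ s := (eq_inv_of_mul_eq_one_left h4).symm
    refine ⟨⟨s, hs, ?_⟩, ⟨s, hs, ?_⟩⟩
    · rw [MonoidHom.mul_apply, MonoidHom.inv_apply, h5]
      exact sq_ne_one hq hq2 hs'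
    · intro h6
      rw [h6, inv_one] at h5
      exact hs' h5.symm
  have c2 : ∀ S : Subgroup G, nt ψ S → ¬ nt (ψ * φ₃⁻¹) S → nt (ψ * φ₃) S ∧ nt φ₃ S := by
    rintro S ⟨s, hs, hs'⟩ hn
    have h4 := of_not_nt hn s hs
    rw [MonoidHom.mul_apply, MonoidHom.inv_apply] at h4
    have h5 : φ₃ s = ψ s := (mul_inv_eq_one.1 h4).symm
    refine ⟨⟨s, hs, ?_⟩, ⟨s, hs, ?_⟩⟩
    · rw [MonoidHom.mul_apply, h5]
      exact sq_ne_one hq hq2 hs'
    · rw [h5]
      exact hs'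
  by_cases a1 : nt (ψ * φ₃) S₁ <;> by_cases a2 : nt (ψ * φ₃) S₂
  · exact ⟨_, a1, a2, hα⟩
  · obtain ⟨b2, g2⟩ := c1 _ h2 a2
    by_cases b1 : nt (ψ * φ₃⁻¹) S₁
    · exact ⟨_, b1, b2, hβ⟩
    · exact ⟨φ₃, (c2 _ h1 b1).2, g2, w, hw, hw'⟩
  · obtain ⟨b1, g1⟩ := c1 _ h1 a1
    by_cases b2 : nt (ψ * φ₃⁻¹) S₂
    · exact ⟨_, b1, b2, hβ⟩
    · exact ⟨φ₃, g1, (c2 _ h2 b2).2, w, hw, hw'⟩
  · exact ⟨φ₃, (c1 _ h1 a1).2, (c1 _ h2 a2).2, w, hw, hw'⟩

end

end Pool.Agent.R116.AF
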