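import Pool.Agent.R116.AF.Facts
import Pool.Agent.TH66.SG.Quot
import Pool.Agent.TH66.SG.Nilp
import Pool.Agent.H771R2.Lander

set_option autoImplicit false
set_option linter.unusedSectionVars false
set_option linter.unusedVariables false

/-!
# The test for affine planes with a group which is regular on a set of points
-/

namespace Pool.Agent.R116.AF

open Finset
open scoped Pointwise
open Pool.Agent.TH66.SG (num cor cor_num fib)

section
variable {V : Type} [Fintype V] [DecidableEq V] {k : ℕ} {B : Finset (Finset V)}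
variable {G : Type} [Group G] [Fintype G] [DecidableEq G] [MulAction G V]

/-- the group elements which move the base point into the base line -/
def Dset (G : Type) [Group G] [Fintype G] [MulAction G V] (x1 : V) (L : Finset V) : Finset G :=
  univ.filter (fun g => g • x1 ∈ L)

/-- the orbit of the base point -/
def orb (G : Type) [Group G] [Fintype G] [MulAction G V] (x1 : V) : Finset V :=
  univ.image (fun g : G => g • x1)

theorem mem_orb {x1 y : V} : y ∈ orb G x1 ↔ ∃ g : G, g • x1 = y := by
  simp [orb]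

theorem card_pairs {x1 : V} (hfree : ∀ g : G, g • x1 = x1 → g = 1) (L : Finset V) (g : G) :
    ((Dset G x1 L ×ˢ Dset G x1 L).filter (fun p : G × G => p.1 * p.2⁻¹ = g)).card =
      (L.filter (fun y => y ∈ orb G x1 ∧ g • y ∈ L)).card := by
  classical
  refine card_bij (fun p _ => p.2 • x1) ?_ ?_ ?_
  · rintro ⟨a, b⟩ h
    simp only [mem_filter, mem_product, Dset, mem_univ, true_and] at h ⊢
    obtain ⟨⟨h1, h2⟩, h3⟩ := h
    refine ⟨h2, mem_orb.2 ⟨b, rfl⟩, ?_⟩
    rw [← mul_smul, ← h3, inv_mul_cancel_right]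
    exact h1
  · rintro ⟨a, b⟩ h ⟨a', b'⟩ h' e
    simp only [mem_filter, mem_product, Dset, mem_univ, true_and] at h h' e
    have h1 : b' = b := by
      have h2 : (b'⁻¹ * b) • x1 = x1 := by
        rw [mul_smul, e, ← mul_smul, inv_mul_cancel, one_smul]
      have h3 := hfree _ h2
      rw [inv_mul_eq_one] at h3
      exact h3
    subst h1
    have h4 : a * b'⁻¹ = a' * b'⁻¹ := h.2.trans h'.2.symm
    rw [mul_right_cancel h4]
  · intro y hy
    rw [mem_filter] at hy
    obtain ⟨hy1, hd0, hy2⟩ := hy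
    obtain ⟨d, hd⟩ := mem_orb.1 hd0
    refine ⟨(g * d, d), ?_, hd⟩
    simp only [mem_filter, mem_product, Dset, mem_univ, true_and]
    refine ⟨⟨?_, by rw [hd]; exact hy1⟩, by rw [mul_inv_cancel_right]⟩
    rw [mul_smul, hd]
    exact hy2

variable {H : Type} [CommGroup H] [Fintype H] [DecidableEq H]

/-- the contribution of the other points is uniform -/
theorem outside (φ : G →* H) (x1 : V) (L : Finset V)
    (hW : ∀ y ∈ L, y ∉ orb G x1 → ∀ c : H, ∃ s : G, s • y = y ∧ φ s = c) (h : H) :
    (∑ g : G, if φ g = h then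
      (((L.filter (fun y => y ∉ orb G x1 ∧ g • y ∈ L)).card : ℕ) : ℤ) else 0) =
    ∑ g : G, if φ g = 1 then
      (((L.filter (fun y => y ∉ orb G x1 ∧ g • y ∈ L)).card : ℕ) : ℤ) else 0 := by
  classical
  have e : ∀ c : H, (∑ g : G, if φ g = c then
      (((L.filter (fun y => y ∉ orb G x1 ∧ g • y ∈ L)).card : ℕ) : ℤ) else 0) =
      ∑ y ∈ L.filter (fun y => y ∉ orb G x1),
        ∑ g : G, if (φ g = c ∧ g • y ∈ L) then (1 : ℤ) else 0 := by
    intro c
    rw [sum_comm]
    refine sum_congr rfl fun g _ => ?_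
    rw [card_filter, sum_filter]
    push_cast
    by_cases hc : φ g = c
    · rw [if_pos hc]
      refine sum_congr rfl fun y _ => ?_
      by_cases h1 : y ∈ orb G x1 <;> by_cases h2 : g • y ∈ L <;> simp [h1, h2, hc]
    · rw [if_neg hc]
      symm
      refine sum_eq_zero fun y _ => ?_
      simp [hc]
  rw [e h, e 1]
  refine sum_congr rfl fun y hy => ?_
  rw [mem_filter] at hy
  obtain ⟨s, hs, hs'⟩ := hW y hy.1 hy.2 h
  refine (Fintype.sum_equiv (Equiv.mulRight s) _ _ fun g => ?_).symm
  have h1 : (φ (g * s) = h) ↔ φ g = 1 := by rw [map_mul, hs', mul_eq_right]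
  have h2 : (g * s) • y = g • y := by rw [mul_smul, hs]
  simp only [Equiv.coe_mulRight, h1, h2]

/-- the autocorrelation -/
theorem cor_eq (h : Aff k B) (hinv : ∀ (g : G), ∀ b ∈ B, g • b ∈ B) {L : Finset V} (hL : L ∈ B)
    {x1 : V} (hfree : ∀ g : G, g • x1 = x1 → g = 1) (hS : ∀ g : G, g • L = L → g = 1)
    (φ : G →* H) (hφ : Function.Surjective φ)
    (hN : ∀ c : H, ∃ n : G, par (n • L) L ∧ φ n = c)
    (hW : ∀ y ∈ L, y ∉ orb G x1 → ∀ c : H, ∃ s : G, s • y = y ∧ φ s = c) :
    ∃ lam : ℤ, ∀ c : H, cor (num φ (Dset G x1 L)) c = (if c = 1 then (k : ℤ) else 0) + lam := by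
  classical
  set U : H → ℤ := fun c => ∑ g : G, if φ g = c then
      (((L.filter (fun y => y ∉ orb G x1 ∧ g • y ∈ L)).card : ℕ) : ℤ) else 0 with hU
  set F : H → ℤ := fun c => ∑ g : G, if φ g = c then (1 : ℤ) else 0 with hF
  set P : H → ℤ := fun c => ∑ g : G, if (φ g = c ∧ par (g • L) L) then (1 : ℤ) else 0 with hP
  have hUc : ∀ c, U c = U 1 := outside φ x1 L hW
  have hFc : ∀ c, F c = F 1 := fib φ hφ
  have hPc : ∀ c, P c = P 1 := by
    intro c
    obtain ⟨n, hn, hn'⟩ := hN c
    refine (Fintype.sum_equiv (Equiv.mulRight n) _ _ fun g => ?_).symm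
    have h1 : (φ (g * n) = c) ↔ φ g = 1 := by rw [map_mul, hn', mul_eq_right]
    have h2 : par ((g * n) • L) L ↔ par (g • L) L := by
      rw [mul_smul]
      have h3 : par (g • n • L) (g • L) := par_smul g hn
      constructor
      · intro h4
        exact h.par_trans (hinv g L hL) (hinv g _ (hinv n L hL)) hL (par_symm h3) h4
      · intro h4
        exact h.par_trans (hinv g _ (hinv n L hL)) (hinv g L hL) hL h3 h4
    simp only [Equiv.coe_mulRight, h1, h2]
  refine ⟨F 1 - P 1 - U 1, fun c => ?_⟩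
  rw [cor_num]
  have e1 : ∀ g : G, (((((Dset G x1 L ×ˢ Dset G x1 L).filter
      (fun p : G × G => p.1 * p.2⁻¹ = g)).card : ℕ)) : ℤ) =
      ((if g = 1 then (k : ℤ) else 0) + 1 - (if par (g • L) L then 1 else 0)) -
      (((L.filter (fun y => y ∉ orb G x1 ∧ g • y ∈ L)).card : ℕ) : ℤ) := by
    intro g
    rw [card_pairs hfree]
    have h1 := h.moved hinv hL g
    have h2 : (L.filter (fun y => y ∈ orb G x1 ∧ g • y ∈ L)).card +
        (L.filter (fun y => y ∉ orb G x1 ∧ g • y ∈ L)).card =
        (L.filter (fun y => g • y ∈ L)).card := by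
      rw [← card_union_of_disjoint]
      · congr 1
        ext y
        simp only [mem_union, mem_filter]
        tauto
      · rw [disjoint_left]
        intro y hy hy'
        rw [mem_filter] at hy hy'
        exact hy'.2.1 hy.2.1
    rw [h1] at h2
    have h3 : ((if g • L = L then k else if par (g • L) L then 0 else 1 : ℕ) : ℤ) =
        (if g = 1 then (k : ℤ) else 0) + 1 - (if par (g • L) L then 1 else 0) := by
      by_cases hg : g = 1
      · subst hg
        rw [if_pos (one_smul _ _), if_pos rfl, if_pos (by rw [one_smul]; exact par_refl L)]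
        ring
      · rw [if_neg (fun e => hg (hS g e)), if_neg hg]
        by_cases hp : par (g • L) L
        · rw [if_pos hp, if_pos hp]
          simp
        · rw [if_neg hp, if_neg hp]
          simp
    rw [← h3, ← h2]
    push_cast
    ring
  simp only [e1]
  have e2 : (if c = 1 then (k : ℤ) else 0) = ∑ g : G, if φ g = c then
      (if g = 1 then (k : ℤ) else 0) else 0 := by
    rw [sum_eq_single (1 : G)]
    · rw [map_one, if_pos rfl]
      simp only [eq_comm]
    · intro g _ hg
      rw [if_neg hg, ite_self]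
    · intro h1
      exact absurd (mem_univ _) h1
  rw [e2, ← hFc c, ← hPc c, ← hUc c]
  simp only [hU, hF, hP]
  rw [← sum_sub_distrib, ← sum_sub_distrib, ← sum_add_distrib]
  refine sum_congr rfl fun g _ => ?_
  by_cases hc : φ g = c
  · simp only [hc, if_true, true_and]
    ring
  · simp only [hc, if_false, false_and]
    ring

end

/-- the test -/
theorem no_cor {q : ℕ} [NeZero q] (hq : 2 < q) (f : Multiplicative (ZMod q) → ℤ) (k lam : ℤ)
    (hf : ∀ c, cor f c = (if c = 1 then k else 0) + lam) {r : ℕ} (hr : r.Prime) {j : ℕ}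
    (hj : (r : ZMod q) ^ j = -1) {a : ℕ} (ha : Odd a) {u : ℤ} (hu : ¬ (r : ℤ) ∣ u)
    (hk : k = (r : ℤ) ^ a * u) : False := by
  classical
  refine Pool.Agent.H771R2.Lander.test hq (T := Unit)
    (fun x y => f (Multiplicative.ofAdd (y.2 - x.2))) k lam ?_ ?_ (by simp) hr hj ha hu hk
  · rintro ⟨⟨⟩, x⟩ ⟨⟨⟩, z⟩
    have h1 := hf (Multiplicative.ofAdd (z - x))
    have h2 : (Multiplicative.ofAdd (z - x) = 1) ↔ (((), x) : Unit × ZMod q) = ((), z) := by
      rw [ofAdd_eq_one, sub_eq_zero, Prod.mk.injEq]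
      exact ⟨fun h => ⟨rfl, h.symm⟩, fun h => h.2.symm⟩
    rw [← if_congr h2 rfl rfl, ← h1, cor]
    refine Fintype.sum_bijective (fun y : Unit × ZMod q => Multiplicative.ofAdd (y.2 - z)) ?_ _ _
      (fun y => ?_)
    · constructor
      · rintro ⟨⟨⟩, a⟩ ⟨⟨⟩, b⟩ hab
        simp only [EmbeddingLike.apply_eq_iff_eq, sub_left_inj] at hab
        rw [hab]
      · intro y
        refine ⟨((), Multiplicative.toAdd y + z), ?_⟩
        simp
    · simp only
      rw [← ofAdd_add]
      congr 3
      ring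
  · intro _ _ i i' c
    simp only
    congr 2
    ring

end Pool.Agent.R116.AF
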