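import Pool.Agent.R116.AF.Key
import Pool.Agent.TH66.SG.Mann

set_option autoImplicit false

/-!
# Mann's test for integral functions
-/

namespace Pool.Agent.R116.AF

open Finset
open Pool.Agent.TH66.SG (cor descent final)

section
variable {H : Type} [CommGroup H] [Fintype H] [DecidableEq H]

theorem mann2 (d : H → ℤ) (K M : ℤ) (u v w : ℕ) (hdk : ∑ h, d h = K)
    (hcor : ∀ h, cor d h = (if h = 1 then ((u : ℤ) * v) ^ 2 else 0) + M)
    (hw : Fintype.card H = w) (hv : 0 < v) (hvw : 4 * v ^ 4 < w)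
    (hu : 0 < u) (hs : ∀ p : ℕ, p.Prime → p ∣ u → ∃ j, w ∣ p ^ j + 1) :
    (w : ℤ) ∣ K + u * v ∨ (w : ℤ) ∣ K - u * v := by
  classical
  have hw2 : 2 < w := by
    have : 1 ≤ v ^ 4 := Nat.one_le_pow _ _ hv
    omega
  have hcardH : (∑ _h : H, (1 : ℤ)) = w := by simp [hw]
  have hk2 : K ^ 2 = w * M + (u * v) ^ 2 := by
    have e1 : ∑ g, cor d g = K ^ 2 := by
      unfold cor
      rw [sum_comm]
      have : ∀ h : H, ∑ g : H, d (g * h) * d h = K * d h := by
        intro h
        rw [← sum_mul, Fintype.sum_equiv (Equiv.mulRight h) (fun g => d (g * h)) d (fun g => rfl), hdk]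
      rw [sum_congr rfl fun h _ => this h, ← mul_sum, hdk]
      ring
    rw [← e1, sum_congr rfl fun g _ => hcor g, sum_add_distrib, sum_ite_eq', if_pos (mem_univ _)]
    have : ∑ _x : H, M = (∑ _h : H, (1 : ℤ)) * M := by rw [sum_mul]; simp
    rw [this, hcardH]
    ring
  set f : H → ℤ := fun h => w * d h - K with hf
  have hcf : ∀ g, cor f g = (u : ℤ) ^ 2 * (v ^ 2 * ((if g = 1 then (w : ℤ) ^ 2 else 0) - w)) := by
    intro g
    have e1 : cor f g = w ^ 2 * cor d g - w * K * (∑ h, d (g * h)) - w * K * (∑ h, d h) +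
        K ^ 2 * ∑ _h : H, (1 : ℤ) := by
      unfold cor
      rw [mul_sum, mul_sum, mul_sum, mul_sum, ← sum_sub_distrib, ← sum_sub_distrib,
        ← sum_add_distrib]
      refine sum_congr rfl fun h _ => ?_
      simp only [hf]
      ring
    have e2 : ∑ h, d (g * h) = K := by
      rw [Fintype.sum_equiv (Equiv.mulLeft g) (fun h => d (g * h)) d (fun h => rfl), hdk]
    rw [e1, e2, hdk, hcardH, hcor, hk2]
    split_ifs
    · linear_combination ((-2 : ℤ) * w) * hk2
    · linear_combination ((-2 : ℤ) * w) * hk2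
  obtain ⟨y, hy, hyc⟩ := descent w hw hw2 u hu hs f _ hcf
  have hu' : (u : ℤ) ≠ 0 := by exact_mod_cast hu.ne'
  have hsum : ∑ h, y h = 0 := by
    have e : (u : ℤ) * ∑ h, y h = 0 := by
      rw [mul_sum, ← sum_congr rfl fun h _ => hy h]
      simp only [hf]
      rw [sum_sub_distrib, ← mul_sum, hdk]
      have : ∑ _x : H, K = K * ∑ _h : H, (1 : ℤ) := by rw [mul_sum]; simp
      rw [this, hcardH]
      ring
    exact (mul_eq_zero.1 e).resolve_left hu'
  have hsq : ∑ h, y h ^ 2 = (v : ℤ) ^ 2 * ((w : ℤ) ^ 2 - w) := by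
    have := hyc 1
    rw [if_pos rfl] at this
    rw [← this]
    unfold cor
    exact sum_congr rfl fun h _ => by rw [one_mul, sq]
  have hcop : IsCoprime (w : ℤ) (u : ℤ) := by
    rw [Nat.isCoprime_iff_coprime]
    refine Nat.Coprime.symm (Nat.coprime_of_dvd fun p hp hpu hpw => ?_)
    obtain ⟨j, hj⟩ := hs p hp hpu
    have h1 := hpw.trans hj
    rcases Nat.eq_zero_or_pos j with h0 | h0
    · rw [h0, pow_zero] at hj
      have := Nat.le_of_dvd (by norm_num) hj
      omega
    · have h2 : p ∣ 1 := (Nat.dvd_add_right (dvd_pow_self p h0.ne')).1 h1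
      exact hp.one_lt.ne' (Nat.dvd_one.1 h2)
  have hwpos : (0 : ℤ) < w := by exact_mod_cast (by omega : 0 < w)
  obtain ⟨r, hr⟩ : ∃ r : ℤ, r = y 1 % w := ⟨_, rfl⟩
  have hr0 : 0 ≤ r := hr ▸ Int.emod_nonneg _ hwpos.ne'
  have hr1 : r < w := hr ▸ Int.emod_lt_of_pos _ hwpos
  have hyr : ∀ h, ∃ z : ℤ, y h = r + w * z := by
    intro h
    have h1 : (w : ℤ) ∣ u * (y h - y 1) := by
      refine ⟨d h - d 1, ?_⟩
      have h2 := hy h
      have h3 := hy 1
      simp only [hf] at h2 h3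
      linarith
    have h2 := hcop.dvd_of_dvd_mul_left h1
    have h3 : (w : ℤ) ∣ y h - r := by
      have h4 : (w : ℤ) ∣ y 1 - r := by
        rw [hr]
        exact Int.dvd_self_sub_emod
      have := dvd_add h2 h4
      rwa [sub_add_sub_cancel] at this
    obtain ⟨z, hz⟩ := h3
    exact ⟨z, by linarith⟩
  have hfin := final w hw v hv hvw y r hr0 hr1 hyr hsum hsq
  obtain ⟨z, hz⟩ := hyr 1
  have h5 := hy 1
  simp only [hf] at h5
  rcases hfin with h | h
  · left
    refine ⟨d 1 - u * z, ?_⟩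
    rw [hz, h] at h5
    linarith
  · right
    refine ⟨d 1 - u - u * z, ?_⟩
    rw [hz, h] at h5
    linarith

end

end Pool.Agent.R116.AF
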