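import Pool.Agent.R116.AF.Even
import Pool.Agent.R116.AF.AppG
import Pool.Agent.TH66.SG.Tup5
import Pool.Agent.TH66.SG.Tup6

set_option autoImplicit false
set_option linter.unusedSectionVars false
set_option linter.unusedVariables false

/-!
# Orders with a fixed number of prime factors
-/

namespace Pool.Agent.R116.AF

open Finset Filter Topology
open Pool.Agent.TH66.SG (tup_main exx neg_ne_one pow_of_primes two_le_prod LL density_of_tuples)

/-- the two exclusion properties -/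
structure Excl (P : ℕ → Prop) : Prop where
  odd : ∀ n : ℕ, 2 ≤ n → P n → ∀ q r j a u : ℕ, q.Prime → 2 < q → q ∣ n - 1 → r.Prime →
    (r : ZMod q) ^ j = -1 → Odd a → ¬ r ∣ u → n = r ^ a * u → False
  even : ∀ n : ℕ, 2 ≤ n → P n → ∀ w₁ w₂ z u v : ℕ, w₁.Prime → w₂.Prime → w₁ ≠ 2 → w₂ ≠ 2 →
    w₁ ≠ w₂ → z ^ 2 = n → z = u * v → 0 < u → 0 < v → 4 * v ^ 4 < w₁ * w₂ →
    (z : ZMod w₁) = -1 → (z : ZMod w₂) = 1 →
    (∀ p : ℕ, p.Prime → p ∣ u → ∃ j, w₁ * w₂ ∣ p ^ j + 1) → False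

open Classical in
theorem tup_odd {P : ℕ → Prop} (hE : Excl P) (k a e : ℕ) (ha : 1 ≤ a) (he : Odd e)
    (ε : ℝ) (hε : 0 < ε) :
    ∃ X₀ : ℕ, ∀ X : ℕ, X₀ ≤ X →
      (((LL (k + 1 + 1) X).filter (fun l => P ((a * ∏ i, l i) ^ e))).card : ℝ) ≤
        ε * Pool.Agent.TH66.SG.NN (k + 1 + 1) X := by
  refine tup_main 3 k 1 4 a le_rfl odd_one ha (fun w t => t = 1) (fun w t => t = 1) ?_
    (fun N => P ((a * N) ^ e)) ?_ ε hε
  · intro w hw hw2 hLw _ g _
    exact ⟨1, 1, one_pow _, one_pow _, rfl, rfl⟩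
  · intro w b _ _ hw _ hK _ hb _ hwb _ hqa p hp hc _ hP _ hS
    have hwf : Fact w.Prime := ⟨hw⟩
    have hw2 : w ≠ 2 := by omega
    have h11 := neg_ne_one hw hw2
    have hN2 : 2 ≤ ∏ i, p i := two_le_prod p hp
    have hfact : ∏ i, p i = p 0 * ∏ i : Fin (k + 1), p i.succ := Fin.prod_univ_succ _
    have hc0 : (p 0 : ZMod w) ^ (4 * b) = -1 := by
      have := hc 0
      simpa [exx] using this
    have hc1 : (p 1 : ZMod w) ^ (4 * b) = -1 := by
      have := hc 1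
      simpa [exx] using this
    have hc2 : ∀ i : Fin k, (p i.succ.succ : ZMod w) ^ b = -1 := by
      intro i
      have := hc i.succ.succ
      simpa [exx] using this
    have hne2 : ∀ i : Fin k, p 0 ≠ p i.succ.succ := by
      intro i h
      apply h11
      rw [← hc0, h, mul_comm, pow_mul, hc2 i]
      norm_num
    have hab : (a : ZMod w) ^ b = 1 := pow_of_primes (by omega) hqa
    have hne1 : p 0 ≠ p 1 := by
      intro h
      have h1 : ((a * ∏ i, p i : ℕ) : ZMod w) ^ (2 * b) = -1 := by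
        rw [Fin.prod_univ_succ, Fin.prod_univ_succ]
        push_cast
        have e1 : (p (Fin.succ 0) : ZMod w) = p 0 := by
          rw [h]
          rfl
        have e2 : (∏ i : Fin k, (p i.succ.succ : ZMod w)) ^ (2 * b) = 1 := by
          rw [← Finset.prod_pow]
          refine Finset.prod_eq_one fun i _ => ?_
          rw [mul_comm, pow_mul, hc2 i]
          norm_num
        have e3 : (a : ZMod w) ^ (2 * b) = 1 := by
          rw [mul_comm, pow_mul, hab, one_pow]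
        rw [e1, mul_pow, mul_pow, mul_pow, e2, e3, mul_one, one_mul, ← pow_add, ← hc0]
        congr 1
        ring
      rw [hP, one_pow] at h1
      exact h11 h1.symm
    have hpa : ¬ p 0 ∣ a := by
      intro h
      apply h11
      rw [← hc0, mul_comm, pow_mul, hqa (p 0) (hp 0) h, one_pow]
    have hN2' : 2 ≤ a * ∏ i, p i := by nlinarith
    have hn2 : 2 ≤ (a * ∏ i, p i) ^ e := calc 2 ≤ a * ∏ i, p i := hN2'
          _ = (a * ∏ i, p i) ^ 1 := (pow_one _).symm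
          _ ≤ (a * ∏ i, p i) ^ e := Nat.pow_le_pow_right (by omega) he.pos
    refine hE.odd _ hn2 hS w (p 0) (4 * b) e ((a * ∏ i : Fin (k + 1), p i.succ) ^ e) hw
      (by have := hw.two_le; omega) ?_ (hp 0) hc0 he ?_ ?_
    · rw [← ZMod.natCast_eq_zero_iff, Nat.cast_sub (by omega), Nat.cast_pow, hP, one_pow]
      simp
    · intro hdvd
      have h3 := ((hp 0).dvd_mul.1 ((hp 0).dvd_of_dvd_pow hdvd)).resolve_left hpa
      obtain ⟨i, -, hi⟩ := (Prime.dvd_finsetProd_iff (hp 0).prime _).1 h3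
      have h4 := (Nat.prime_dvd_prime_iff_eq (hp 0) (hp i.succ)).1 hi
      revert h4
      refine Fin.cases ?_ (fun i => ?_) i
      · exact fun h => hne1 h
      · exact fun h => hne2 i h
    · rw [hfact, ← mul_pow]
      congr 1
      ring

open Classical in
theorem tup_even {P : ℕ → Prop} (hX : Excl P) (k a E : ℕ) (ha : 1 ≤ a) (hE0 : 1 ≤ E)
    (ε : ℝ) (hε : 0 < ε) :
    ∃ X₀ : ℕ, ∀ X : ℕ, X₀ ≤ X →
      (((LL (k + 1 + 1) X).filter (fun l => P ((a * ∏ i, l i) ^ (E + E)))).card : ℝ) ≤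
        ε * Pool.Agent.TH66.SG.NN (k + 1 + 1) X := by
  obtain ⟨r, E₁, hE₁o', hE₁⟩ := Nat.exists_eq_pow_mul_and_not_dvd (by omega : E ≠ 0) 2 (by norm_num)
  have hE₁o : Odd E₁ := by rwa [← Nat.not_even_iff_odd, even_iff_two_dvd]
  obtain ⟨s, hs⟩ : ∃ s, s = r + 3 := ⟨_, rfl⟩
  refine tup_main s k 1 (4 * (a ^ E) ^ 4) a (by omega) odd_one ha
      (fun w t => t ^ E = -1) (fun w t => t = 1) ?_ (fun N => P ((a * N) ^ (E + E))) ?_ ε hε
  · intro w hw hw2 hLw _ g hg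
    have ht : (g ^ 2 ^ (s - 1 - r)) ^ 2 ^ r = -1 := by
      rw [← pow_mul, ← hg, ← pow_add]
      congr 2
      omega
    refine ⟨g ^ 2 ^ (s - 1 - r), 1, ?_, one_pow _, ?_, rfl⟩
    · have e1 : 2 ^ (s - 1) * 1 = 2 ^ r * (2 * 2 ^ (s - 1 - r - 1)) := by
        rw [mul_one, ← pow_succ', ← pow_add]
        congr 1
        omega
      rw [e1, pow_mul, ht, pow_mul]
      norm_num
    · rw [hE₁, pow_mul, ht, hE₁o.neg_one_pow]
  · intro w₁ b₁ w₂ b₂ hw₁ hw₂ hK₁ hK₂ hb₁ hb₂ hwb₁ hwb₂ _ p hp hc₁ hc₂ hP₁ hP₂ hS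
    have hap : 0 < (a ^ E) ^ 4 := by positivity
    have ho₁ : w₁ ≠ 2 := by omega
    have ho₂ : w₂ ≠ 2 := by omega
    have hne : w₁ ≠ w₂ := by
      rintro rfl
      rw [hP₂, one_pow] at hP₁
      exact neg_ne_one hw₁ ho₁ hP₁.symm
    have hN2 : 2 ≤ ∏ i, p i := two_le_prod p hp
    obtain ⟨N, hN⟩ : ∃ N, N = ∏ i, p i := ⟨_, rfl⟩
    rw [← hN] at hP₁ hP₂ hN2 hS
    have h2 : 2 ≤ a * N := by nlinarith
    refine hX.even ((a * N) ^ (E + E)) ?_ hS w₁ w₂ ((a * N) ^ E) (N ^ E) (a ^ E) hw₁ hw₂ ho₁ ho₂ hne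
      ?_ ?_ (by positivity) (by positivity) ?_ ?_ ?_ ?_
    · calc 2 ≤ a * N := h2
        _ = (a * N) ^ 1 := (pow_one _).symm
        _ ≤ (a * N) ^ (E + E) := Nat.pow_le_pow_right (by omega) (by omega)
    · rw [← pow_mul]
      congr 1
      ring
    · rw [mul_comm (N ^ E), ← mul_pow]
    · calc 4 * (a ^ E) ^ 4 < w₁ := hK₁
        _ ≤ w₁ * w₂ := Nat.le_mul_of_pos_right _ hw₂.pos
    · rw [Nat.cast_pow]
      exact hP₁
    · rw [Nat.cast_pow, hP₂, one_pow]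
    · intro p' hp' hdvd
      have h3 : p' ∣ ∏ i, p i := hN ▸ hp'.dvd_of_dvd_pow hdvd
      obtain ⟨i, -, hi⟩ := (Prime.dvd_finsetProd_iff hp'.prime _).1 h3
      rw [(Nat.prime_dvd_prime_iff_eq hp' (hp i)).1 hi]
      refine ⟨2 ^ exx s i * b₁ * b₂,
        Nat.Coprime.mul_dvd_of_dvd_of_dvd ((Nat.coprime_primes hw₁ hw₂).2 hne) ?_ ?_⟩
      · rw [← ZMod.natCast_eq_zero_iff]
        push_cast
        rw [pow_mul, hc₁ i, hb₂.neg_one_pow, neg_add_cancel]
      · rw [← ZMod.natCast_eq_zero_iff]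
        push_cast
        rw [mul_right_comm, pow_mul, hc₂ i, hb₁.neg_one_pow, neg_add_cancel]

theorem density_excl {P : ℕ → Prop} (hX : Excl P) (m a e : ℕ) (hm : 2 ≤ m) (ha : 1 ≤ a)
    (he : 1 ≤ e) :
    Tendsto (fun X : ℕ =>
      ({N : ℕ | N ≤ X ∧ N.primeFactorsList.length = m ∧ P ((a * N) ^ e)}.ncard : ℝ) /
        ({N : ℕ | N ≤ X ∧ N.primeFactorsList.length = m}.ncard : ℝ)) atTop (𝓝 0) := by
  classical
  obtain ⟨k, rfl⟩ : ∃ k, m = k + 1 + 1 := ⟨m - 2, by omega⟩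
  refine density_of_tuples (by omega) (fun N => P ((a * N) ^ e)) fun ε hε => ?_
  rcases Nat.even_or_odd e with ⟨E, rfl⟩ | h
  · obtain ⟨X₀, hX₀⟩ := tup_even hX k a E ha (by omega) ε hε
    refine ⟨X₀, fun X hX => le_trans (le_of_eq ?_) (hX₀ X hX)⟩
    norm_cast
  · obtain ⟨X₀, hX₀⟩ := tup_odd hX k a e ha h ε hε
    refine ⟨X₀, fun X hX => le_trans (le_of_eq ?_) (hX₀ X hX)⟩
    norm_cast


open scoped Pointwise

theorem data_off {k t : ℕ} (hk : 2 ≤ k) (h : HasOff k t) :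
    ∃ (V : Type) (_ : Fintype V) (_ : DecidableEq V) (B : Finset (Finset V)) (G : Type)
      (_ : Group G) (_ : Fintype G) (_ : DecidableEq G) (_ : MulAction G V) (O : V),
      Group.IsNilpotent G ∧ Aff k B ∧ (∀ (g : G), ∀ b ∈ B, g • b ∈ B) ∧ (∀ g : G, g • O = O) ∧
      (∀ x y : V, x ≠ O → y ≠ O → ∃ g : G, g • x = y) ∧
      ∀ (g : G) (x : V), x ≠ O → g • x = x → g = 1 := by
  classical
  obtain ⟨B, G, F, hB, hnil, hinv, hF, hfix, hreg⟩ := h
  obtain ⟨O, hO⟩ : ∃ O, O ∈ F := card_pos.1 (by omega)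
  have hF' : (F.erase O).card = t := by
    rw [card_erase_of_mem hO, hF]
    rfl
  have hfix' : ∀ g ∈ G, ∀ x ∈ F.erase O, g x = x := fun g hg x hx => hfix g hg x (mem_of_mem_erase hx)
  have hA : Aff k (derB B (F.erase O)) := derived hk rfl hB hF'
  have hOO : O ∉ F.erase O := notMem_erase O F
  have hne : ∀ x : {x // x ∉ F.erase O}, x ≠ ⟨O, hOO⟩ → (x : Fin (k ^ 2 + t)) ∉ F := by
    intro x hx h1
    exact x.2 (mem_erase.2 ⟨fun e => hx (Subtype.ext e), h1⟩)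
  refine ⟨{x // x ∉ F.erase O}, inferInstance, inferInstance, derB B (F.erase O), G, inferInstance,
    Fintype.ofFinite G, inferInstance, derAct G (F.erase O) hfix', ⟨O, hOO⟩, hnil, hA,
    derAct_inv G (F.erase O) hfix' hinv, ?_, ?_, ?_⟩
  · intro g
    exact Subtype.ext (hfix g g.2 O hO)
  · intro x y hx hy
    obtain ⟨g, ⟨hg, hgxy⟩, -⟩ := hreg x y (hne x hx) (hne y hy)
    exact ⟨⟨g, hg⟩, Subtype.ext hgxy⟩
  · intro g x hx hgx
    have h1 := (hreg x x (hne x hx) (hne x hx)).unique (y₁ := (g : Equiv.Perm _)) (y₂ := 1)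
      ⟨g.2, congrArg Subtype.val hgx⟩ ⟨G.one_mem, rfl⟩
    exact Subtype.ext h1

theorem excl_off : Excl (fun n => ∃ t, HasOff n t) where
  odd := by
    rintro n hn ⟨t, h⟩ q r j a u hq hq2 hqn hr hj ha hu hnr
    obtain ⟨V, _, _, B, G, _, _, _, _, O, hnil, hA, hinv, hO, htr, hfr⟩ := data_off hn h
    exact typeD (G := G) hA hinv O hO htr hfr hq hq2 hqn hr hj ha (u := u)
      (by exact_mod_cast hu) (by exact_mod_cast hnr)
  even := by
    rintro n hn ⟨t, h⟩ w₁ w₂ z u v hw₁ hw₂ ho₁ ho₂ hne hz hzu hu hv hvw hz1 hz2 hs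
    obtain ⟨V, _, _, B, G, _, _, _, _, O, hnil, hA, hinv, hO, htr, hfr⟩ := data_off hn h
    exact typeD_even (G := G) hA hinv O hO htr hfr hw₁ hw₂ ho₁ ho₂ hne hz hzu hu hv hvw hz1 hz2 hs

theorem data_cross {k t : ℕ} (hk : 2 ≤ k) (h : HasCross k t) :
    ∃ (V : Type) (_ : Fintype V) (_ : DecidableEq V) (B : Finset (Finset V)) (G : Type)
      (_ : Group G) (_ : Fintype G) (_ : DecidableEq G) (_ : MulAction G V) (O : V)
      (L₁ L₂ : Finset V), Group.IsNilpotent G ∧ Cross G k B O L₁ L₂ := by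
  classical
  obtain ⟨B, G, b₁, b₂, hB, hnil, hinv, hb₁, hb₂, hF, hfb, hfix, hreg⟩ := h
  obtain ⟨O, hO⟩ : ∃ O, O ∈ b₁ ∩ b₂ := card_pos.1 (by omega)
  set F := (b₁ ∩ b₂).erase O with hFdef
  have hF' : F.card = t := by
    rw [hFdef, card_erase_of_mem hO, hF]
    rfl
  have hF1 : F ⊆ b₁ := fun x hx => (mem_inter.1 (mem_of_mem_erase hx)).1
  have hF2 : F ⊆ b₂ := fun x hx => (mem_inter.1 (mem_of_mem_erase hx)).2
  have hfix' : ∀ g ∈ G, ∀ x ∈ F, g x = x := fun g hg x hx => hfix g hg x (mem_of_mem_erase hx)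
  have hA : Aff k (derB B F) := derived hk rfl hB hF'
  have hOO : O ∉ F := notMem_erase O _
  have hO' := mem_inter.1 hO
  have himg : letI := derAct G F hfix'
      ∀ b : Finset (Fin (k ^ 2 + t)), F ⊆ b → (∀ g ∈ G, b.image g = b) →
      ∀ g : G, g • (b.subtype (fun x => x ∉ F)) = b.subtype (fun x => x ∉ F) := by
    letI := derAct G F hfix'
    intro b hFb hb g
    have h1 : g • (b.subtype (fun x => x ∉ F)) ⊆ b.subtype (fun x => x ∉ F) := by
      intro z hz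
      obtain ⟨y, hy, rfl⟩ := mem_smul_finset.1 hz
      rw [mem_subtype] at hy ⊢
      have h2 : (g : Equiv.Perm _) (y : Fin (k ^ 2 + t)) ∈ b.image (g : Equiv.Perm _) :=
        mem_image_of_mem _ hy
      rw [hb g g.2] at h2
      exact h2
    exact eq_of_subset_of_card_le h1 (by rw [card_smul_finset])
  have hne : b₁.subtype (fun x => x ∉ F) ≠ b₂.subtype (fun x => x ∉ F) := by
    intro e
    have h1 : b₁ ⊆ b₂ := by
      intro x hx
      by_cases hxF : x ∈ F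
      · exact hF2 hxF
      · have h2 : (⟨x, hxF⟩ : {x // x ∉ F}) ∈ b₁.subtype (fun x => x ∉ F) := mem_subtype.2 hx
        rw [e, mem_subtype] at h2
        exact h2
    have h3 : (b₁ ∩ b₂).card = k + t := by
      rw [inter_eq_left.2 h1, hB.1 _ hb₁]
    omega
  letI act := derAct G F hfix'
  have hC : Cross G k (derB B F) ⟨O, hOO⟩ (b₁.subtype (fun x => x ∉ F))
      (b₂.subtype (fun x => x ∉ F)) :=
    { aff := hA
      inv := derAct_inv G F hfix' hinv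
      m1 := mem_derB.2 ⟨b₁, hb₁, hF1, rfl⟩
      m2 := mem_derB.2 ⟨b₂, hb₂, hF2, rfl⟩
      ne := hne
      O1 := mem_subtype.2 hO'.1
      O2 := mem_subtype.2 hO'.2
      f1 := himg b₁ hF1 fun g hg => (hfb g hg).1
      f2 := himg b₂ hF2 fun g hg => (hfb g hg).2
      tr := by
        intro x y hx1 hx2 hy1 hy2
        rw [mem_subtype] at hx1 hx2 hy1 hy2
        obtain ⟨g, ⟨hg, hgxy⟩, -⟩ := hreg x y
          (by rw [mem_union, not_or]; exact ⟨hx1, hx2⟩) (by rw [mem_union, not_or]; exact ⟨hy1, hy2⟩)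
        exact ⟨⟨g, hg⟩, Subtype.ext hgxy⟩
      fr := by
        intro g x hx1 hx2 hgx
        rw [mem_subtype] at hx1 hx2
        have h0 : (x : Fin (k ^ 2 + t)) ∉ b₁ ∪ b₂ := by
          rw [mem_union, not_or]
          exact ⟨hx1, hx2⟩
        have h1 := (hreg x x h0 h0).unique (y₁ := (g : Equiv.Perm _)) (y₂ := 1)
          ⟨g.2, congrArg Subtype.val hgx⟩ ⟨G.one_mem, rfl⟩
        exact Subtype.ext h1 }
  exact ⟨{x // x ∉ F}, inferInstance, inferInstance, derB B F, G, inferInstance,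
    Fintype.ofFinite G, inferInstance, act, ⟨O, hOO⟩,
    b₁.subtype (fun x => x ∉ F), b₂.subtype (fun x => x ∉ F), hnil, hC⟩

theorem excl_cross : Excl (fun n => ∃ t, HasCross n t) where
  odd := by
    rintro n hn ⟨t, h⟩ q r j a u hq hq2 hqn hr hj ha hu hnr
    obtain ⟨V, _, _, B, G, _, _, _, _, O, L₁, L₂, hnil, hC⟩ := data_cross hn h
    exact typeG (G := G) hC hq hq2 hqn hr hj ha (u := u)
      (by exact_mod_cast hu) (by exact_mod_cast hnr)
  even := by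
    rintro n hn ⟨t, h⟩ w₁ w₂ z u v hw₁ hw₂ ho₁ ho₂ hne hz hzu hu hv hvw hz1 hz2 hs
    obtain ⟨V, _, _, B, G, _, _, _, _, O, L₁, L₂, hnil, hC⟩ := data_cross hn h
    exact typeG_even (G := G) hC hw₁ hw₂ ho₁ ho₂ hne hz hzu hu hv hvw hz1 hz2 hs

theorem excl_both : Excl (fun n => ∃ t, HasOff n t ∨ HasCross n t) where
  odd := by
    rintro n hn ⟨t, h | h⟩
    · exact excl_off.odd n hn ⟨t, h⟩
    · exact excl_cross.odd n hn ⟨t, h⟩
  even := by
    rintro n hn ⟨t, h | h⟩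
    · exact excl_off.even n hn ⟨t, h⟩
    · exact excl_cross.even n hn ⟨t, h⟩

end Pool.Agent.R116.AF
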