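import Pool.Agent.R116.AF.Even
import Pool.Agent.R116.AF.Tup

set_option autoImplicit false
set_option linter.unusedSectionVars false
set_option linter.unusedVariables false

/-!
# Relative difference sets in nilpotent groups
-/

namespace Pool.Agent.R116.AF

open Finset
open Pool.Agent.TH66.SG (num cor cor_num fib sum_num)

section
variable {G : Type} [Group G] [Fintype G] [DecidableEq G]
variable {H : Type} [CommGroup H] [Fintype H] [DecidableEq H]

/-- the number of representations -/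
def rep (D : Finset G) (g : G) : ℕ := ((D ×ˢ D).filter (fun p : G × G => p.1 * p.2⁻¹ = g)).card

theorem rep_one (D : Finset G) : rep D 1 = D.card := by
  have : (D ×ˢ D).filter (fun p : G × G => p.1 * p.2⁻¹ = 1) = D.image (fun x => (x, x)) := by
    ext ⟨x, y⟩
    simp only [mem_filter, mem_product, mem_image, Prod.mk.injEq]
    constructor
    · rintro ⟨⟨hx, _⟩, hxy⟩
      exact ⟨x, hx, rfl, mul_inv_eq_one.1 hxy⟩
    · rintro ⟨a, ha, rfl, rfl⟩
      exact ⟨⟨ha, ha⟩, mul_inv_cancel _⟩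
  rw [rep, this, card_image_of_injective _ (fun a b h => (Prod.mk.inj h).1)]

theorem cor_rds (N : Subgroup G) (D : Finset G) (lam : ℕ) (h0 : ∀ g ∈ N, g ≠ 1 → rep D g = 0)
    (h1 : ∀ g, g ∉ N → rep D g = lam) (φ : G →* H) (hN : ∀ c, ∃ n ∈ N, φ n = c) :
    ∃ M : ℤ, ∀ c : H, cor (num φ D) c = (if c = 1 then (D.card : ℤ) else 0) + M := by
  classical
  set F : H → ℤ := fun c => ∑ g : G, if φ g = c then (1 : ℤ) else 0 with hF
  set P : H → ℤ := fun c => ∑ g : G, if (φ g = c ∧ g ∈ N) then (1 : ℤ) else 0 with hP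
  have hφ : Function.Surjective φ := fun c => by
    obtain ⟨n, _, hn⟩ := hN c
    exact ⟨n, hn⟩
  have hFc : ∀ c, F c = F 1 := fib φ hφ
  have hPc : ∀ c, P c = P 1 := by
    intro c
    obtain ⟨n, hn, hn'⟩ := hN c
    refine (Fintype.sum_equiv (Equiv.mulRight n) _ _ fun g => ?_).symm
    have h1 : (φ (g * n) = c) ↔ φ g = 1 := by rw [map_mul, hn', mul_eq_right]
    have h2 : g * n ∈ N ↔ g ∈ N := N.mul_mem_cancel_right hn
    simp only [Equiv.coe_mulRight, h1, h2]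
  refine ⟨lam * F 1 - lam * P 1, fun c => ?_⟩
  rw [cor_num]
  have e1 : ∀ g : G, (((((D ×ˢ D).filter (fun p : G × G => p.1 * p.2⁻¹ = g)).card : ℕ)) : ℤ) =
      (if g = 1 then (D.card : ℤ) else 0) + lam - (if g ∈ N then (lam : ℤ) else 0) := by
    intro g
    by_cases hg : g = 1
    · subst hg
      rw [if_pos rfl, if_pos N.one_mem]
      have := rep_one D
      unfold rep at this
      rw [this]
      ring
    · rw [if_neg hg]
      by_cases hgN : g ∈ N
      · rw [if_pos hgN]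
        have := h0 g hgN hg
        unfold rep at this
        rw [this]
        simp
      · rw [if_neg hgN]
        have := h1 g hgN
        unfold rep at this
        rw [this]
        ring
  simp only [e1]
  have e2 : (if c = 1 then (D.card : ℤ) else 0) = ∑ g : G, if φ g = c then
      (if g = 1 then (D.card : ℤ) else 0) else 0 := by
    rw [sum_eq_single (1 : G)]
    · rw [map_one, if_pos rfl]
      simp only [eq_comm]
    · intro g _ hg
      rw [if_neg hg, ite_self]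
    · intro h1
      exact absurd (mem_univ _) h1
  rw [e2, ← hFc c, ← hPc c]
  simp only [hF, hP]
  rw [mul_sum, mul_sum, ← sum_sub_distrib, ← sum_add_distrib]
  refine sum_congr rfl fun g _ => ?_
  by_cases hc : φ g = c
  · by_cases hgN : g ∈ N
    · simp only [hc, hgN, if_true, and_self]
      ring
    · simp only [hc, hgN, if_true, if_false, and_false]
      ring
  · simp only [hc, if_false, false_and]
    ring

end

/-- A relative difference set with the classical parameters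
`((n ^ m - 1) / (n - 1), n - 1, n ^ (m - 1), n ^ (m - 2))` in a nilpotent group. -/
def HasRds (n m : ℕ) : Prop :=
  ∃ (G : Type) (_ : Group G) (_ : Fintype G) (_ : DecidableEq G) (N : Subgroup G) (D : Finset G),
    Group.IsNilpotent G ∧ Fintype.card G = n ^ m - 1 ∧ Nat.card N = n - 1 ∧
    D.card = n ^ (m - 1) ∧ (∀ g ∈ N, g ≠ 1 → rep D g = 0) ∧ ∀ g, g ∉ N → rep D g = n ^ (m - 2)

theorem index_rds {G : Type} [Group G] [Fintype G] {N : Subgroup G} {n m : ℕ} (hn : 2 ≤ n)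
    (hG : Fintype.card G = n ^ m - 1) (hN : Nat.card N = n - 1) :
    N.index = ∑ i ∈ range m, n ^ i := by
  have h1 := N.card_mul_index
  rw [hN, Nat.card_eq_fintype_card, hG] at h1
  have h2 : (∑ i ∈ range m, n ^ i) * (n - 1) = n ^ m - 1 := by
    exact Nat.geomSum_eq (by omega) m ▸ (Nat.div_mul_cancel (by
      simpa using Nat.sub_dvd_pow_sub_pow n 1 m))
  rw [← h2, mul_comm] at h1
  exact Nat.eq_of_mul_eq_mul_right (by omega) h1

/-- the index is prime to the prime divisors of `n - 1` which do not divide `m` -/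
theorem not_dvd_index {G : Type} [Group G] [Fintype G] {N : Subgroup G} {n m q : ℕ} (hn : 2 ≤ n)
    (hG : Fintype.card G = n ^ m - 1) (hN : Nat.card N = n - 1) (hq : q ∣ n - 1)
    (hqm : ¬ q ∣ m) : ¬ q ∣ N.index := by
  rw [index_rds hn hG hN, ← ZMod.natCast_eq_zero_iff]
  push_cast
  have h1 : (n : ZMod q) = 1 := by
    have h2 : ((n - 1 : ℕ) : ZMod q) = 0 := (ZMod.natCast_eq_zero_iff _ _).2 hq
    rw [Nat.cast_sub (by omega), sub_eq_zero] at h2
    simpa using h2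
  rw [h1]
  simp only [one_pow, sum_const, card_range, nsmul_eq_mul, mul_one]
  rw [ZMod.natCast_eq_zero_iff]
  exact hqm

theorem rds_odd {n m : ℕ} (hn : 2 ≤ n) (hm : Even m) (hm2 : 2 ≤ m) (h : HasRds n m) {q r j a u : ℕ}
    (hq : q.Prime) (hq2 : 2 < q) (hqn : q ∣ n - 1) (hqm : ¬ q ∣ m) (hr : r.Prime)
    (hj : (r : ZMod q) ^ j = -1) (ha : Odd a) (hu : ¬ r ∣ u) (hnu : n = r ^ a * u) : False := by
  classical
  obtain ⟨G, _, _, _, N, D, hnil, hG, hN, hD, h0, h1⟩ := h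
  have : Fact q.Prime := ⟨hq⟩
  have : NeZero q := ⟨hq.ne_zero⟩
  obtain ⟨φ, hφ⟩ := Pool.Agent.TH66.SG.nilp_quot G q (by
    have h3 := Subgroup.card_subgroup_dvd_card N
    rw [hN] at h3
    exact hqn.trans h3)
  obtain ⟨M, hM⟩ := cor_rds N D (n ^ (m - 2)) h0 h1 φ
    (onto_of_index hq φ hφ N (not_dvd_index hn hG hN hqn hqm))
  have hodd : Odd (m - 1) := by
    obtain ⟨c, hc⟩ := hm
    exact ⟨c - 1, by omega⟩
  refine no_cor hq2 _ (D.card : ℤ) M hM hr hj (ha.mul hodd) (u := (u : ℤ) ^ (m - 1)) ?_ ?_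
  · intro h4
    have h5 : (r : ℤ) ∣ u := (Nat.prime_iff_prime_int.1 hr).dvd_of_dvd_pow h4
    exact hu (by exact_mod_cast h5)
  · rw [hD, hnu]
    push_cast
    rw [mul_pow, ← pow_mul]

theorem rds_even {n m : ℕ} (hn : 2 ≤ n) (hm2 : 2 ≤ m) (h : HasRds n m)
    {w₁ w₂ z u v : ℕ} (hw₁ : w₁.Prime) (hw₂ : w₂.Prime) (ho₁ : w₁ ≠ 2) (ho₂ : w₂ ≠ 2)
    (hne : w₁ ≠ w₂) (hwm₁ : ¬ w₁ ∣ m) (hwm₂ : ¬ w₂ ∣ m) (hz : z ^ 2 = n ^ (m - 1))
    (hzu : z = u * v) (hu : 0 < u) (hv : 0 < v) (hvw : 4 * v ^ 4 < w₁ * w₂)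
    (hz1 : (z : ZMod w₁) = -1) (hz2 : (z : ZMod w₂) = 1) (hd1 : w₁ ∣ n - 1) (hd2 : w₂ ∣ n - 1)
    (hs : ∀ p : ℕ, p.Prime → p ∣ u → ∃ j, w₁ * w₂ ∣ p ^ j + 1) : False := by
  classical
  obtain ⟨G, _, _, _, N, D, hnil, hG, hN, hD, h0, h1⟩ := h
  have : Fact w₁.Prime := ⟨hw₁⟩
  have : Fact w₂.Prime := ⟨hw₂⟩
  have : NeZero w₁ := ⟨hw₁.ne_zero⟩
  have : NeZero w₂ := ⟨hw₂.ne_zero⟩
  have h3 := Subgroup.card_subgroup_dvd_card N
  rw [hN] at h3
  obtain ⟨φ₁, hφ₁⟩ := Pool.Agent.TH66.SG.nilp_quot G w₁ (hd1.trans h3)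
  obtain ⟨φ₂, hφ₂⟩ := Pool.Agent.TH66.SG.nilp_quot G w₂ (hd2.trans h3)
  obtain ⟨M, hM⟩ := cor_rds N D (n ^ (m - 2)) h0 h1 (φ₁.prod φ₂)
    (onto_prod hw₁ hw₂ hne φ₁ φ₂ N
      (onto_of_index hw₁ φ₁ hφ₁ N (not_dvd_index hn hG hN hd1 hwm₁))
      (onto_of_index hw₂ φ₂ hφ₂ N (not_dvd_index hn hG hN hd2 hwm₂)))
  have hsum := sum_num (φ₁.prod φ₂) D
  rw [hD] at hsum hM
  have h21 := two_ne hw₁ ho₁
  have h22 := two_ne hw₂ ho₂
  refine even_final (k := n ^ (m - 1)) _ ((n ^ (m - 1) : ℕ) : ℤ) M hsum hM hz hzu hu hv hvw hs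
    (Or.inr ?_) (Or.inl ?_)
  · rw [← hz]
    push_cast
    rw [hz2]
    intro e
    apply h22
    linear_combination e
  · rw [← hz]
    push_cast
    rw [hz1]
    intro e
    apply h21
    linear_combination e

end Pool.Agent.R116.AF
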